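import Pool.Agent.T2h31.LC.Stm

/-!
# Even log-concave variables conditioned on signed relations: last statements

Project LC, part (B) only (part (A), order relations, is done in the project `T2h95.OC`).
-/

set_option autoImplicit false

namespace Pool.Agent.T2h31.LC

open MeasureTheory Set Filter Topology
open Pool.Agent.T2h31.SB (Lb sv sg mv sm cfg SK)

/-- GENB (200 lines; takes S_FSB, S_APX, S_MLC, S_LIM): densities `pp f` on the cones of type B.
`h = (cone).indicator (pp f)`, `h_j = (KB (b j) R).indicator (pp (F j))`. Products: `pp (F j) ≤ pp f` on the cube; for almost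
all `x` all coordinates are points of convergence (`ae_all_iff` with `Measure.tendsto_eval_ae_ae`); `pp f` and
`x_i² pp f` are integrable (`Integrable.fintype_prod`). The relation may be replaced by `R p q ∧ p ≠ q`. -/
def S_GENB : Prop := ∀ (n : ℕ), 1 ≤ n → ∀ f : ℝ → ℝ, LCf f → (∀ x, f (-x) = f x) →
  ∀ R : Lb n → Lb n → Prop, 0 < ∫ x in {x : Fin n → ℝ | ∀ p q, R p q → sv x p ≤ sv x q}, pp f x →
    PL 3528 ({x : Fin n → ℝ | ∀ p q, R p q → sv x p ≤ sv x q}.indicator (pp f))

/-- MEAB (200 lines; takes S_GENB, S_MLC): measures. `Measure.pi (fun _ => μ)` has the density `pp f`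
(`Measure.pi_withDensity` or `pi_eq` and `lintegral` of products), the conditioned measure is
`(mass)⁻¹ • withDensity (indicator)`, and its integrals are quotients of the integrals in `PL`; the linear functionals
are in `L²` by MLC. -/
def S_MEAB : Prop := ∀ (n : ℕ), 1 ≤ n → ∀ (f : ℝ → ℝ) (μ : Measure ℝ), LCf f → (∫ x, f x = 1) →
  μ = volume.withDensity (fun x => ENNReal.ofReal (f x)) → (∀ x, f (-x) = f x) →
  ∀ R : Lb n → Lb n → Prop,
    Measure.pi (fun _ : Fin n => μ) {x : Fin n → ℝ | ∀ p q, R p q → sv x p ≤ sv x q} ≠ 0 →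
    Poin 3528 (ProbabilityTheory.cond (Measure.pi fun _ : Fin n => μ)
      {x : Fin n → ℝ | ∀ p q, R p q → sv x p ≤ sv x q})

end Pool.Agent.T2h31.LC
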