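import Pool.Agent.T2h31.LC.Stm

/-!
# APX: approximation of log-concave functions
-/

set_option autoImplicit false

namespace Pool.Agent.T2h31.LC

open MeasureTheory Set Filter Topology

namespace APX

/-- the set where `f` is positive -/
def P (f : ℝ → ℝ) : Set ℝ := {x | 0 < f x}

theorem conv {f : ℝ → ℝ} (hf : LCf f) : Convex ℝ (P f) := by
  intro x hx y hy a b ha hb hab
  rcases eq_or_lt_of_le hb with rfl | hb0
  · have : a = 1 := by linarith
    subst this
    simpa [P] using hx
  · rcases eq_or_lt_of_le ha with rfl | ha0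
    · have : b = 1 := by linarith
      subst this
      simpa [P] using hy
    · have h := hf.lc x y b hb0 (by linarith)
      have e : 1 - b = a := by linarith
      rw [e] at h
      show 0 < f (a • x + b • y)
      refine lt_of_lt_of_le ?_ h
      exact mul_pos (Real.rpow_pos_of_pos hx _) (Real.rpow_pos_of_pos hy _)

theorem cvx {f : ℝ → ℝ} (hf : LCf f) : ConvexOn ℝ (P f) (fun x => -Real.log (f x)) := by
  refine ⟨conv hf, fun x hx y hy a b ha hb hab => ?_⟩
  rcases eq_or_lt_of_le hb with rfl | hb0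
  · have : a = 1 := by linarith
    subst this
    simp
  · rcases eq_or_lt_of_le ha with rfl | ha0
    · have : b = 1 := by linarith
      subst this
      simp
    · have h := hf.lc x y b hb0 (by linarith)
      have e : 1 - b = a := by linarith
      rw [e] at h
      have hx' : 0 < f x := hx
      have hy' : 0 < f y := hy
      have h1 := Real.log_le_log (mul_pos (Real.rpow_pos_of_pos hx' _) (Real.rpow_pos_of_pos hy' _)) h
      rw [Real.log_mul (Real.rpow_pos_of_pos hx' _).ne' (Real.rpow_pos_of_pos hy' _).ne', Real.log_rpow hx',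
        Real.log_rpow hy'] at h1
      simp only [smul_eq_mul]
      linarith

theorem nonempty_interior {f : ℝ → ℝ} (hf : LCf f) : (interior (P f)).Nonempty := by
  by_contra h
  rw [not_nonempty_iff_eq_empty] at h
  have h1 : volume (P f) = 0 := by
    have h2 : P f ⊆ frontier (P f) := by
      intro x hx
      rw [frontier, h, sdiff_empty]
      exact subset_closure hx
    exact measure_mono_null h2 ((conv hf).addHaar_frontier volume)
  have h3 : f =ᵐ[volume] 0 := by
    rw [Filter.EventuallyEq, ae_iff]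
    refine measure_mono_null (fun x hx => ?_) h1
    have hx' : ¬ f x = 0 := hx
    exact lt_of_le_of_ne (hf.nonneg x) (Ne.symm hx')
  have h4 := hf.pos
  rw [integral_congr_ae h3] at h4
  simp at h4

/-! ### Exhaustion -/

/-- exhaustion from compact sets -/
theorem exh {I : Set ℝ} (hI : Convex ℝ I) (T : ℕ → Set ℝ) (hT : ∀ j, IsCompact (T j)) (hTI : ∀ j, T j ⊆ I)
    {c d : ℝ} (hcd : c < d) (hc : ∀ j, c ∈ T j) (hd : ∀ j, d ∈ T j) (hex : ∀ x ∈ I, ∀ᶠ j in atTop, x ∈ T j) :
    (∀ j, sInf (T j) < sSup (T j) ∧ Icc (sInf (T j)) (sSup (T j)) ⊆ I) ∧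
      ∀ x ∈ I, ∀ᶠ j in atTop, x ∈ Icc (sInf (T j)) (sSup (T j)) := by
  have hne : ∀ j, (T j).Nonempty := fun j => ⟨c, hc j⟩
  have h1 : ∀ j, ∀ x ∈ T j, x ∈ Icc (sInf (T j)) (sSup (T j)) := fun j x hx =>
    ⟨csInf_le (hT j).bddBelow hx, le_csSup (hT j).bddAbove hx⟩
  refine ⟨fun j => ⟨lt_of_le_of_lt (h1 j c (hc j)).1 (lt_of_lt_of_le hcd (h1 j d (hd j)).2), ?_⟩, fun x hx => ?_⟩
  · exact hI.ordConnected.out (hTI j ((hT j).sInf_mem (hne j))) (hTI j ((hT j).sSup_mem (hne j)))
  · filter_upwards [hex x hx] with j hj using h1 j x hj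

theorem exists_cover {I : Set ℝ} (hI : IsOpen I) : ∃ K : ℕ → Set ℝ, (∀ j, IsCompact (K j)) ∧ (∀ j, K j ⊆ I) ∧
    ∀ x ∈ I, ∀ᶠ j in atTop, x ∈ K j := by
  have : LocallyCompactSpace I := hI.locallyCompactSpace
  refine ⟨fun j => Subtype.val '' compactCovering I j,
    fun j => (isCompact_compactCovering I j).image continuous_subtype_val, ?_, ?_⟩
  · rintro j _ ⟨y, -, rfl⟩
    exact y.2
  · intro x hx
    obtain ⟨n, hn⟩ := exists_mem_compactCovering (⟨x, hx⟩ : I)
    filter_upwards [eventually_ge_atTop n] with j hj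
    exact ⟨⟨x, hx⟩, compactCovering_subset I hj hn, rfl⟩

theorem exhaust {I : Set ℝ} (hI : IsOpen I) (hc : Convex ℝ I) (hne : I.Nonempty) : ∃ p q : ℕ → ℝ,
    (∀ j, p j < q j ∧ Icc (p j) (q j) ⊆ I) ∧ (∀ x ∈ I, ∀ᶠ j in atTop, x ∈ Icc (p j) (q j)) := by
  obtain ⟨K, h1, h2, h3⟩ := exists_cover hI
  obtain ⟨c, hcI⟩ := hne
  obtain ⟨r, hr, hball⟩ := Metric.isOpen_iff.1 hI c hcI
  have hd : c + r / 2 ∈ I := hball (by rw [Metric.mem_ball, Real.dist_eq, add_sub_cancel_left, abs_of_pos (by linarith)]; linarith)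
  obtain ⟨a1, a2⟩ := exh hc (fun j => K j ∪ {c, c + r / 2}) (fun j => (h1 j).union (by simp))
    (fun j => union_subset (h2 j) (by
      rintro x (rfl | hx)
      · exact hcI
      · rw [mem_singleton_iff.1 hx]; exact hd)) (c := c) (d := c + r / 2) (by linarith)
    (fun j => Or.inr (Or.inl rfl)) (fun j => Or.inr (Or.inr rfl))
    (fun x hx => by filter_upwards [h3 x hx] with j hj using Or.inl hj)
  exact ⟨_, _, a1, a2⟩

theorem exhaust_even {I : Set ℝ} (hI : IsOpen I) (hc : Convex ℝ I) (hne : I.Nonempty) (hs : ∀ x ∈ I, -x ∈ I) :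
    ∃ p q : ℕ → ℝ, (∀ j, p j < q j ∧ Icc (p j) (q j) ⊆ I) ∧ (∀ x ∈ I, ∀ᶠ j in atTop, x ∈ Icc (p j) (q j)) ∧
      ∀ j, p j = -q j := by
  obtain ⟨K, h1, h2, h3⟩ := exists_cover hI
  obtain ⟨c, hcI⟩ := hne
  have h0 : (0 : ℝ) ∈ I := by
    have := hc hcI (hs c hcI) (show (0 : ℝ) ≤ 1 / 2 by norm_num) (show (0 : ℝ) ≤ 1 / 2 by norm_num) (by norm_num)
    simpa using this
  obtain ⟨r, hr, hball⟩ := Metric.isOpen_iff.1 hI 0 h0
  have hd : r / 2 ∈ I := hball (by rw [Metric.mem_ball, Real.dist_eq, sub_zero, abs_of_pos (by linarith)]; linarith)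
  set T : ℕ → Set ℝ := fun j => (K j ∪ -K j) ∪ {-(r / 2), r / 2} with hTdef
  have hTs : ∀ j, -(T j) = T j := by
    intro j
    rw [hTdef]
    simp only [Set.union_neg, neg_neg, Set.neg_insert, Set.neg_singleton]
    rw [Set.union_comm (-K j) (K j), Set.pair_comm]
  obtain ⟨a1, a2⟩ := exh hc T (fun j => ((h1 j).union (h1 j).neg).union (by simp))
    (fun j => union_subset (union_subset (h2 j) (fun x hx => by
      have := hs _ (h2 j hx)
      simpa using this)) (by
      rintro x (rfl | hx)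
      · exact hs _ hd
      · rw [mem_singleton_iff.1 hx]; exact hd)) (c := -(r / 2)) (d := r / 2) (by linarith)
    (fun j => Or.inr (Or.inl rfl)) (fun j => Or.inr (Or.inr rfl))
    (fun x hx => by filter_upwards [h3 x hx] with j hj using Or.inl (Or.inl hj))
  refine ⟨_, _, a1, a2, fun j => ?_⟩
  have := Real.sInf_neg (T j)
  rw [hTs] at this
  exact this

/-! ### One step -/

/-- the projection to `[a, b]` -/
noncomputable def cl (a b x : ℝ) : ℝ := max a (min b x)

theorem cl_mem {a b : ℝ} (h : a ≤ b) (x : ℝ) : cl a b x ∈ Icc a b :=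
  ⟨le_max_left _ _, max_le h (min_le_left _ _)⟩

theorem cl_of_mem {a b x : ℝ} (h : x ∈ Icc a b) : cl a b x = x := by
  rw [cl, min_eq_right h.2, max_eq_right h.1]

theorem cl_cont (a b : ℝ) : Continuous (cl a b) := by
  unfold cl
  fun_prop

theorem cl_lip (a b x y : ℝ) : |cl a b x - cl a b y| ≤ |x - y| := by
  unfold cl
  calc |max a (min b x) - max a (min b y)| ≤ max |a - a| |min b x - min b y| := abs_max_sub_max_le_max _ _ _ _
    _ = |min b x - min b y| := by rw [sub_self, abs_zero]; exact max_eq_right (abs_nonneg _)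
    _ ≤ max |b - b| |x - y| := abs_min_sub_min_le_max _ _ _ _
    _ = |x - y| := by rw [sub_self, abs_zero]; exact max_eq_right (abs_nonneg _)

theorem cl_neg {b : ℝ} (h : 0 ≤ b) (x : ℝ) : cl (-b) b (-x) = -cl (-b) b x := by
  unfold cl
  rcases le_total x (-b) with h1 | h1
  · have h2 : b ≤ -x := by linarith
    rw [min_eq_left h2, max_eq_right (by linarith), min_eq_right (by linarith), max_eq_left h1, neg_neg]
  · rcases le_total x b with h2 | h2
    · rw [min_eq_right (by linarith), max_eq_right (by linarith), min_eq_right h2, max_eq_right h1]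
    · rw [min_eq_right (by linarith), max_eq_left (by linarith), min_eq_left h2, max_eq_right (by linarith)]

/-- convexity on an interval: the inequality for four points with equal sums -/
theorem four {V : ℝ → ℝ} {I : Set ℝ} (hV : ConvexOn ℝ I V) {x y ε : ℝ} (hε : 0 < ε) (hxy : x ≤ y)
    (h1 : x - ε ∈ I) (h2 : y + ε ∈ I) : V (x + ε) + V (y - ε) ≤ V (x - ε) + V (y + ε) := by
  set L : ℝ := y - x + 2 * ε with hL
  have hL0 : 0 < L := by rw [hL]; linarith
  set l : ℝ := 2 * ε / L with hl
  have hl0 : 0 ≤ l := by positivity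
  have hl1 : l ≤ 1 := (div_le_one hL0).2 (by rw [hL]; linarith)
  have hlL : l * L = 2 * ε := by rw [hl]; field_simp
  have a1 := hV.2 h1 h2 (show 0 ≤ 1 - l by linarith) hl0 (by ring)
  have a2 := hV.2 h1 h2 hl0 (show 0 ≤ 1 - l by linarith) (by ring)
  simp only [smul_eq_mul] at a1 a2
  have e1 : (1 - l) * (x - ε) + l * (y + ε) = x + ε := by
    rw [hL] at hlL
    linear_combination hlL
  have e2 : l * (x - ε) + (1 - l) * (y + ε) = y - ε := by
    rw [hL] at hlL
    linear_combination -hlL
  rw [e1] at a1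
  rw [e2] at a2
  linarith

theorem step {f : ℝ → ℝ} (hf : LCf f) {p q η : ℝ} (hpq : p < q) (hsub : Icc p q ⊆ interior (P f)) (hη : 0 < η) :
    ∃ (a b : ℝ) (F : ℝ → ℝ), Smo F a b ∧ Icc p q ⊆ Icc a b ∧ Icc a b ⊆ interior (P f) ∧
      (∀ x ∈ Icc a b, F x ≤ f x) ∧ (∀ x ∈ Icc p q, f x - F x ≤ η) ∧
      ((∀ x, f (-x) = f x) → p = -q → (∀ x, F (-x) = F x) ∧ a = -b) := by
  set I := interior (P f) with hI
  have hIc : Convex ℝ I := (conv hf).interior
  have hIo : IsOpen I := isOpen_interior
  set V : ℝ → ℝ := fun x => -Real.log (f x) with hV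
  have hVc : ConvexOn ℝ I V := (cvx hf).subset interior_subset hIc
  have hVcont : ContinuousOn V I := hVc.continuousOn hIo
  obtain ⟨r1, hr1, hb1⟩ := Metric.isOpen_iff.1 hIo p (hsub (left_mem_Icc.2 hpq.le))
  obtain ⟨r2, hr2, hb2⟩ := Metric.isOpen_iff.1 hIo q (hsub (right_mem_Icc.2 hpq.le))
  set δ : ℝ := min r1 r2 / 4 with hδ
  have hδ0 : 0 < δ := by rw [hδ]; have := lt_min hr1 hr2; linarith
  have hδ1 : 4 * δ ≤ r1 := by rw [hδ]; have := min_le_left r1 r2; linarith
  have hδ2 : 4 * δ ≤ r2 := by rw [hδ]; have := min_le_right r1 r2; linarith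
  set a' := p - 2 * δ with ha'
  set b' := q + 2 * δ with hb'
  have ha'I : a' ∈ I := hb1 (by
    rw [Metric.mem_ball, Real.dist_eq, ha', abs_lt]; constructor <;> linarith)
  have hb'I : b' ∈ I := hb2 (by
    rw [Metric.mem_ball, Real.dist_eq, hb', abs_lt]; constructor <;> linarith)
  have hab' : a' < b' := by rw [ha', hb']; linarith
  have hII : Icc a' b' ⊆ I := hIc.ordConnected.out ha'I hb'I
  have hVI : ContinuousOn V (Icc a' b') := hVcont.mono hII
  have hVcI : ConvexOn ℝ (Icc a' b') V := hVc.subset hII (convex_Icc _ _)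
  set U : ℝ → ℝ := fun x => V (cl a' b' x) with hU
  have hUc : Continuous U := hVI.comp_continuous (cl_cont a' b') (cl_mem hab'.le)
  have hUV : ∀ x ∈ Icc a' b', U x = V x := fun x hx => by rw [hU]; simp only; rw [cl_of_mem hx]
  obtain ⟨K, hK⟩ := isCompact_Icc.exists_bound_of_continuousOn hVI
  have hUK : ∀ x, |U x| ≤ K := fun x => by
    have := hK _ (cl_mem hab'.le x)
    rwa [Real.norm_eq_abs] at this
  set η' : ℝ := η / (Real.exp K + 1) with hη'
  have hη'0 : 0 < η' := by positivity
  obtain ⟨ε₀, hε₀, huc⟩ := Metric.uniformContinuousOn_iff.1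
    (isCompact_Icc.uniformContinuousOn_of_continuous hVI) η' hη'0
  have hUuc : ∀ x y, |x - y| < ε₀ → |U x - U y| ≤ η' := by
    intro x y hxy
    have := huc _ (cl_mem hab'.le x) _ (cl_mem hab'.le y) (by
      rw [Real.dist_eq]; exact (cl_lip a' b' x y).trans_lt hxy)
    rw [Real.dist_eq] at this
    exact this.le
  set ε : ℝ := min δ (ε₀ / 2) with hε
  have hε0 : 0 < ε := lt_min hδ0 (by linarith)
  have hεδ : ε ≤ δ := min_le_left _ _
  have hεε : ε < ε₀ := lt_of_le_of_lt (min_le_right _ _) (by linarith)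
  set Φ : ℝ → ℝ := fun x => ∫ t in (0 : ℝ)..x, U t with hΦ
  have hΦd : ∀ x, HasDerivAt Φ (U x) x := fun x => (hUc.integral_hasStrictDerivAt 0 x).hasDerivAt
  set W : ℝ → ℝ := fun x => (Φ (x + ε) - Φ (x - ε)) / (2 * ε) with hW
  have hWd : ∀ x, HasDerivAt W ((U (x + ε) - U (x - ε)) / (2 * ε)) x := by
    intro x
    have h1 : HasDerivAt (fun x => Φ (x + ε)) (U (x + ε)) x := (hΦd (x + ε)).comp_add_const x ε
    have h2 : HasDerivAt (fun x => Φ (x - ε)) (U (x - ε)) x := (hΦd (x - ε)).comp_sub_const x ε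
    exact (h1.sub h2).div_const _
  have hWc : ContDiff ℝ 1 W := by
    rw [contDiff_one_iff_deriv]
    refine ⟨fun x => (hWd x).differentiableAt, ?_⟩
    have : deriv W = fun x => (U (x + ε) - U (x - ε)) / (2 * ε) := funext fun x => (hWd x).deriv
    rw [this]
    exact ((hUc.comp (by fun_prop)).sub (hUc.comp (by fun_prop))).div_const _
  have hint : ∀ x, Φ (x + ε) - Φ (x - ε) = ∫ t in (x - ε)..(x + ε), U t := fun x =>
    intervalIntegral.integral_interval_sub_left (hUc.intervalIntegrable _ _) (hUc.intervalIntegrable _ _)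
  -- averages
  have havg : ∀ x c r : ℝ, (∀ t ∈ Set.uIoc (x - ε) (x + ε), ‖U t - c‖ ≤ r) → |W x - c| ≤ r := by
    intro x c r h
    have h1 := intervalIntegral.norm_integral_le_of_norm_le_const h
    rw [intervalIntegral.integral_sub (hUc.intervalIntegrable _ _) intervalIntegrable_const,
      intervalIntegral.integral_const, smul_eq_mul, ← hint x, Real.norm_eq_abs] at h1
    have e : |x + ε - (x - ε)| = 2 * ε := by rw [show x + ε - (x - ε) = 2 * ε by ring, abs_of_pos (by linarith)]
    rw [e] at h1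
    have e2 : W x - c = (Φ (x + ε) - Φ (x - ε) - (x + ε - (x - ε)) * c) / (2 * ε) := by
      rw [hW]; field_simp; ring
    rw [e2, abs_div, abs_of_pos (show 0 < 2 * ε by linarith), div_le_iff₀ (by linarith)]
    exact h1
  have hWK : ∀ x, |W x| ≤ K := fun x => by
    have := havg x 0 K (fun t _ => by rw [sub_zero]; exact hUK t)
    rwa [sub_zero] at this
  set F : ℝ → ℝ := fun x => Real.exp (-W x) with hF
  have hFd : ∀ x, deriv F x / F x = -((U (x + ε) - U (x - ε)) / (2 * ε)) := by
    intro x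
    have h1 : HasDerivAt F (Real.exp (-W x) * -((U (x + ε) - U (x - ε)) / (2 * ε))) x := (hWd x).neg.exp
    rw [h1.deriv, hF]
    field_simp
  have hsmo : Smo F (a' + ε) (b' - ε) := by
    refine ⟨by rw [ha', hb']; linarith, hWc.neg.exp, ⟨Real.exp (-K), Real.exp_pos _, fun x => ?_⟩, ?_⟩
    · exact Real.exp_le_exp.2 (neg_le_neg ((le_abs_self _).trans (hWK x)))
    · intro x hx y hy hxy
      simp only
      rw [hFd, hFd, neg_le_neg_iff]
      refine div_le_div_of_nonneg_right ?_ (by linarith)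
      have m1 : x - ε ∈ Icc a' b' := ⟨by linarith [hx.1], by linarith [hx.2]⟩
      have m2 : x + ε ∈ Icc a' b' := ⟨by linarith [hx.1], by linarith [hx.2]⟩
      have m3 : y - ε ∈ Icc a' b' := ⟨by linarith [hy.1], by linarith [hy.2]⟩
      have m4 : y + ε ∈ Icc a' b' := ⟨by linarith [hy.1], by linarith [hy.2]⟩
      have := four hVcI hε0 hxy m1 m4
      rw [hUV _ m1, hUV _ m2, hUV _ m3, hUV _ m4]
      linarith
  have hpos : ∀ x ∈ I, 0 < f x := fun x hx => (show x ∈ P f from interior_subset hx)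
  have hfV : ∀ x ∈ I, f x = Real.exp (-V x) := fun x hx => by
    rw [hV]; simp only; rw [neg_neg, Real.exp_log (hpos x hx)]
  have hIab : Icc (a' + ε) (b' - ε) ⊆ Icc a' b' := Icc_subset_Icc (by linarith) (by linarith)
  have hge : ∀ x ∈ Icc (a' + ε) (b' - ε), V x ≤ W x := by
    intro x hx
    have c1 : Continuous fun s : ℝ => U (x + s) := hUc.comp (by fun_prop)
    have c2 : Continuous fun s : ℝ => U (x - s) := hUc.comp (by fun_prop)
    have e1 : ∫ t in (x - ε)..(x + ε), U t = ∫ s in (0 : ℝ)..ε, (U (x + s) + U (x - s)) := by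
      rw [intervalIntegral.integral_add (c1.intervalIntegrable _ _) (c2.intervalIntegrable _ _),
        intervalIntegral.integral_comp_add_left, intervalIntegral.integral_comp_sub_left, add_zero, sub_zero]
      have := intervalIntegral.integral_add_adjacent_intervals (hUc.intervalIntegrable (μ := volume) (x - ε) x)
        (hUc.intervalIntegrable x (x + ε))
      linarith
    have e2 : ∫ s in (0 : ℝ)..ε, (2 * V x) ≤ ∫ s in (0 : ℝ)..ε, (U (x + s) + U (x - s)) := by
      refine intervalIntegral.integral_mono_on hε0.le intervalIntegrable_const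
        ((c1.add c2).intervalIntegrable _ _) fun s hs => ?_
      have m1 : x + s ∈ Icc a' b' := ⟨by linarith [hx.1, hs.1], by linarith [hx.2, hs.2]⟩
      have m2 : x - s ∈ Icc a' b' := ⟨by linarith [hx.1, hs.2], by linarith [hx.2, hs.1]⟩
      rw [hUV _ m1, hUV _ m2]
      have := hVcI.2 m1 m2 (show (0 : ℝ) ≤ 1 / 2 by norm_num) (show (0 : ℝ) ≤ 1 / 2 by norm_num) (by norm_num)
      simp only [smul_eq_mul] at this
      have e3 : 1 / 2 * (x + s) + 1 / 2 * (x - s) = x := by ring
      rw [e3] at this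
      linarith
    rw [intervalIntegral.integral_const, smul_eq_mul, sub_zero, ← e1, ← hint x] at e2
    rw [hW]
    simp only
    rw [le_div_iff₀ (by linarith)]
    linarith
  refine ⟨a' + ε, b' - ε, F, hsmo, Icc_subset_Icc (by rw [ha']; linarith) (by rw [hb']; linarith),
    hIab.trans hII, fun x hx => ?_, fun x hx => ?_, fun he hpq' => ?_⟩
  · rw [hfV x (hII (hIab hx))]
    exact Real.exp_le_exp.2 (neg_le_neg (hge x hx))
  · have hxI' : x ∈ Icc a' b' := ⟨by rw [ha']; linarith [hx.1], by rw [hb']; linarith [hx.2]⟩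
    have h1 : |W x - U x| ≤ η' := by
      refine havg x (U x) η' fun t ht => ?_
      rw [uIoc_of_le (by linarith)] at ht
      rw [Real.norm_eq_abs]
      refine hUuc t x (lt_of_le_of_lt ?_ hεε)
      rw [abs_le]
      constructor <;> linarith [ht.1, ht.2]
    rw [hUV x hxI'] at h1
    have h2 : f x = Real.exp (-V x) := hfV x (hII hxI')
    have h3 : f x ≤ Real.exp K := by
      rw [h2]
      refine Real.exp_le_exp.2 ?_
      have := hK x hxI'
      rw [Real.norm_eq_abs] at this
      linarith [neg_abs_le (V x)]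
    have h4 : f x * (1 - η') ≤ F x := by
      rw [hF]
      simp only
      calc f x * (1 - η') ≤ f x * Real.exp (-η') :=
            mul_le_mul_of_nonneg_left (by linarith [Real.add_one_le_exp (-η')]) (hf.nonneg x)
        _ = Real.exp (-V x + -η') := by rw [h2, Real.exp_add]
        _ ≤ Real.exp (-W x) := Real.exp_le_exp.2 (by linarith [(abs_le.1 h1).2])
    have h5 : f x * η' ≤ η := by
      calc f x * η' ≤ (Real.exp K + 1) * η' := mul_le_mul_of_nonneg_right (by linarith) hη'0.le
        _ = η := by rw [hη']; field_simp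
    linarith
  · have hq0 : 0 < q := by linarith
    have hab : a' = -b' := by rw [ha', hb', hpq']; ring
    have hUe : ∀ x, U (-x) = U x := by
      intro x
      rw [hU, hV]
      simp only
      rw [hab, cl_neg (by rw [hb']; linarith) x, he]
    have hΦe : ∀ x, Φ (-x) = -Φ x := by
      intro x
      rw [hΦ]
      simp only
      have h1 := intervalIntegral.integral_comp_neg (a := 0) (b := x) U
      rw [neg_zero] at h1
      simp only [hUe] at h1
      rw [h1, intervalIntegral.integral_symm (-x) 0]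
    refine ⟨fun x => ?_, by rw [hab]; ring⟩
    rw [hF, hW]
    simp only
    rw [show -x + ε = -(x - ε) by ring, show -x - ε = -(x + ε) by ring, hΦe, hΦe]
    congr 3
    ring

end APX

open APX in
theorem t_APX : S_APX := by
  intro f hf
  have hIo : IsOpen (interior (P f)) := isOpen_interior
  have hIc : Convex ℝ (interior (P f)) := (conv hf).interior
  have hex : ∃ p q : ℕ → ℝ, (∀ j, p j < q j ∧ Icc (p j) (q j) ⊆ interior (P f)) ∧
      (∀ x ∈ interior (P f), ∀ᶠ j in atTop, x ∈ Icc (p j) (q j)) ∧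
      ((∀ x, f (-x) = f x) → ∀ j, p j = -q j) := by
    by_cases he : ∀ x, f (-x) = f x
    · have hs : ∀ x ∈ interior (P f), -x ∈ interior (P f) := by
        have h1 : -(P f) = P f := by
          ext x
          show 0 < f (-x) ↔ 0 < f x
          rw [he]
        intro x hx
        have h2 : interior (-(P f)) = -interior (P f) := (Homeomorph.neg ℝ).preimage_interior (P f) |>.symm
        rw [h1] at h2
        rw [h2] at hx
        exact hx
      obtain ⟨p, q, h1, h2, h3⟩ := exhaust_even hIo hIc (nonempty_interior hf) hs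
      exact ⟨p, q, h1, h2, fun _ => h3⟩
    · obtain ⟨p, q, h1, h2⟩ := exhaust hIo hIc (nonempty_interior hf)
      exact ⟨p, q, h1, h2, fun h => absurd h he⟩
  obtain ⟨p, q, h1, h2, h3⟩ := hex
  choose a b F hsmo hpq hab hle hcl hev using fun j : ℕ =>
    step hf (h1 j).1 (h1 j).2 (show (0 : ℝ) < 1 / ((j : ℝ) + 1) by positivity)
  refine ⟨a, b, F, hsmo, hle, ?_, fun he => ⟨fun j => (hev j he (h3 he j)).1, fun j => (hev j he (h3 he j)).2⟩⟩
  have hfr : ∀ᵐ x : ℝ, x ∉ frontier (P f) := by
    rw [ae_iff]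
    simp only [not_not, Set.ofPred_mem_eq]
    exact (conv hf).addHaar_frontier volume
  filter_upwards [hfr] with x hx
  by_cases hxI : x ∈ interior (P f)
  · have hlim : Tendsto (fun j : ℕ => f x - 1 / ((j : ℝ) + 1)) atTop (𝓝 (f x)) := by
      have := (tendsto_const_nhds (x := f x)).sub (tendsto_one_div_add_atTop_nhds_zero_nat (𝕜 := ℝ))
      simpa using this
    refine tendsto_of_tendsto_of_tendsto_of_le_of_le' hlim tendsto_const_nhds ?_ ?_
    · filter_upwards [h2 x hxI] with j hj
      rw [indicator_of_mem (hpq j hj)]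
      linarith [hcl j x hj]
    · filter_upwards [h2 x hxI] with j hj
      rw [indicator_of_mem (hpq j hj)]
      exact hle j x (hpq j hj)
  · have hxP : x ∉ P f := fun hmem => hx ⟨subset_closure hmem, hxI⟩
    have hf0 : f x = 0 := le_antisymm (not_lt.1 hxP) (hf.nonneg x)
    rw [hf0]
    refine tendsto_const_nhds.congr fun j => ?_
    rw [indicator_of_notMem]
    exact fun hmem => hxI (hab j hmem)

end Pool.Agent.T2h31.LC
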