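import Pool.Agent.T2h31.LC.Stm

/-!
COW: eigenvalues of nonconstant eigenfunctions are at least one, for a general position function `W`.
-/

set_option autoImplicit false

namespace Pool.Agent.T2h31.LC.COW

open Pool.Agent.T2h31.SB (Lb sv sg mv sm cfg SK)

theorem odd_ne {i : ℤ} (h : Odd i) : i ≠ 0 := by
  rintro rfl
  exact absurd h (by decide)

theorem mv_mv {n : ℕ} (hS : Pool.Agent.T2h31.SB.S_SGB) {i j : ℤ} (hi : Odd i) (hj : Odd j)
    (g : Fin n → ℤ) : mv i j (mv i j g) = g := by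
  funext a
  exact hS.2.1 i j (g a) (odd_ne hi) (odd_ne hj)

/-- `W` is increasing on the odd positions in the range -/
theorem W_lt {N : ℕ} {W : ℤ → ℝ} {c : ℕ → ℝ} (hW : WB N W c) {a : ℤ} (ha : Odd a)
    (h1 : -(2 * (N : ℤ)) < a) (m : ℕ) :
    a + 2 * ((m : ℤ) + 1) < 2 * (N : ℤ) → W a < W (a + 2 * ((m : ℤ) + 1)) := by
  induction m with
  | zero =>
    intro h2
    have := hW.mono a ha h1 (by simpa using h2)
    simpa using this
  | succ m ih =>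
    intro h2
    push_cast at h2
    have h3 := ih (by omega)
    have h4 : Odd (a + 2 * ((m : ℤ) + 1)) := by
      obtain ⟨b, hb⟩ := ha
      exact ⟨b + (m + 1), by rw [hb]; ring⟩
    have h5 := hW.mono (a + 2 * ((m : ℤ) + 1)) h4 (by omega) (by omega)
    push_cast
    rw [show a + 2 * ((m : ℤ) + 1) + 2 = a + 2 * ((m : ℤ) + 1 + 1) by ring] at h5
    exact h3.trans h5

theorem W_mono {N : ℕ} {W : ℤ → ℝ} {c : ℕ → ℝ} (hW : WB N W c) {a b : ℤ} (ha : Odd a) (hb : Odd b)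
    (h1 : -(2 * (N : ℤ)) < a) (hab : a < b) (h2 : b < 2 * (N : ℤ)) : W a < W b := by
  obtain ⟨x, hx⟩ := ha
  obtain ⟨y, hy⟩ := hb
  obtain ⟨m, hm⟩ : ∃ m : ℕ, b = a + 2 * ((m : ℤ) + 1) := by
    refine ⟨(y - x - 1).toNat, ?_⟩
    rw [Int.toNat_of_nonneg (by omega)]
    omega
  have := W_lt hW ⟨x, hx⟩ h1 m (by omega)
  rwa [← hm] at this

end Pool.Agent.T2h31.LC.COW

namespace Pool.Agent.T2h31.LC

open Pool.Agent.T2h31.SB (Lb sv sg mv sm cfg SK)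
open COW in
theorem t_COW (hPT : S_PTW) (hS : Pool.Agent.T2h31.SB.S_SGB) : S_COW := by
  classical
  intro n N R W c lam F hW heig hne
  set T : Finset ((Fin n → ℤ) × ℤ × ℤ) :=
    (cfg N R ×ˢ (Finset.Ioo (-(2 * (N : ℤ))) (2 * (N : ℤ)) ×ˢ
      Finset.Ioo (-(2 * (N : ℤ))) (2 * (N : ℤ)))).filter
    fun x => Odd x.2.1 ∧ Odd x.2.2 ∧ x.2.1 < x.2.2 ∧ mv x.2.1 x.2.2 x.1 ∈ cfg N R with hT
  have memT : ∀ g i j, (g, i, j) ∈ T ↔ g ∈ cfg N R ∧ Odd i ∧ Odd j ∧ -(2 * (N : ℤ)) < i ∧ i < j ∧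
      j < 2 * (N : ℤ) ∧ mv i j g ∈ cfg N R := by
    intro g i j
    simp only [hT, Finset.mem_filter, Finset.mem_product, Finset.mem_Ioo]
    constructor
    · rintro ⟨⟨h1, ⟨h2, h3⟩, h4, h5⟩, h6, h7, h8, h9⟩
      exact ⟨h1, h6, h7, h2, h8, h5, h9⟩
    · rintro ⟨h1, h2, h3, h4, h5, h6, h7⟩
      exact ⟨⟨h1, ⟨h4, by omega⟩, by omega, h6⟩, h2, h3, h5, h7⟩
  obtain ⟨g0, hg0, k0, hk0, hm0, hF0⟩ := hne
  have o1 : Odd (2 * (k0 : ℤ) - 1) := ⟨(k0 : ℤ) - 1, by ring⟩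
  have o2 : Odd (2 * (k0 : ℤ) + 1) := ⟨(k0 : ℤ), by ring⟩
  have h0T : (g0, 2 * (k0 : ℤ) - 1, 2 * (k0 : ℤ) + 1) ∈ T :=
    (memT _ _ _).2 ⟨hg0, o1, o2, by omega, by omega, by omega, hm0⟩
  obtain ⟨⟨s0, i, j⟩, hsT, hmax⟩ := Finset.exists_max_image T
    (fun x => |F (mv x.2.1 x.2.2 x.1) - F x.1| / (W x.2.2 - W x.2.1)) ⟨_, h0T⟩
  obtain ⟨hs0, hi, hj, hiN, hij, hjN, ht0⟩ := (memT _ _ _).1 hsT
  set M : ℝ := |F (mv i j s0) - F s0| / (W j - W i) with hM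
  have hWij : 0 < W j - W i := sub_pos.2 (W_mono hW hi hj hiN hij hjN)
  have hMpos : 0 < M := by
    have h1 := hmax _ h0T
    have h2 : 0 < |F (mv (2 * (k0 : ℤ) - 1) (2 * (k0 : ℤ) + 1) g0) - F g0| /
        (W (2 * (k0 : ℤ) + 1) - W (2 * (k0 : ℤ) - 1)) :=
      div_pos (abs_pos.2 (sub_ne_zero.2 hF0))
        (sub_pos.2 (W_mono hW o1 o2 (by omega) (by omega) (by omega)))
    exact lt_of_lt_of_le h2 h1
  have hLip : Lpc N W R F M := by
    intro g hg i' j' hi' hj' hiN' hij' hjN' hm'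
    have h1 := hmax _ ((memT g i' j').2 ⟨hg, hi', hj', hiN', hij', hjN', hm'⟩)
    exact (div_le_iff₀ (sub_pos.2 (W_mono hW hi' hj' hiN' hij' hjN'))).1 h1
  have hD0 : |F (mv i j s0) - F s0| = M * (W j - W i) := by
    rw [hM, div_mul_cancel₀ _ hWij.ne']
  obtain ⟨s, hs, ht, hD⟩ : ∃ s ∈ cfg N R, mv i j s ∈ cfg N R ∧
      F (mv i j s) - F s = M * (W j - W i) := by
    rcases le_total 0 (F (mv i j s0) - F s0) with hc | hc
    · exact ⟨s0, hs0, ht0, by rw [← hD0, abs_of_nonneg hc]⟩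
    · refine ⟨mv i j s0, ht0, by rwa [mv_mv hS hi hj], ?_⟩
      rw [mv_mv hS hi hj, ← hD0, abs_of_nonpos hc]
      ring
  have hsum : LLc N c R F (mv i j s) - LLc N c R F s ≤ ∑ k ∈ Finset.range N, M * (c k *
      ((W (sg (2 * (k : ℤ) - 1) (2 * (k : ℤ) + 1) j) - W j) -
      (W (sg (2 * (k : ℤ) - 1) (2 * (k : ℤ) + 1) i) - W i))) := by
    unfold LLc
    rw [← Finset.sum_sub_distrib]
    refine Finset.sum_le_sum fun k hk => ?_
    exact hPT n N R W c F M hW hMpos.le hLip s hs i j hi hj hiN hij hjN ht hD k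
      (Finset.mem_range.1 hk)
  have hrhs : ∑ k ∈ Finset.range N, M * (c k *
      ((W (sg (2 * (k : ℤ) - 1) (2 * (k : ℤ) + 1) j) - W j) -
      (W (sg (2 * (k : ℤ) - 1) (2 * (k : ℤ) + 1) i) - W i))) = M * (-W j - -W i) := by
    rw [← hW.eq j hj (by omega) hjN, ← hW.eq i hi hiN (by omega), ← Finset.sum_sub_distrib,
      Finset.mul_sum]
    refine Finset.sum_congr rfl fun k _ => ?_
    ring
  rw [hrhs, heig _ ht, heig _ hs] at hsum
  have hDpos : 0 < M * (W j - W i) := mul_pos hMpos hWij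
  have h3 : -lam * (M * (W j - W i)) ≤ -1 * (M * (W j - W i)) := by
    rw [← hD]
    have h4 : M * (-W j - -W i) = -(F (mv i j s) - F s) := by rw [hD]; ring
    rw [h4] at hsum
    linarith
  have h5 := le_of_mul_le_mul_right h3 hDpos
  linarith

end Pool.Agent.T2h31.LC
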