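import Pool.Agent.T2h31.LC.Stm

set_option autoImplicit false

namespace Pool.Agent.T2h31.LC

open MeasureTheory Set Filter Topology

theorem t_CVQ : S_CVQ := by
  intro n q hq hmono hpos S hS G
  have hd : Differentiable ℝ q := hq.differentiable one_ne_zero
  set D : (Fin n → ℝ) → ((Fin n → ℝ) →L[ℝ] (Fin n → ℝ)) := fun u =>
    ContinuousLinearMap.pi fun i => (deriv q (u i)) • ContinuousLinearMap.proj (R := ℝ) i with hD
  have hfd : ∀ u, HasFDerivAt (fun u : Fin n → ℝ => fun i => q (u i)) (D u) u := by
    intro u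
    rw [hasFDerivAt_pi]
    intro i
    have h1 : HasDerivAt q (deriv q (u i)) (u i) := (hd _).hasDerivAt
    exact h1.comp_hasFDerivAt u (hasFDerivAt_apply i u)
  have hdet : ∀ u, (D u).det = ∏ i, deriv q (u i) := by
    intro u
    have h1 : ((D u : (Fin n → ℝ) →L[ℝ] (Fin n → ℝ)) : (Fin n → ℝ) →ₗ[ℝ] (Fin n → ℝ)) =
        Matrix.toLin' (Matrix.diagonal fun i => deriv q (u i)) := by
      apply LinearMap.ext
      intro v
      funext i
      rw [Matrix.toLin'_apply, Matrix.mulVec_diagonal]
      rfl
    rw [ContinuousLinearMap.det, h1, LinearMap.det_toLin', Matrix.det_diagonal]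
  have hinj : Function.Injective (fun u : Fin n → ℝ => fun i => q (u i)) := by
    intro u v h
    funext i
    exact hmono.injective (congrFun h i)
  rw [integral_image_eq_integral_abs_det_fderiv_smul volume hS
    (fun u _ => (hfd u).hasFDerivWithinAt) hinj.injOn]
  refine setIntegral_congr_fun hS fun u _ => ?_
  show |(D u).det| • G (fun i => q (u i)) = _
  rw [hdet, abs_of_nonneg (Finset.prod_nonneg fun i _ => (hpos _).le), smul_eq_mul, mul_comm]

end Pool.Agent.T2h31.LC
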