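import Pool.Agent.T2h31.LC.Stm
import Pool.Agent.T2h31.SB.T_DIV

/-! (DVW) integration by parts with a vector field whose flow preserves the bodies, for sums of functions of one
coordinate. -/

set_option autoImplicit false

namespace Pool.Agent.T2h31.LC

open MeasureTheory Set Filter Topology Pool.Agent.T2h31.SB

namespace DVW

open Pool.Agent.T2h31.SB.DIV

variable {n : ℕ}

/-- the integrand -/
noncomputable def FF (u : Fin n → ℝ) (q : ℝ → ℝ) (t : ℝ) (x : Fin n → ℝ) : ℝ :=
  (∑ i, u i * q (ph t (x i))) * ∏ i, (1 + t * (1 - 3 * x i ^ 2))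

/-- its derivative -/
noncomputable def FD (u : Fin n → ℝ) (q : ℝ → ℝ) (t : ℝ) (x : Fin n → ℝ) : ℝ :=
  (∑ i, u i * (deriv q (ph t (x i)) * (x i - x i ^ 3))) * ∏ i, (1 + t * (1 - 3 * x i ^ 2)) +
    (∑ i, u i * q (ph t (x i))) *
      ∑ i, (∏ j ∈ Finset.univ.erase i, (1 + t * (1 - 3 * x j ^ 2))) * (1 - 3 * x i ^ 2)

theorem FF_deriv (u : Fin n → ℝ) {q : ℝ → ℝ} (hq : ContDiff ℝ 2 q) (t : ℝ) (x : Fin n → ℝ) :
    HasDerivAt (fun t => FF u q t x) (FD u q t x) t := by
  have hd : Differentiable ℝ q := hq.differentiable (by norm_num)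
  unfold FF FD
  refine HasDerivAt.mul ?_ ?_
  · refine HasDerivAt.fun_sum fun i _ => ?_
    refine HasDerivAt.const_mul (u i) ?_
    have h : HasDerivAt (fun t => ph t (x i)) (x i - x i ^ 3) t := by
      unfold ph
      have h := ((hasDerivAt_id' t).mul_const (x i - x i ^ 3)).const_add (x i)
      rwa [one_mul] at h
    exact (hd (ph t (x i))).hasDerivAt.comp t h
  · have h := HasDerivAt.fun_finsetProd (u := Finset.univ)
      (f := fun (i : Fin n) (t : ℝ) => 1 + t * (1 - 3 * x i ^ 2))
      (f' := fun i => 1 - 3 * x i ^ 2) (x := t) (fun i _ => by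
        have h := ((hasDerivAt_id' t).mul_const (1 - 3 * x i ^ 2)).const_add 1
        rwa [one_mul] at h)
    exact h

theorem FF_cont (u : Fin n → ℝ) {q : ℝ → ℝ} (hq : ContDiff ℝ 2 q) :
    Continuous fun p : ℝ × (Fin n → ℝ) => FF u q p.1 p.2 := by
  have hc : Continuous q := hq.continuous
  unfold FF ph
  fun_prop

theorem FD_cont (u : Fin n → ℝ) {q : ℝ → ℝ} (hq : ContDiff ℝ 2 q) :
    Continuous fun p : ℝ × (Fin n → ℝ) => FD u q p.1 p.2 := by
  have hc : Continuous q := hq.continuous
  have hc' : Continuous (deriv q) := hq.continuous_deriv (by norm_num)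
  unfold FD ph
  fun_prop

theorem main (R : Lb n → Lb n → Prop) (u : Fin n → ℝ) {q : ℝ → ℝ} (hq : ContDiff ℝ 2 q) :
    ∫ x in SK R, (∑ i, u i * (deriv q (x i) * (x i - x i ^ 3)) +
      (∑ i, u i * q (x i)) * ∑ i, (1 - 3 * x i ^ 2)) = 0 := by
  have hK := isCompact_SK R
  have hm := (isClosed_SK R).measurableSet
  obtain ⟨C, hC⟩ := ((isCompact_Icc (a := (-1 : ℝ)) (b := 1)).prod hK).exists_bound_of_continuousOn
    (FD_cont u hq).continuousOn
  have hs : Set.Icc (-1 : ℝ) 1 ∈ 𝓝 (0 : ℝ) := Icc_mem_nhds (by norm_num) (by norm_num)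
  haveI : IsFiniteMeasure (volume.restrict (SK R)) := ⟨by
    rw [Measure.restrict_apply_univ]; exact hK.measure_lt_top⟩
  have hc : ∀ t, Continuous (FF u q t) := fun t =>
    (FF_cont u hq).comp (continuous_const.prodMk continuous_id)
  have hc' : ∀ t, Continuous (FD u q t) := fun t =>
    (FD_cont u hq).comp (continuous_const.prodMk continuous_id)
  have h := hasDerivAt_integral_of_dominated_loc_of_deriv_le (μ := volume.restrict (SK R))
    (F := FF u q) (F' := FD u q) (x₀ := 0) (bound := fun _ => C) hs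
    (Eventually.of_forall fun t => (hc t).aestronglyMeasurable)
    ((hc 0).continuousOn.integrableOn_compact hK) (hc' 0).aestronglyMeasurable
    ((ae_restrict_iff' hm).2 (Eventually.of_forall fun x hx t ht => hC (t, x) ⟨ht, hx⟩))
    (integrable_const C)
    (Eventually.of_forall fun x t _ => FF_deriv u hq t x)
  have h2 : (fun t => ∫ x in SK R, FF u q t x) =ᶠ[𝓝 0] fun _ => ∫ x in SK R, (∑ i, u i * q (x i)) := by
    have : Set.Ioo (-(1 / 4) : ℝ) (1 / 4) ∈ 𝓝 (0 : ℝ) := Ioo_mem_nhds (by norm_num) (by norm_num)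
    filter_upwards [this] with t ht
    exact change (abs_lt.2 ht) R fun x => ∑ i, u i * q (x i)
  have h3 := (h.2.congr_of_eventuallyEq h2.symm).unique (hasDerivAt_const 0 _)
  rw [← h3]
  refine setIntegral_congr_fun hm fun x _ => ?_
  unfold FD ph
  simp

end DVW

open DVW Pool.Agent.T2h31.SB.DIV

theorem t_DVW : S_DVW := by
  intro n R u q hq
  have hK := isCompact_SK R
  have hc : Continuous q := hq.continuous
  have hc' : Continuous (deriv q) := hq.continuous_deriv (by norm_num)
  have h := DVW.main R u hq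
  rw [integral_add] at h
  · have h2 : ∫ x in SK R, (∑ i, u i * q (x i)) * ∑ i, (1 - 3 * x i ^ 2) =
        -∫ x in SK R, (∑ i, u i * q (x i)) * ∑ i, (3 * x i ^ 2 - 1) := by
      rw [← integral_neg]
      congr 1
      funext x
      rw [← mul_neg, ← Finset.sum_neg_distrib]
      simp only [neg_sub]
    rw [h2] at h
    linarith
  · exact (Continuous.continuousOn (by fun_prop)).integrableOn_compact hK
  · exact (Continuous.continuousOn (by fun_prop)).integrableOn_compact hK

end Pool.Agent.T2h31.LC
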