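import Pool.Agent.T2h31.LC.Stm

set_option autoImplicit false

namespace Pool.Agent.T2h31.LC

namespace FSB

open MeasureTheory Set
open Pool.Agent.T2h31.SB (Lb sv SK)

/-- the integral of a positive function is injective in the upper limit -/
theorem inj {f : ℝ → ℝ} (hf : Continuous f) (hp : ∀ x, 0 < f x) {c x y : ℝ}
    (h : ∫ t in c..x, f t = ∫ t in c..y, f t) : x = y := by
  have key : ∀ {x y : ℝ}, x < y → ∫ t in c..x, f t < ∫ t in c..y, f t := by
    intro x y hxy
    have h1 := intervalIntegral.integral_add_adjacent_intervals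
      (hf.intervalIntegrable c x) (hf.intervalIntegrable (μ := volume) x y)
    have h2 : 0 < ∫ t in x..y, f t :=
      intervalIntegral.intervalIntegral_pos_of_pos (hf.intervalIntegrable x y) hp hxy
    linarith
  rcases lt_trichotomy x y with h1 | h1 | h1
  · exact absurd h (key h1).ne
  · exact h1
  · exact absurd h (key h1).ne'

theorem sv_cont {n : ℕ} (p : Lb n) : Continuous fun x : Fin n → ℝ => sv x p := by
  unfold sv
  split_ifs
  · exact continuous_apply _
  · exact (continuous_apply _).neg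

theorem meas {n : ℕ} (b : ℝ) (R : Lb n → Lb n → Prop) : MeasurableSet (KB b R) := by
  have h : KB b R = (⋂ i, {x : Fin n → ℝ | -b ≤ x i} ∩ {x | x i ≤ b}) ∩
      ⋂ p, ⋂ q, ⋂ (_ : R p q), {x : Fin n → ℝ | sv x p ≤ sv x q} := by
    ext x
    simp only [KB, mem_ofPred_eq, mem_inter_iff, mem_iInter]
  rw [h]
  refine MeasurableSet.inter (MeasurableSet.iInter fun i => MeasurableSet.inter ?_ ?_)
    (MeasurableSet.iInter fun i => MeasurableSet.iInter fun j => MeasurableSet.iInter fun _ => ?_)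
  · exact measurableSet_le measurable_const (measurable_pi_apply i)
  · exact measurableSet_le (measurable_pi_apply i) measurable_const
  · exact measurableSet_le (sv_cont i).measurable (sv_cont j).measurable

theorem SK_eq {n : ℕ} (R : Lb n → Lb n → Prop) : SK R = KB 1 R := rfl

/-- odd functions and signed labels -/
theorem sv_map {n : ℕ} {q : ℝ → ℝ} (hodd : ∀ s, q (-s) = -q s) (u : Fin n → ℝ) (p : Lb n) :
    sv (fun i => q (u i)) p = q (sv u p) := by
  unfold sv
  split_ifs
  · rfl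
  · exact (hodd _).symm

/-- the image of the body of type B -/
theorem image {n : ℕ} (R : Lb n → Lb n → Prop) {q : ℝ → ℝ} (hq : StrictMono q)
    (hc : Continuous q) (hodd : ∀ s, q (-s) = -q s) {b : ℝ} (h1 : q 1 = b) :
    (fun u : Fin n → ℝ => fun i => q (u i)) '' SK R = KB b R := by
  have h0 : q (-1) = -b := by rw [hodd, h1]
  ext x
  constructor
  · rintro ⟨u, ⟨hu1, hu2⟩, rfl⟩
    refine ⟨fun i => ⟨?_, ?_⟩, fun i j hij => ?_⟩
    · rw [← h0]
      exact hq.monotone (hu1 i).1
    · rw [← h1]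
      exact hq.monotone (hu1 i).2
    · rw [sv_map hodd, sv_map hodd]
      exact hq.monotone (hu2 i j hij)
  · rintro ⟨hx1, hx2⟩
    have h2 : ∀ i, ∃ s, s ∈ Icc (-1 : ℝ) 1 ∧ q s = x i := by
      intro i
      have h3 : x i ∈ Icc (q (-1)) (q 1) := by
        rw [h0, h1]
        exact hx1 i
      exact intermediate_value_Icc (by norm_num) hc.continuousOn h3
    choose u hu hu' using h2
    have hux : (fun i => q (u i)) = x := funext hu'
    refine ⟨u, ⟨fun i => hu i, fun i j hij => ?_⟩, hux⟩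
    have h3 := hx2 i j hij
    rw [← hux, sv_map hodd, sv_map hodd] at h3
    exact hq.le_iff_le.1 h3

/-- the integral with the product density -/
theorem chg (hC : S_CVQ) {n : ℕ} {S : Set (Fin n → ℝ)} (hS : MeasurableSet S) {f q : ℝ → ℝ} {κ : ℝ}
    (hκ : 0 < κ) (hp : ∀ x, 0 < f x) (hq : ContDiff ℝ 2 q) (hm : StrictMono q)
    (hd : ∀ s, deriv q s = κ / f (q s)) (G : (Fin n → ℝ) → ℝ) :
    ∫ x in (fun u : Fin n → ℝ => fun i => q (u i)) '' S, G x * pp f x =
      κ ^ n * ∫ u in S, G (fun i => q (u i)) := by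
  rw [hC n q (hq.of_le (by norm_num)) hm (fun s => by rw [hd]; exact div_pos hκ (hp _)) S hS
    (fun x => G x * pp f x), ← integral_const_mul]
  refine integral_congr_ae (Filter.Eventually.of_forall fun u => ?_)
  show G (fun i => q (u i)) * pp f (fun i => q (u i)) * ∏ i, deriv q (u i) =
    κ ^ n * G (fun i => q (u i))
  have h1 : pp f (fun i => q (u i)) * ∏ i, deriv q (u i) = κ ^ n := by
    unfold pp
    rw [← Finset.prod_mul_distrib]
    have h2 : ∀ i : Fin n, f (q (u i)) * deriv q (u i) = κ := by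
      intro i
      rw [hd]
      exact mul_div_cancel₀ _ (hp _).ne'
    rw [Finset.prod_congr rfl fun i _ => h2 i, Finset.prod_const, Finset.card_univ, Fintype.card_fin]
  rw [mul_assoc, h1, mul_comm]

/-- integrals with the indicator -/
theorem ind {n : ℕ} {K : Set (Fin n → ℝ)} (hK : MeasurableSet K) (h G : (Fin n → ℝ) → ℝ) :
    ∫ x, G x * K.indicator h x = ∫ x in K, G x * h x := by
  rw [← integral_indicator hK]
  refine integral_congr_ae (Filter.Eventually.of_forall fun x => ?_)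
  by_cases hx : x ∈ K
  · simp [hx]
  · simp [hx]

end FSB

open FSB MeasureTheory Set in
open Pool.Agent.T2h31.SB (Lb sv SK) in
theorem t_FSB (hS : S_SMB) (hV : S_VAW) (hO : S_ONE) (hQ : S_QEX) (hC : S_CVQ) : S_FSB := by
  intro n R hn hR f b hf hev s hs g hg _ _
  obtain ⟨m, hm, hmf⟩ := hf.low
  have hp : ∀ x, 0 < f x := fun x => lt_of_lt_of_le hm (hmf x)
  have hfc : Continuous f := hf.smooth.continuous
  have hb : -b < b := hf.lt
  have hb0 : 0 < b := by linarith
  have hK := meas b R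
  have e0 : ∫ x, (KB b R).indicator (pp f) x = ∫ x in KB b R, pp f x := integral_indicator hK
  have e1 := ind hK (pp f)
  rw [e0, e1, e1, e1]
  have hs' : ∀ θ : Fin n → ℝ, ∑ i, θ i ^ 2 = 1 →
      (∫ x in KB b R, pp f x) * (∫ x in KB b R, (∑ i, θ i * x i) ^ 2 * pp f x) -
        (∫ x in KB b R, (∑ i, θ i * x i) * pp f x) ^ 2 ≤ s * (∫ x in KB b R, pp f x) ^ 2 := by
    intro θ hθ
    have h1 := hs θ hθ
    rw [e0, e1, e1] at h1
    exact h1
  -- the maximum
  obtain ⟨y, hy, hmax⟩ := isCompact_Icc.exists_isMaxOn (nonempty_Icc.2 hb.le)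
    (hfc.continuousOn (s := Icc (-b) b))
  have hmax' : ∀ x ∈ Icc (-b) b, f x ≤ f y := fun x hx => hmax hx
  have hsm := hS n R hR f b hf hev g hg y hy
  obtain ⟨Z, hZ⟩ : ∃ Z, Z = ∫ t in (-b)..b, f t := ⟨_, rfl⟩
  rw [← hZ] at hsm
  have hZ0 : 0 < Z := by
    rw [hZ]
    exact intervalIntegral.intervalIntegral_pos_of_pos (hfc.intervalIntegrable (-b) b) hp hb
  have hppn : ∀ x : Fin n → ℝ, 0 ≤ pp f x := fun x => Finset.prod_nonneg fun i _ => (hp _).le
  obtain ⟨I, hI⟩ : ∃ I, I = ∫ x in KB b R, pp f x := ⟨_, rfl⟩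
  rw [← hI] at hsm ⊢
  have hI0 : 0 ≤ I := by
    rw [hI]
    exact setIntegral_nonneg hK fun x _ => hppn x
  obtain ⟨J, hJ⟩ : ∃ J, J = ∫ x in KB b R, (∑ i, pd g i x ^ 2) * pp f x := ⟨_, rfl⟩
  rw [← hJ] at hsm ⊢
  have hJ0 : 0 ≤ J := by
    rw [hJ]
    exact setIntegral_nonneg hK fun x _ => mul_nonneg (Finset.sum_nonneg fun i _ => sq_nonneg _) (hppn x)
  refine hsm.trans ?_
  rcases hI0.eq_or_lt with h0 | h0
  · rw [← h0]
    simp
  refine mul_le_mul_of_nonneg_right ?_ (mul_nonneg hI0 hJ0)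
  -- the parametrisation
  have hev1 : ∀ x, ∫ t in (0 : ℝ)..(-x), f t = -∫ t in (0 : ℝ)..x, f t := by
    intro x
    have h1 := intervalIntegral.integral_comp_neg (a := -x) (b := 0) f
    rw [neg_zero, neg_neg] at h1
    rw [← h1, intervalIntegral.integral_symm (-x) 0]
    congr 1
    exact intervalIntegral.integral_congr fun t _ => (hev t).symm
  have hhalf : Z / 2 = ∫ t in (0 : ℝ)..b, f t := by
    have h1 := intervalIntegral.integral_add_adjacent_intervals
      (hfc.intervalIntegrable (-b) 0) (hfc.intervalIntegrable (μ := volume) 0 b)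
    have h2 := hev1 b
    rw [intervalIntegral.integral_symm] at h2
    rw [hZ, ← h1]
    linarith
  obtain ⟨κ, hκ⟩ : ∃ κ, κ = Z / 2 := ⟨_, rfl⟩
  have hκ0 : 0 < κ := by rw [hκ]; linarith
  obtain ⟨q, hq, hqm, hq0, hqd, hqi⟩ := hQ f κ 0 hf.smooth hf.low hκ0
  have hq1 : q 1 = b := by
    have h1 := hqi 1
    rw [mul_one, hκ, hhalf] at h1
    exact (inj hfc hp h1).symm
  have hodd : ∀ t, q (-t) = -q t := by
    intro t
    have h1 := hqi (-t)
    have h2 := hqi t
    have h3 := hev1 (q t)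
    refine inj hfc hp (c := 0) ?_
    rw [h3, ← h1, ← h2]
    ring
  have hqc : Continuous q := hq.continuous
  have hint : ∀ G : (Fin n → ℝ) → ℝ, ∫ x in KB b R, G x * pp f x =
      κ ^ n * ∫ u in SK R, G (fun i => q (u i)) := by
    intro G
    rw [← image R hqm hqc hodd hq1]
    exact chg hC (by rw [SK_eq]; exact meas 1 R) hκ0 hp hq hqm hqd G
  have hI1 : I = κ ^ n * (volume (SK R)).toReal := by
    have h1 := hint fun _ => 1
    simp only [one_mul, integral_const, smul_eq_mul, mul_one] at h1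
    rw [hI, h1, measureReal_restrict_apply_univ]
    rfl
  have hκn : 0 < κ ^ n := pow_pos hκ0 n
  have hvol : 0 < (volume (SK R)).toReal := by
    rw [hI1] at h0
    exact (pos_iff_pos_of_mul_pos h0).1 hκn
  have hvol' : 0 < volume (SK R) := (ENNReal.toReal_pos_iff.1 hvol).1
  have hrange : ∀ t ∈ Icc (-1 : ℝ) 1, q t ∈ Icc (-b) b := by
    intro t ht
    constructor
    · rw [← hq1, ← hodd]
      exact hqm.monotone ht.1
    · rw [← hq1]
      exact hqm.monotone ht.2
  have hM : 0 < f y := hp y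
  obtain ⟨k, hk⟩ : ∃ k, k = κ / f y := ⟨_, rfl⟩
  have hk0 : 0 < k := by rw [hk]; exact div_pos hκ0 hM
  have hkd : ∀ t ∈ Icc (-1 : ℝ) 1, k ≤ deriv q t := by
    intro t ht
    rw [hk, hqd]
    exact div_le_div_of_nonneg_left hκ0.le (hp _) (hmax' _ (hrange t ht))
  have hqd' : deriv q = fun t => κ / f (q t) := funext hqd
  have hdd : ∀ t, deriv (deriv q) t = -(κ ^ 2 * deriv f (q t)) / f (q t) ^ 3 := by
    intro t
    have h1 : HasDerivAt q (κ / f (q t)) t := by
      rw [← hqd]
      exact (hq.differentiable (by norm_num) t).hasDerivAt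
    have h2 : HasDerivAt f (deriv f (q t)) (q t) :=
      (hf.smooth.differentiable (by norm_num) (q t)).hasDerivAt
    have h3 : HasDerivAt (fun t => κ / f (q t)) ((0 * f (q t) - κ * (deriv f (q t) * (κ / f (q t)))) /
        f (q t) ^ 2) t := (hasDerivAt_const t κ).div (h2.comp t h1) (hp _).ne'
    rw [hqd', h3.deriv]
    have h4 := (hp (q t)).ne'
    field_simp
    ring
  have hcon : ∀ t ∈ Icc (-1 : ℝ) 1, |deriv (deriv q) t| * (1 - |t|) ≤ deriv q t := by
    intro t ht
    have h1 := (hO f (-b) b hf).2.1 (q t) (hrange t ht)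
    have h2 : ∫ u in (-b)..(q t), f u = κ * (1 + t) := by
      have h3 := intervalIntegral.integral_add_adjacent_intervals
        (hfc.intervalIntegrable (-b) 0) (hfc.intervalIntegrable (μ := volume) 0 (q t))
      have h4 := hev1 b
      rw [intervalIntegral.integral_symm, ← hhalf, ← hκ] at h4
      rw [← h3, ← hqi t]
      linarith
    have h3 : ∫ u in (q t)..b, f u = κ * (1 - t) := by
      have h3 := intervalIntegral.integral_add_adjacent_intervals
        (hfc.intervalIntegrable 0 (q t)) (hfc.intervalIntegrable (μ := volume) (q t) b)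
      rw [← hqi t, ← hhalf, ← hκ] at h3
      linarith
    have h4 : κ * (1 - |t|) ≤ min (κ * (1 + t)) (κ * (1 - t)) := by
      refine le_min (mul_le_mul_of_nonneg_left ?_ hκ0.le) (mul_le_mul_of_nonneg_left ?_ hκ0.le)
      · have := neg_abs_le t
        linarith
      · have := le_abs_self t
        linarith
    rw [h2, h3] at h1
    have h5 : |deriv f (q t)| * (κ * (1 - |t|)) ≤ f (q t) ^ 2 :=
      (mul_le_mul_of_nonneg_left h4 (abs_nonneg _)).trans h1
    have h6 : 0 < f (q t) := hp _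
    rw [hdd, hqd, abs_div, abs_neg, abs_mul, abs_of_pos (pow_pos h6 3), abs_of_pos (pow_pos hκ0 2)]
    rw [div_mul_eq_mul_div, div_le_div_iff₀ (pow_pos h6 3) h6]
    have h7 := mul_le_mul_of_nonneg_left h5 (mul_pos hκ0 h6).le
    nlinarith
  obtain ⟨u, hu1, hu2⟩ := hV n R q k hn hvol' hq hqm hodd hk0.le hkd hcon
  have h3 := hs' u hu1
  rw [← hI, hint fun x => (∑ i, u i * x i) ^ 2, hint fun x => ∑ i, u i * x i, hI1] at h3
  obtain ⟨v, hv⟩ : ∃ v, v = (volume (SK R)).toReal := ⟨_, rfl⟩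
  rw [← hv] at h3 hu2 hvol
  have h4 : (κ ^ n) ^ 2 * (2 / 441 * k ^ 2 * v ^ 2) ≤ (κ ^ n) ^ 2 * (s * v ^ 2) := by
    refine (mul_le_mul_of_nonneg_left hu2 (sq_nonneg _)).trans ?_
    refine le_trans (le_of_eq ?_) (h3.trans (le_of_eq ?_))
    · ring
    · ring
  have h5 : 2 / 441 * k ^ 2 ≤ s :=
    le_of_mul_le_mul_right (le_of_mul_le_mul_left h4 (pow_pos hκn 2)) (pow_pos hvol 2)
  have h6 : 4 * (Z / f y) ^ 2 = 16 * k ^ 2 := by
    rw [hk, hκ]
    field_simp
    ring
  rw [h6]
  linarith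

end Pool.Agent.T2h31.LC
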