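import Pool.Agent.T2h31.LC.Stm

set_option autoImplicit false

namespace Pool.Agent.T2h31.LC

open MeasureTheory Set Filter Topology
open Pool.Agent.T2h31.SB (Lb sv)

namespace GEN

variable {n : ℕ}

/-- the cube -/
def Cu (n : ℕ) (a b : ℝ) : Set (Fin n → ℝ) := {x | ∀ i, a ≤ x i ∧ x i ≤ b}

theorem Cu_meas (a b : ℝ) : MeasurableSet (Cu n a b) := by
  have : Cu n a b = Set.pi Set.univ (fun _ => Icc a b) := by
    ext x
    constructor
    · exact fun h i _ => ⟨(h i).1, (h i).2⟩
    · exact fun h i => ⟨(h i (Set.mem_univ i)).1, (h i (Set.mem_univ i)).2⟩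
  rw [this]
  exact MeasurableSet.univ_pi fun _ => measurableSet_Icc

theorem pp_int {f : ℝ → ℝ} (hf : Integrable f) : Integrable (pp (n := n) f) := by
  have := Integrable.fintype_prod (μ := fun _ : Fin n => (volume : Measure ℝ)) (f := fun _ => f)
    (fun _ => hf)
  rw [← volume_pi] at this
  exact this

theorem pp_sq_int {f : ℝ → ℝ} (hf : Integrable f) (h2 : Integrable fun t => t ^ 2 * f t)
    (i : Fin n) : Integrable (fun x : Fin n → ℝ => x i ^ 2 * pp f x) := by
  have := Integrable.fintype_prod (μ := fun _ : Fin n => (volume : Measure ℝ))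
    (f := fun k => if k = i then (fun t => t ^ 2 * f t) else f)
    (fun k => by
      by_cases hk : k = i
      · simpa [hk] using h2
      · simpa [hk] using hf)
  rw [← volume_pi] at this
  refine this.congr (Eventually.of_forall fun x => ?_)
  show (∏ k, (if k = i then (fun t => t ^ 2 * f t) else f) (x k)) = x i ^ 2 * ∏ k, f (x k)
  rw [← Finset.mul_prod_erase _ _ (Finset.mem_univ i), ← Finset.mul_prod_erase _ (fun k => f (x k))
    (Finset.mem_univ i)]
  have h1 : ∏ k ∈ Finset.univ.erase i, (if k = i then (fun t => t ^ 2 * f t) else f) (x k) =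
      ∏ k ∈ Finset.univ.erase i, f (x k) := by
    refine Finset.prod_congr rfl fun k hk => ?_
    rw [if_neg (Finset.ne_of_mem_erase hk)]
  rw [h1, if_pos rfl]
  ring

theorem core (hLIM : S_LIM) (hMLC : S_MLC) {f : ℝ → ℝ} (hf : LCf f) {C : ℝ} (hC : 0 ≤ C)
    {cone : Set (Fin n → ℝ)} (hcone : MeasurableSet cone) {a b : ℕ → ℝ} {F : ℕ → ℝ → ℝ}
    (hS : ∀ j, Smo (F j) (a j) (b j)) (hle : ∀ j, ∀ x ∈ Icc (a j) (b j), F j x ≤ f x)
    (hlim : ∀ᵐ x : ℝ, Tendsto (fun j => (Icc (a j) (b j)).indicator (F j) x) atTop (𝓝 (f x)))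
    (hpos : 0 < ∫ x in cone, pp f x)
    (hPL : ∀ j, PL C ((Cu n (a j) (b j) ∩ cone).indicator (pp (F j)))) :
    PL C (cone.indicator (pp f)) := by
  have hint : Integrable (pp (n := n) f) := pp_int hf.int
  have hppn : ∀ x : Fin n → ℝ, 0 ≤ pp f x := fun x => Finset.prod_nonneg fun i _ => hf.nonneg _
  refine hLIM n C (cone.indicator (pp f)) (fun j => (Cu n (a j) (b j) ∩ cone).indicator (pp (F j)))
    hC (fun j => ?_) (fun j x => ?_) ?_ (hint.indicator hcone) ?_ (fun i => ?_) hPL
  · refine Measurable.indicator ?_ ((Cu_meas _ _).inter hcone)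
    have : Continuous (pp (n := n) (F j)) :=
      continuous_finsetProd _ fun i _ => (hS j).smooth.continuous.comp (continuous_apply i)
    exact this.measurable
  · obtain ⟨m, hm0, hm⟩ := (hS j).low
    have hFn : ∀ t, 0 ≤ F j t := fun t => hm0.le.trans (hm t)
    by_cases hx : x ∈ Cu n (a j) (b j) ∩ cone
    · rw [indicator_of_mem hx, indicator_of_mem hx.2]
      refine ⟨Finset.prod_nonneg fun i _ => hFn _, ?_⟩
      exact Finset.prod_le_prod (fun i _ => hFn _) fun i _ => hle j _ ⟨(hx.1 i).1, (hx.1 i).2⟩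
    · rw [indicator_of_notMem hx]
      exact ⟨le_rfl, indicator_nonneg (fun x _ => hppn x) x⟩
  · have hall : ∀ᵐ x : Fin n → ℝ, ∀ i, Tendsto (fun j => (Icc (a j) (b j)).indicator (F j) (x i))
        atTop (𝓝 (f (x i))) := by
      rw [ae_all_iff]
      intro i
      rw [volume_pi]
      exact (Measure.tendsto_eval_ae_ae (μ := fun _ : Fin n => (volume : Measure ℝ)) (i := i)).eventually
        hlim
    filter_upwards [hall] with x hx
    by_cases hxc : x ∈ cone
    · rw [indicator_of_mem hxc]
      have h1 : ∀ j, (Cu n (a j) (b j) ∩ cone).indicator (pp (F j)) x =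
          ∏ i, (Icc (a j) (b j)).indicator (F j) (x i) := by
        intro j
        by_cases hxq : x ∈ Cu n (a j) (b j)
        · rw [indicator_of_mem (show x ∈ Cu n (a j) (b j) ∩ cone from ⟨hxq, hxc⟩)]
          refine Finset.prod_congr rfl fun i _ => ?_
          rw [indicator_of_mem (show x i ∈ Icc (a j) (b j) from ⟨(hxq i).1, (hxq i).2⟩)]
        · rw [indicator_of_notMem (fun h => hxq h.1)]
          have : ∃ i, x i ∉ Icc (a j) (b j) := by
            by_contra hcon
            push Not at hcon
            exact hxq fun i => ⟨(hcon i).1, (hcon i).2⟩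
          obtain ⟨i, hi⟩ := this
          exact (Finset.prod_eq_zero (Finset.mem_univ i) (indicator_of_notMem hi _)).symm
      simp only [h1]
      exact tendsto_finsetProd _ fun i _ => hx i
    · rw [indicator_of_notMem hxc]
      have h1 : ∀ j, (Cu n (a j) (b j) ∩ cone).indicator (pp (F j)) x = 0 := fun j =>
        indicator_of_notMem (fun h => hxc h.2) _
      simp only [h1]
      exact tendsto_const_nhds
  · rw [integral_indicator hcone]
    exact hpos
  · have h2 := (pp_sq_int hf.int (hMLC f hf) i).indicator hcone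
    refine h2.congr (Eventually.of_forall fun x => ?_)
    show cone.indicator (fun x => x i ^ 2 * pp f x) x = x i ^ 2 * cone.indicator (pp f) x
    by_cases hx : x ∈ cone
    · rw [indicator_of_mem hx, indicator_of_mem hx]
    · rw [indicator_of_notMem hx, indicator_of_notMem hx, mul_zero]

theorem sv_cont (p : Lb n) : Continuous fun x : Fin n → ℝ => sv x p := by
  unfold sv
  by_cases h : p.2
  · simp only [h, if_true]
    exact continuous_apply _
  · simp only [h]
    exact (continuous_apply _).neg

end GEN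

open GEN in
theorem t_GEN (hFSA : S_FSA) (hFSB : S_FSB) (hAPX : S_APX) (hMLC : S_MLC) (hLIM : S_LIM) : S_GEN := by
  intro n hn f hf
  obtain ⟨a, b, F, hS, hle, hlim, hev⟩ := hAPX f hf
  constructor
  · intro R hpos
    have hmeas : MeasurableSet {x : Fin n → ℝ | ∀ i j, R i j → x i ≤ x j} := by
      have : IsClosed {x : Fin n → ℝ | ∀ i j, R i j → x i ≤ x j} := by
        simp only [ofPred_forall]
        exact isClosed_iInter fun i => isClosed_iInter fun j => isClosed_iInter fun _ =>
          isClosed_le (continuous_apply i) (continuous_apply j)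
      exact this.measurableSet
    refine core hLIM hMLC hf (by norm_num) hmeas hS hle hlim hpos fun j => ?_
    have h1 := hFSA n (fun i k => R i k ∧ i ≠ k) hn (fun i h => h.2 rfl) (F j) (a j) (b j) (hS j)
    have h2 : KA (a j) (b j) (fun i k => R i k ∧ i ≠ k) =
        Cu n (a j) (b j) ∩ {x : Fin n → ℝ | ∀ i j, R i j → x i ≤ x j} := by
      ext x
      constructor
      · rintro ⟨h3, h4⟩
        refine ⟨h3, fun i k hik => ?_⟩
        by_cases he : i = k
        · rw [he]
        · exact h4 i k ⟨hik, he⟩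
      · rintro ⟨h3, h4⟩
        exact ⟨h3, fun i k hik => h4 i k hik.1⟩
    rw [h2] at h1
    exact h1
  · intro hfe R hpos
    obtain ⟨hFe, hab⟩ := hev hfe
    have hmeas : MeasurableSet {x : Fin n → ℝ | ∀ p q, R p q → sv x p ≤ sv x q} := by
      have : IsClosed {x : Fin n → ℝ | ∀ p q, R p q → sv x p ≤ sv x q} := by
        simp only [ofPred_forall]
        exact isClosed_iInter fun p => isClosed_iInter fun q => isClosed_iInter fun _ =>
          isClosed_le (sv_cont p) (sv_cont q)
      exact this.measurableSet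
    refine core hLIM hMLC hf (by norm_num) hmeas hS hle hlim hpos fun j => ?_
    have hSj : Smo (F j) (-(b j)) (b j) := by
      rw [← hab j]
      exact hS j
    have h1 := hFSB n (fun p q => R p q ∧ p ≠ q) hn (fun p h => h.2 rfl) (F j) (b j) hSj (hFe j)
    have h2 : KB (b j) (fun p q => R p q ∧ p ≠ q) =
        Cu n (a j) (b j) ∩ {x : Fin n → ℝ | ∀ p q, R p q → sv x p ≤ sv x q} := by
      rw [hab j]
      ext x
      constructor
      · rintro ⟨h3, h4⟩
        refine ⟨h3, fun p q hpq => ?_⟩
        by_cases he : p = q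
        · rw [he]
        · exact h4 p q ⟨hpq, he⟩
      · rintro ⟨h3, h4⟩
        exact ⟨h3, fun p q hpq => h4 p q hpq.1⟩
    rw [h2] at h1
    exact h1

end Pool.Agent.T2h31.LC
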