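import Pool.Agent.T2h31.LC.Stm2
import Pool.Agent.T2h31.LC.T_GEN

set_option autoImplicit false

namespace Pool.Agent.T2h31.LC

open MeasureTheory Set Filter Topology
open Pool.Agent.T2h31.SB (Lb sv)

open GEN in
theorem t_GENB (hFSB : S_FSB) (hAPX : S_APX) (hMLC : S_MLC) (hLIM : S_LIM) : S_GENB := by
  intro n hn f hf hfe R hpos
  obtain ⟨a, b, F, hS, hle, hlim, hev⟩ := hAPX f hf
  obtain ⟨hFe, hab⟩ := hev hfe
  have hmeas : MeasurableSet {x : Fin n → ℝ | ∀ p q, R p q → sv x p ≤ sv x q} := by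
    have : IsClosed {x : Fin n → ℝ | ∀ p q, R p q → sv x p ≤ sv x q} := by
      simp only [ofPred_forall]
      exact isClosed_iInter fun p => isClosed_iInter fun q => isClosed_iInter fun _ =>
        isClosed_le (sv_cont p) (sv_cont q)
    exact this.measurableSet
  refine core hLIM hMLC hf (by norm_num) hmeas hS hle hlim hpos fun j => ?_
  have hSj : Smo (F j) (-(b j)) (b j) := by
    rw [← hab j]
    exact hS j
  have h1 := hFSB n (fun p q => R p q ∧ p ≠ q) hn (fun p h => h.2 rfl) (F j) (b j) hSj (hFe j)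
  have h2 : KB (b j) (fun p q => R p q ∧ p ≠ q) =
      Cu n (a j) (b j) ∩ {x : Fin n → ℝ | ∀ p q, R p q → sv x p ≤ sv x q} := by
    rw [hab j]
    ext x
    constructor
    · rintro ⟨h3, h4⟩
      refine ⟨h3, fun p q hpq => ?_⟩
      by_cases he : p = q
      · rw [he]
      · exact h4 p q ⟨hpq, he⟩
    · rintro ⟨h3, h4⟩
      exact ⟨h3, fun p q hpq => h4 p q hpq.1⟩
  rw [h2] at h1
  exact h1

end Pool.Agent.T2h31.LC
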