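import Pool.Agent.T2h31.LC.Stm

/-!
LAW: the lattice inequality for general rates.
-/

set_option autoImplicit false

namespace Pool.Agent.T2h31.LC.LAW

open Pool.Agent.T2h31.SB (Lb sv sg mv sm cfg SK)

lemma sm_sm (h : Pool.Agent.T2h31.SB.S_SGB) {n : ℕ} (k : ℕ) (g : Fin n → ℤ) :
    sm k (sm k g) = g := by
  funext a
  exact h.2.1 (2 * (k : ℤ) - 1) (2 * (k : ℤ) + 1) (g a) (by omega) (by omega)

open Classical in
/-- the weights -/
noncomputable def w {n : ℕ} (N : ℕ) (c : ℕ → ℝ) (R : Lb n → Lb n → Prop)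
    (x y : {g // g ∈ cfg N R}) : ℝ :=
  ∑ k ∈ Finset.range N, if sm k x.1 = y.1 then c k else 0

lemma w_symm (hS : Pool.Agent.T2h31.SB.S_SGB) {n : ℕ} (N : ℕ) (c : ℕ → ℝ)
    (R : Lb n → Lb n → Prop) (x y : {g // g ∈ cfg N R}) : w N c R x y = w N c R y x := by
  unfold w
  refine Finset.sum_congr rfl fun k _ => ?_
  have : sm k x.1 = y.1 ↔ sm k y.1 = x.1 := by
    constructor
    · intro h; rw [← h, sm_sm hS]
    · intro h; rw [← h, sm_sm hS]
  simp only [this]

open Classical in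
lemma sum_w {n : ℕ} (N : ℕ) (c : ℕ → ℝ) (R : Lb n → Lb n → Prop)
    (x : {g // g ∈ cfg N R}) (φ : (Fin n → ℤ) → ℝ) :
    ∑ y : {g // g ∈ cfg N R}, w N c R x y * φ y.1 =
      ∑ k ∈ Finset.range N,
        if sm k x.1 ∈ cfg N R then c k * φ (sm k x.1) else 0 := by
  unfold w
  simp_rw [Finset.sum_mul]
  rw [Finset.sum_comm]
  refine Finset.sum_congr rfl fun k _ => ?_
  split_ifs with h
  · rw [Finset.sum_eq_single ⟨sm k x.1, h⟩]
    · simp
    · intro y _ hy
      rw [if_neg, zero_mul]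
      intro he
      exact hy (Subtype.ext he.symm)
    · intro hn
      exact absurd (Finset.mem_univ _) hn
  · apply Finset.sum_eq_zero
    intro y _
    rw [if_neg, zero_mul]
    intro he
    rw [he] at h
    exact h y.2

end Pool.Agent.T2h31.LC.LAW

namespace Pool.Agent.T2h31.LC

open Pool.Agent.T2h31.SB (Lb sv sg mv sm cfg SK)
open LAW

open Classical in
theorem t_LAW (h1 : S_COW) (h2 : Pool.Agent.T2h31.SB.S_CONN) (hS : Pool.Agent.T2h31.SB.S_SGB)
    (h3 : Pool.Agent.R972.OP.S_LA) : S_LAW := by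
  intro n N R W c hW F
  have key := h3 {g // g ∈ cfg N R} (w N c R) (w_symm hS N c R) ?_ (fun x => F x.1)
  · rw [Fintype.card_coe] at key
    have e1 : ∑ x : {g // g ∈ cfg N R}, F x.1 ^ 2 = ∑ g ∈ cfg N R, F g ^ 2 :=
      Finset.sum_coe_sort (cfg N R) (fun g => F g ^ 2)
    have e2 : ∑ x : {g // g ∈ cfg N R}, F x.1 = ∑ g ∈ cfg N R, F g :=
      Finset.sum_coe_sort (cfg N R) F
    have e3 : ∑ x : {g // g ∈ cfg N R}, ∑ y : {g // g ∈ cfg N R},
        w N c R x y * (F y.1 - F x.1) ^ 2 = ∑ g ∈ cfg N R, QQc N c R F g := by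
      rw [← Finset.sum_coe_sort (cfg N R) (fun g => QQc N c R F g)]
      refine Finset.sum_congr rfl fun x _ => ?_
      rw [sum_w N c R x (fun g => (F g - F x.1) ^ 2)]
      rfl
    rw [e1, e2, e3] at key
    exact key
  · intro lam G hG hne
    set G' : (Fin n → ℤ) → ℝ := fun g => if h : g ∈ cfg N R then G ⟨g, h⟩ else 0 with hG'
    have hGG : ∀ x : {g // g ∈ cfg N R}, G' x.1 = G x := by
      intro x
      rw [hG']
      simp
    apply h1 n N R W c lam G' hW
    · intro g hg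
      have e4 := hG ⟨g, hg⟩
      have e5 : ∑ y : {g // g ∈ cfg N R}, w N c R ⟨g, hg⟩ y * (G y - G ⟨g, hg⟩) =
          ∑ y : {g // g ∈ cfg N R}, w N c R ⟨g, hg⟩ y * (G' y.1 - G' g) := by
        refine Finset.sum_congr rfl fun y _ => ?_
        rw [hGG y, hGG ⟨g, hg⟩]
      rw [e5, sum_w N c R ⟨g, hg⟩ (fun h => G' h - G' g), ← hGG ⟨g, hg⟩] at e4
      exact e4
    · by_contra hcon
      push Not at hcon
      obtain ⟨x, y, hxy⟩ := hne
      apply hxy
      rw [← hGG x, ← hGG y]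
      exact h2 n N R G' (fun g hg k hk hmem => hcon g hg k hk hmem) x.1 x.2 y.1 y.2

end Pool.Agent.T2h31.LC
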