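import Pool.Agent.T2h31.LC.Stm

set_option autoImplicit false

namespace Pool.Agent.T2h31.LC

open MeasureTheory Set Filter Topology

namespace LIM

variable {n : ℕ}

theorem int_of_le {h G B : (Fin n → ℝ) → ℝ} (hh : Integrable h) (h0 : ∀ x, 0 ≤ h x)
    (hG : Continuous G) (hB : Integrable (fun x => B x * h x)) (hle : ∀ x, |G x| ≤ B x) :
    Integrable (fun x => G x * h x) := by
  refine hB.mono' (hG.aestronglyMeasurable.mul hh.aestronglyMeasurable)
    (Eventually.of_forall fun x => ?_)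
  rw [Real.norm_eq_abs, abs_mul, abs_of_nonneg (h0 x)]
  exact mul_le_mul_of_nonneg_right (hle x) (h0 x)

theorem int_sub {h k G : (Fin n → ℝ) → ℝ} (hk : Measurable k) (hb : ∀ x, 0 ≤ k x ∧ k x ≤ h x)
    (hG : Continuous G) (hI : Integrable (fun x => G x * h x)) : Integrable (fun x => G x * k x) := by
  refine hI.mono (hG.measurable.mul hk).aestronglyMeasurable (Eventually.of_forall fun x => ?_)
  rw [Real.norm_eq_abs, Real.norm_eq_abs, abs_mul, abs_mul, abs_of_nonneg (hb x).1,
    abs_of_nonneg ((hb x).1.trans (hb x).2)]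
  exact mul_le_mul_of_nonneg_left (hb x).2 (abs_nonneg _)

theorem tends {h : (Fin n → ℝ) → ℝ} {hj : ℕ → (Fin n → ℝ) → ℝ} (hm : ∀ j, Measurable (hj j))
    (hb : ∀ j x, 0 ≤ hj j x ∧ hj j x ≤ h x)
    (hl : ∀ᵐ x, Tendsto (fun j => hj j x) atTop (𝓝 (h x))) {G : (Fin n → ℝ) → ℝ}
    (hG : Continuous G) (hI : Integrable (fun x => G x * h x)) :
    Tendsto (fun j => ∫ x, G x * hj j x) atTop (𝓝 (∫ x, G x * h x)) := by
  refine tendsto_integral_of_dominated_convergence (fun x => |G x * h x|)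
    (fun j => (hG.measurable.mul (hm j)).aestronglyMeasurable) hI.abs
    (fun j => Eventually.of_forall fun x => ?_) ?_
  · rw [Real.norm_eq_abs, abs_mul, abs_mul, abs_of_nonneg (hb j x).1,
      abs_of_nonneg ((hb j x).1.trans (hb j x).2)]
    exact mul_le_mul_of_nonneg_left (hb j x).2 (abs_nonneg _)
  · filter_upwards [hl] with x hx using hx.const_mul _

/-- the matrix of the variances -/
noncomputable def Ga (w : (Fin n → ℝ) → ℝ) (i k : Fin n) : ℝ :=
  (∫ x, w x) * (∫ x, (x i * x k) * w x) - (∫ x, x i * w x) * (∫ x, x k * w x)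

theorem quad {w : (Fin n → ℝ) → ℝ} (h1 : ∀ i, Integrable fun x : Fin n → ℝ => x i * w x)
    (h2 : ∀ i k, Integrable fun x : Fin n → ℝ => (x i * x k) * w x) (θ : Fin n → ℝ) :
    (∫ x, w x) * (∫ x, (∑ i, θ i * x i) ^ 2 * w x) - (∫ x, (∑ i, θ i * x i) * w x) ^ 2 =
      ∑ i, ∑ k, θ i * θ k * Ga w i k := by
  have e1 : ∫ x, (∑ i, θ i * x i) * w x = ∑ i, θ i * ∫ x, x i * w x := by
    have : (fun x : Fin n → ℝ => (∑ i, θ i * x i) * w x) = fun x => ∑ i, θ i * (x i * w x) := by
      funext x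
      rw [Finset.sum_mul]
      exact Finset.sum_congr rfl fun i _ => by ring
    rw [this, integral_finsetSum _ (fun i _ => (h1 i).const_mul _)]
    exact Finset.sum_congr rfl fun i _ => integral_const_mul _ _
  have e2 : ∫ x, (∑ i, θ i * x i) ^ 2 * w x = ∑ i, ∑ k, θ i * θ k * ∫ x, (x i * x k) * w x := by
    have : (fun x : Fin n → ℝ => (∑ i, θ i * x i) ^ 2 * w x) =
        fun x => ∑ i, ∑ k, (θ i * θ k) * ((x i * x k) * w x) := by
      funext x
      rw [pow_two, Finset.sum_mul_sum, Finset.sum_mul]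
      refine Finset.sum_congr rfl fun i _ => ?_
      rw [Finset.sum_mul]
      exact Finset.sum_congr rfl fun k _ => by ring
    rw [this, integral_finsetSum _ (fun i _ =>
      integrable_finsetSum _ (fun k _ => (h2 i k).const_mul _))]
    refine Finset.sum_congr rfl fun i _ => ?_
    rw [integral_finsetSum _ (fun k _ => (h2 i k).const_mul _)]
    exact Finset.sum_congr rfl fun k _ => integral_const_mul _ _
  rw [e1, e2, pow_two, Finset.sum_mul_sum, Finset.mul_sum, ← Finset.sum_sub_distrib]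
  refine Finset.sum_congr rfl fun i _ => ?_
  rw [Finset.mul_sum, ← Finset.sum_sub_distrib]
  refine Finset.sum_congr rfl fun k _ => ?_
  rw [Ga]
  ring

theorem quad_diff {θ : Fin n → ℝ} (hθ : ∑ i, θ i ^ 2 = 1) (A B : Fin n → Fin n → ℝ) :
    ∑ i, ∑ k, θ i * θ k * A i k ≤ ∑ i, ∑ k, θ i * θ k * B i k + ∑ i, ∑ k, |A i k - B i k| := by
  have hle : ∀ i, |θ i| ≤ 1 := by
    intro i
    have h1 : θ i ^ 2 ≤ ∑ i, θ i ^ 2 :=
      Finset.single_le_sum (f := fun i => θ i ^ 2) (fun i _ => sq_nonneg _) (Finset.mem_univ i)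
    rw [hθ] at h1
    exact (sq_le_one_iff_abs_le_one _).mp h1
  rw [← Finset.sum_add_distrib]
  refine Finset.sum_le_sum fun i _ => ?_
  rw [← Finset.sum_add_distrib]
  refine Finset.sum_le_sum fun k _ => ?_
  have h2 : θ i * θ k * (A i k - B i k) ≤ |A i k - B i k| := by
    refine (le_abs_self _).trans ?_
    rw [abs_mul, abs_mul]
    have h3 : |θ i| * |θ k| ≤ 1 := mul_le_one₀ (hle i) (abs_nonneg _) (hle k)
    exact mul_le_of_le_one_left (abs_nonneg _) h3
  linarith

end LIM

open LIM in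
theorem t_LIM : S_LIM := by
  intro n C h hj hC hm hb hl hint hpos hsq hPL s hs g hg hg2 hgr
  have h0 : ∀ x, 0 ≤ h x := fun x => ((hb 0 x).1).trans (hb 0 x).2
  -- integrability
  have hsum : Integrable fun x : Fin n → ℝ => (1 + ∑ i, x i ^ 2) * h x := by
    have : (fun x : Fin n → ℝ => (1 + ∑ i, x i ^ 2) * h x) = fun x => h x + ∑ i, x i ^ 2 * h x := by
      funext x
      rw [add_mul, one_mul, Finset.sum_mul]
    rw [this]
    exact hint.add (integrable_finsetSum _ fun i _ => hsq i)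
  have hle2 : ∀ (x : Fin n → ℝ) (i : Fin n), x i ^ 2 ≤ ∑ i, x i ^ 2 := fun x i =>
    Finset.single_le_sum (f := fun i => x i ^ 2) (fun i _ => sq_nonneg _) (Finset.mem_univ i)
  have i1 : ∀ i, Integrable fun x : Fin n → ℝ => x i * h x := by
    intro i
    refine int_of_le hint h0 (continuous_apply i) hsum fun x => ?_
    have h3 := hle2 x i
    have h4 : |x i| ≤ 1 + x i ^ 2 := by
      rw [← sq_abs (x i)]
      nlinarith [sq_nonneg (|x i| - 1), abs_nonneg (x i)]
    linarith
  have i2 : ∀ i k, Integrable fun x : Fin n → ℝ => (x i * x k) * h x := by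
    intro i k
    refine int_of_le (B := fun x => 1 + ∑ i, x i ^ 2) hint h0
      ((continuous_apply i).mul (continuous_apply k)) hsum fun x => ?_
    have h3 := hle2 x i
    have h4 := hle2 x k
    rw [abs_mul]
    have h5 : |x i| * |x k| ≤ (x i ^ 2 + x k ^ 2) / 2 := by
      rw [← sq_abs (x i), ← sq_abs (x k)]
      nlinarith [sq_nonneg (|x i| - |x k|)]
    have h6 : (x i ^ 2 + x k ^ 2) / 2 ≤ ∑ i, x i ^ 2 := by linarith
    linarith
  have i1j : ∀ j i, Integrable fun x : Fin n → ℝ => x i * hj j x := fun j i =>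
    int_sub (hm j) (hb j) (continuous_apply i) (i1 i)
  have i2j : ∀ j i k, Integrable fun x : Fin n → ℝ => (x i * x k) * hj j x := fun j i k =>
    int_sub (hm j) (hb j) ((continuous_apply i).mul (continuous_apply k)) (i2 i k)
  -- limits
  have t0 : Tendsto (fun j => ∫ x, hj j x) atTop (𝓝 (∫ x, h x)) := by
    have := tends hm hb hl (G := fun _ => (1 : ℝ)) continuous_const (by simpa using hint)
    simpa using this
  have t1 : ∀ i, Tendsto (fun j => ∫ x, x i * hj j x) atTop (𝓝 (∫ x, x i * h x)) := fun i =>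
    tends hm hb hl (continuous_apply i) (i1 i)
  have t2 : ∀ i k, Tendsto (fun j => ∫ x, (x i * x k) * hj j x) atTop
      (𝓝 (∫ x, (x i * x k) * h x)) := fun i k =>
    tends hm hb hl ((continuous_apply i).mul (continuous_apply k)) (i2 i k)
  have tG : ∀ i k, Tendsto (fun j => Ga (hj j) i k) atTop (𝓝 (Ga h i k)) := fun i k =>
    (t0.mul (t2 i k)).sub ((t1 i).mul (t1 k))
  have tD : Tendsto (fun j => ∑ i, ∑ k, |Ga (hj j) i k - Ga h i k|) atTop (𝓝 0) := by
    have h1 : Tendsto (fun j => ∑ i, ∑ k, |Ga (hj j) i k - Ga h i k|) atTop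
        (𝓝 (∑ i : Fin n, ∑ k : Fin n, |Ga h i k - Ga h i k|)) := by
      refine tendsto_finsetSum _ fun i _ => tendsto_finsetSum _ fun k _ => ?_
      exact ((tG i k).sub tendsto_const_nhds).abs
    simpa using h1
  -- g
  have cg : Continuous g := hg.continuous
  have cp : ∀ i, Continuous (pd g i) := fun i =>
    (hg.continuous_fderiv (by norm_num)).clm_apply continuous_const
  have cP : Continuous fun x => ∑ i, pd g i x ^ 2 := by
    refine continuous_finsetSum _ fun i _ => (cp i).pow 2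
  have hg1 : Integrable fun x => g x * h x := by
    have hB : Integrable fun x => (1 + g x ^ 2) * h x := by
      have : (fun x => (1 + g x ^ 2) * h x) = fun x => h x + g x ^ 2 * h x := by
        funext x; ring
      rw [this]
      exact hint.add hg2
    refine int_of_le hint h0 cg hB fun x => ?_
    rw [← sq_abs (g x)]
    nlinarith [sq_nonneg (|g x| - 1), abs_nonneg (g x)]
  have tg1 : Tendsto (fun j => ∫ x, g x * hj j x) atTop (𝓝 (∫ x, g x * h x)) :=
    tends hm hb hl cg hg1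
  have tg2 : Tendsto (fun j => ∫ x, g x ^ 2 * hj j x) atTop (𝓝 (∫ x, g x ^ 2 * h x)) :=
    tends hm hb hl (cg.pow 2) hg2
  have tgr : Tendsto (fun j => ∫ x, (∑ i, pd g i x ^ 2) * hj j x) atTop
      (𝓝 (∫ x, (∑ i, pd g i x ^ 2) * h x)) := tends hm hb hl cP hgr
  set I := ∫ x, h x with hI
  have key : ∀ ε : ℝ, 0 < ε → I * (∫ x, g x ^ 2 * h x) - (∫ x, g x * h x) ^ 2 ≤
      C * (s + ε) * (I * ∫ x, (∑ i, pd g i x ^ 2) * h x) := by
    intro ε hε
    have h1 : Tendsto (fun j => s * I ^ 2 + ∑ i, ∑ k, |Ga (hj j) i k - Ga h i k|) atTop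
        (𝓝 (s * I ^ 2 + 0)) := tendsto_const_nhds.add tD
    have h2 : Tendsto (fun j => (s + ε) * (∫ x, hj j x) ^ 2) atTop (𝓝 ((s + ε) * I ^ 2)) :=
      (t0.pow 2).const_mul _
    have h3 : s * I ^ 2 + 0 < (s + ε) * I ^ 2 := by
      have : 0 < I ^ 2 := by positivity
      nlinarith
    have h4 := h1.eventually_lt h2 h3
    refine le_of_tendsto_of_tendsto ((t0.mul tg2).sub (tg1.pow 2))
      ((t0.mul tgr).const_mul (C * (s + ε))) ?_
    filter_upwards [h4] with j hj4
    refine hPL j (s + ε) (fun θ hθ => ?_) g hg (int_sub (hm j) (hb j) (cg.pow 2) hg2)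
      (int_sub (hm j) (hb j) cP hgr)
    rw [quad (i1j j) (i2j j) θ]
    have h5 := hs θ hθ
    rw [quad i1 i2 θ] at h5
    have h6 := quad_diff hθ (Ga (hj j)) (Ga h)
    linarith
  refine le_of_forall_pos_le_add fun δ hδ => ?_
  set K := I * ∫ x, (∑ i, pd g i x ^ 2) * h x with hK
  have hK0 : 0 ≤ K := by
    refine mul_nonneg hpos.le (integral_nonneg fun x => ?_)
    exact mul_nonneg (Finset.sum_nonneg fun i _ => sq_nonneg _) (h0 x)
  have hCK : 0 ≤ C * K := mul_nonneg hC hK0
  have h7 := key (δ / (C * K + 1)) (by positivity)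
  refine h7.trans ?_
  have h8 : C * (s + δ / (C * K + 1)) * K = C * s * K + δ * (C * K / (C * K + 1)) := by
    field_simp
  rw [h8]
  have h9 : C * K / (C * K + 1) ≤ 1 := by
    rw [div_le_one (by positivity)]
    linarith
  have h10 : δ * (C * K / (C * K + 1)) ≤ δ * 1 := mul_le_mul_of_nonneg_left h9 hδ.le
  linarith

end Pool.Agent.T2h31.LC
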