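import Pool.Agent.T2h31.LC.Stm2

/-!
# Measures (MEAB)
-/

set_option autoImplicit false

namespace Pool.Agent.T2h31.LC.MEAB

open MeasureTheory Set Filter Topology
open Pool.Agent.T2h31.SB (Lb sv)

variable {n : ℕ}

/-- products of densities -/
theorem pi_wd {f : ℝ → ℝ} (h0 : ∀ x, 0 ≤ f x) (hI : Integrable f) :
    Measure.pi (fun _ : Fin n => (volume : Measure ℝ).withDensity
        (fun x => ENNReal.ofReal (f x))) =
      (volume : Measure (Fin n → ℝ)).withDensity (fun x => ENNReal.ofReal (pp f x)) := by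
  have hfin : IsFiniteMeasure ((volume : Measure ℝ).withDensity
      (fun x => ENNReal.ofReal (f x))) := isFiniteMeasure_withDensity_ofReal hI.2
  refine Measure.pi_eq fun s hs => ?_
  have hI3 : Integrable (fun x : Fin n → ℝ => ∏ i, f (x i)) :=
    Integrable.fintype_prod (ι := Fin n) (f := fun _ => f) (fun _ => hI)
  have hms : MeasurableSet (Set.univ.pi s) := MeasurableSet.univ_pi hs
  unfold pp
  rw [withDensity_apply _ hms, ← ofReal_integral_eq_lintegral_ofReal hI3.integrableOn
    (Eventually.of_forall fun x => Finset.prod_nonneg fun i _ => h0 _)]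
  have h1 : ∫ x in Set.univ.pi s, ∏ i, f (x i) = ∏ i, ∫ x in s i, f x := by
    rw [volume_pi, Measure.restrict_pi_pi]
    exact integral_fintype_prod_eq_prod (fun _ : Fin n => f)
  rw [h1, ENNReal.ofReal_prod_of_nonneg (fun i _ => integral_nonneg h0)]
  refine Finset.prod_congr rfl fun i _ => ?_
  rw [withDensity_apply _ (hs i), ofReal_integral_eq_lintegral_ofReal hI.integrableOn
    (Eventually.of_forall h0)]

theorem pp_int {f : ℝ → ℝ} (hI : Integrable f) : Integrable (pp f : (Fin n → ℝ) → ℝ) :=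
  Integrable.fintype_prod (ι := Fin n) (f := fun _ => f) (fun _ => hI)

theorem pp_nonneg {f : ℝ → ℝ} (h0 : ∀ x, 0 ≤ f x) (x : Fin n → ℝ) : 0 ≤ pp f x :=
  Finset.prod_nonneg fun i _ => h0 _

theorem sq_int {f : ℝ → ℝ} (hI : Integrable f) (h2 : Integrable fun x => x ^ 2 * f x)
    (i : Fin n) : Integrable fun x : Fin n → ℝ => x i ^ 2 * pp f x := by
  have h := Integrable.fintype_prod (ι := Fin n) (𝕜 := ℝ)
    (f := fun j => if j = i then (fun t : ℝ => t ^ 2 * f t) else f) (μ := fun _ => volume)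
    (fun j => by
      by_cases h : j = i
      · simp only [h, if_true]
        exact h2
      · simp only [h, if_false]
        exact hI)
  refine h.congr (Eventually.of_forall fun x => ?_)
  show (∏ j, (if j = i then (fun t : ℝ => t ^ 2 * f t) else f) (x j)) =
    x i ^ 2 * ∏ j, f (x j)
  rw [← Finset.mul_prod_erase Finset.univ _ (Finset.mem_univ i),
    ← Finset.mul_prod_erase Finset.univ (fun j => f (x j)) (Finset.mem_univ i)]
  simp only [if_true]
  rw [mul_assoc]
  congr 2
  refine Finset.prod_congr rfl fun j hj => ?_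
  rw [if_neg (Finset.ne_of_mem_erase hj)]

theorem cone_closed (R : Lb n → Lb n → Prop) :
    IsClosed {x : Fin n → ℝ | ∀ p q, R p q → sv x p ≤ sv x q} := by
  have hc : ∀ p : Lb n, Continuous fun x : Fin n → ℝ => sv x p := by
    intro p
    unfold sv
    by_cases h : p.2 = true
    · simp only [h, if_true]
      fun_prop
    · simp only [h, Bool.false_eq_true, if_false]
      fun_prop
  have : {x : Fin n → ℝ | ∀ p q, R p q → sv x p ≤ sv x q} =
      ⋂ p, ⋂ q, ⋂ (_ : R p q), {x : Fin n → ℝ | sv x p ≤ sv x q} := by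
    ext x
    simp
  rw [this]
  exact isClosed_iInter fun p => isClosed_iInter fun q => isClosed_iInter fun _ =>
    isClosed_le (hc p) (hc q)

/-- the conditioned measure -/
theorem cond_eq {f : ℝ → ℝ} (h0 : ∀ x, 0 ≤ f x) (hI : Integrable f) {C : Set (Fin n → ℝ)}
    (hC : MeasurableSet C)
    (hne : Measure.pi (fun _ : Fin n => (volume : Measure ℝ).withDensity
        (fun x => ENNReal.ofReal (f x))) C ≠ 0) :
    0 < ∫ x, C.indicator (pp f) x ∧
    IsProbabilityMeasure (ProbabilityTheory.cond (Measure.pi fun _ : Fin n =>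
      (volume : Measure ℝ).withDensity fun x => ENNReal.ofReal (f x)) C) ∧
    ∀ G : (Fin n → ℝ) → ℝ,
      (Integrable G (ProbabilityTheory.cond (Measure.pi fun _ : Fin n =>
        (volume : Measure ℝ).withDensity fun x => ENNReal.ofReal (f x)) C) ↔
        Integrable fun x => G x * C.indicator (pp f) x) ∧
      ∫ x, G x ∂(ProbabilityTheory.cond (Measure.pi fun _ : Fin n =>
        (volume : Measure ℝ).withDensity fun x => ENNReal.ofReal (f x)) C) =
        (∫ x, C.indicator (pp f) x)⁻¹ * ∫ x, G x * C.indicator (pp f) x := by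
  rw [pi_wd h0 hI] at hne ⊢
  have hp : Integrable (pp f : (Fin n → ℝ) → ℝ) := pp_int hI
  have hfin : IsFiniteMeasure ((volume : Measure (Fin n → ℝ)).withDensity
      (fun x => ENNReal.ofReal (pp f x))) := isFiniteMeasure_withDensity_ofReal hp.2
  have hm : (volume : Measure (Fin n → ℝ)).withDensity
      (fun x => ENNReal.ofReal (pp f x)) C = ENNReal.ofReal (∫ x, C.indicator (pp f) x) := by
    rw [withDensity_apply _ hC, ← ofReal_integral_eq_lintegral_ofReal hp.integrableOn
      (Eventually.of_forall fun x => pp_nonneg h0 x), integral_indicator hC]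
  have hpos : 0 < ∫ x, C.indicator (pp f) x := by
    rw [hm] at hne
    by_contra hcon
    exact hne (ENNReal.ofReal_of_nonpos (not_lt.1 hcon))
  refine ⟨hpos, ProbabilityTheory.cond_isProbabilityMeasure hne, fun G => ?_⟩
  have hcond : ProbabilityTheory.cond ((volume : Measure (Fin n → ℝ)).withDensity
      (fun x => ENNReal.ofReal (pp f x))) C = (ENNReal.ofReal (∫ x, C.indicator (pp f) x))⁻¹ •
        (volume : Measure (Fin n → ℝ)).withDensity
          (fun x => ENNReal.ofReal (C.indicator (pp f) x)) := by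
    unfold ProbabilityTheory.cond
    rw [hm, restrict_withDensity hC, ← withDensity_indicator hC]
    congr 2
    funext x
    by_cases hx : x ∈ C
    · simp [hx]
    · simp [hx]
  have hAE : AEMeasurable (fun x => ENNReal.ofReal (C.indicator (pp f) x)) volume :=
    (hp.indicator hC).aestronglyMeasurable.aemeasurable.ennreal_ofReal
  have hlt : ∀ᵐ x ∂(volume : Measure (Fin n → ℝ)),
      ENNReal.ofReal (C.indicator (pp f) x) < ⊤ :=
    Eventually.of_forall fun x => ENNReal.ofReal_lt_top
  have hreal : ∀ x, (ENNReal.ofReal (C.indicator (pp f) x)).toReal • G x =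
      G x * C.indicator (pp f) x := by
    intro x
    rw [ENNReal.toReal_ofReal (Set.indicator_nonneg (fun y _ => pp_nonneg h0 y) x),
      smul_eq_mul, mul_comm]
  rw [hcond]
  constructor
  · rw [integrable_smul_measure (ENNReal.inv_ne_zero.2 ENNReal.ofReal_ne_top)
      (ENNReal.inv_ne_top.2 (ENNReal.ofReal_pos.2 hpos).ne'),
      integrable_withDensity_iff_integrable_smul₀' hAE hlt]
    simp only [hreal]
  · rw [integral_smul_measure, integral_withDensity_eq_integral_toReal_smul₀ hAE hlt]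
    simp only [hreal]
    rw [ENNReal.toReal_inv, ENNReal.toReal_ofReal hpos.le, smul_eq_mul]

end Pool.Agent.T2h31.LC.MEAB

namespace Pool.Agent.T2h31.LC

open MeasureTheory Set Filter Topology
open Pool.Agent.T2h31.SB (Lb sv)

/-- the theorem for measures -/
theorem t_MEAB (hG : S_GENB) (hM : S_MLC) : S_MEAB := by
  intro n hn f μ hf h1 hμ hev R hne
  subst hμ
  have hI := hf.int
  have h0 := hf.nonneg
  have hC : MeasurableSet {x : Fin n → ℝ | ∀ p q, R p q → sv x p ≤ sv x q} :=
    (MEAB.cone_closed R).measurableSet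
  obtain ⟨C, hCdef⟩ : ∃ C : Set (Fin n → ℝ), C = {x | ∀ p q, R p q → sv x p ≤ sv x q} := ⟨_, rfl⟩
  rw [← hCdef] at hC hne ⊢
  obtain ⟨hpos, hprob, hint⟩ := MEAB.cond_eq h0 hI hC hne
  have hPL := hG n hn f hf hev R (by
    rw [← hCdef, ← integral_indicator hC]
    exact hpos)
  rw [← hCdef] at hPL
  obtain ⟨ν, hν⟩ : ∃ ν : Measure (Fin n → ℝ), ν = ProbabilityTheory.cond (Measure.pi fun _ : Fin n =>
      (volume : Measure ℝ).withDensity fun x => ENNReal.ofReal (f x)) C := ⟨_, rfl⟩
  rw [← hν] at hprob hint ⊢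
  obtain ⟨m, hm⟩ : ∃ m : ℝ, m = ∫ x, C.indicator (pp f) x := ⟨_, rfl⟩
  have hvar : ∀ g : (Fin n → ℝ) → ℝ, MemLp g 2 ν →
      ProbabilityTheory.variance g ν * m ^ 2 =
        m * (∫ x, g x ^ 2 * C.indicator (pp f) x) - (∫ x, g x * C.indicator (pp f) x) ^ 2 := by
    intro g hg
    rw [ProbabilityTheory.variance_eq_sub hg]
    have e1 : ∫ x, (g ^ 2) x ∂ν = m⁻¹ * ∫ x, g x ^ 2 * C.indicator (pp f) x := by
      rw [hm]
      exact (hint (fun x => g x ^ 2)).2
    have e2 : ∫ x, g x ∂ν = m⁻¹ * ∫ x, g x * C.indicator (pp f) x := by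
      rw [hm]
      exact (hint g).2
    rw [e1, e2]
    have hm0 : m ≠ 0 := by rw [hm]; exact hpos.ne'
    field_simp
  have hh : Integrable (C.indicator (pp f)) := (MEAB.pp_int hI).indicator hC
  have hh0 : ∀ x, 0 ≤ C.indicator (pp f) x := fun x =>
    Set.indicator_nonneg (fun y _ => MEAB.pp_nonneg h0 y) x
  have hlin : ∀ θ : Fin n → ℝ, MemLp (fun x : Fin n → ℝ => ∑ i, θ i * x i) 2 ν := by
    intro θ
    have hcont : Continuous fun x : Fin n → ℝ => ∑ i, θ i * x i := by fun_prop
    rw [memLp_two_iff_integrable_sq hcont.aestronglyMeasurable, (hint _).1]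
    have hdom : Integrable fun x : Fin n → ℝ =>
        (∑ i, θ i ^ 2) * ∑ i, x i ^ 2 * C.indicator (pp f) x := by
      refine (integrable_finsetSum _ fun i _ => ?_).const_mul _
      have := (MEAB.sq_int hI (hM f hf) i).indicator hC
      refine this.congr (Eventually.of_forall fun x => ?_)
      by_cases hx : x ∈ C
      · simp [hx]
      · simp [hx]
    refine hdom.mono' ?_ (Eventually.of_forall fun x => ?_)
    · exact ((hcont.pow 2).aestronglyMeasurable).mul hh.aestronglyMeasurable
    · rw [Real.norm_eq_abs, abs_of_nonneg (mul_nonneg (sq_nonneg _) (hh0 x)), ← Finset.sum_mul,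
        ← mul_assoc]
      exact mul_le_mul_of_nonneg_right (Finset.sum_mul_sq_le_sq_mul_sq _ _ _) (hh0 x)
  intro s hs g hg hg2 hgr
  have hmpos : 0 < m := by rw [hm]; exact hpos
  have key := hPL s (by
    intro θ hθ
    have h2 := hs θ hθ
    have h3 := hvar _ (hlin θ)
    rw [← hm]
    calc _ = ProbabilityTheory.variance (fun x => ∑ i, θ i * x i) ν * m ^ 2 := h3.symm
      _ ≤ s * m ^ 2 := mul_le_mul_of_nonneg_right h2 (sq_nonneg _)) g hg
    ((hint (fun x => g x ^ 2)).1.1 hg2.integrable_sq)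
    ((hint (fun x => ∑ i, pd g i x ^ 2)).1.1 hgr)
  rw [← hm] at key
  rw [← hvar g hg2] at key
  have e3 : ∫ x, ∑ i, pd g i x ^ 2 ∂ν =
      m⁻¹ * ∫ x, (∑ i, pd g i x ^ 2) * C.indicator (pp f) x := by
    rw [hm]
    exact (hint (fun x => ∑ i, pd g i x ^ 2)).2
  rw [e3]
  have hm2 : 0 < m ^ 2 := by positivity
  refine le_of_mul_le_mul_right (key.trans (le_of_eq ?_)) hm2
  field_simp

end Pool.Agent.T2h31.LC
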