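import Pool.Agent.T2h31.LC.Stm

/-!
# MLC: a log-concave integrable function has a second moment
-/

set_option autoImplicit false

namespace Pool.Agent.T2h31.LC

open MeasureTheory Set Filter Topology

namespace MLC

theorem refl {f : ℝ → ℝ} (hf : LCf f) : LCf (fun x => f (-x)) where
  nonneg x := hf.nonneg _
  lc x y t ht0 ht1 := by
    have := hf.lc (-x) (-y) t ht0 ht1
    have e : (1 - t) * -x + t * -y = -((1 - t) * x + t * y) := by ring
    rw [e] at this
    exact this
  int := hf.int.comp_neg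
  pos := by
    have : ∫ x, f (-x) = ∫ x, f x := integral_neg_eq_self f volume
    rw [this]
    exact hf.pos

theorem exists_pos {f : ℝ → ℝ} (hf : LCf f) : ∃ x, 0 < f x := by
  by_contra h
  push Not at h
  have : f = fun _ => 0 := funext fun x => le_antisymm (h x) (hf.nonneg x)
  have h1 := hf.pos
  rw [this] at h1
  simp at h1

theorem exists_lt {f : ℝ → ℝ} (hf : LCf f) {x₀ : ℝ} (h0 : 0 < f x₀) : ∃ x₁, x₀ < x₁ ∧ f x₁ < f x₀ := by
  by_contra h
  push Not at h
  have h1 : IntegrableOn (fun _ : ℝ => f x₀) (Ioi x₀) := by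
    refine Integrable.mono' hf.int.integrableOn aestronglyMeasurable_const ?_
    refine (ae_restrict_iff' measurableSet_Ioi).2 (Eventually.of_forall fun x hx => ?_)
    rw [Real.norm_of_nonneg h0.le]
    exact h x hx
  rw [integrableOn_const_iff] at h1
  rcases h1 with h1 | h1
  · exact h0.ne' (by simpa using h1)
  · simp at h1

theorem decay {f : ℝ → ℝ} (hf : LCf f) : ∃ x₁ C κ : ℝ, 0 ≤ C ∧ 0 < κ ∧ ∀ x, x₁ ≤ x →
    x ^ 2 * f x ≤ C * Real.exp (-κ * x) := by
  obtain ⟨x₀, h0⟩ := exists_pos hf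
  obtain ⟨x₁, h01, h1⟩ := exists_lt hf h0
  set r : ℝ := max (f x₁ / f x₀) (1 / 2) with hr
  have hr0 : 0 < r := lt_of_lt_of_le (by norm_num) (le_max_right _ _)
  have hr1 : r < 1 := max_lt ((div_lt_one h0).2 h1) (by norm_num)
  set d : ℝ := x₁ - x₀ with hd
  have hd0 : 0 < d := sub_pos.2 h01
  set κ : ℝ := -Real.log r / d with hκ
  have hlog : Real.log r < 0 := Real.log_neg hr0 hr1
  have hκ0 : 0 < κ := div_pos (by linarith) hd0
  -- exponential decay
  have key : ∀ x, x₁ ≤ x → f x ≤ f x₀ * Real.exp (-κ * (x - x₀)) := by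
    intro x hx
    have hxx : 0 < x - x₀ := by linarith
    rcases hx.eq_or_lt with rfl | hlt
    · have e : Real.exp (-κ * (x₁ - x₀)) = r := by
        rw [hκ, ← hd]
        have : -(-Real.log r / d) * d = Real.log r := by field_simp
        rw [this, Real.exp_log hr0]
      rw [e]
      calc f x₁ = f x₀ * (f x₁ / f x₀) := by field_simp
        _ ≤ f x₀ * r := mul_le_mul_of_nonneg_left (le_max_left _ _) h0.le
    · set t : ℝ := d / (x - x₀) with ht
      have ht0 : 0 < t := div_pos hd0 hxx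
      have ht1 : t < 1 := (div_lt_one hxx).2 (by linarith)
      have hlc := hf.lc x₀ x t ht0 ht1
      have e : (1 - t) * x₀ + t * x = x₁ := by
        have : t * (x - x₀) = d := by rw [ht]; field_simp
        linear_combination this
      rw [e] at hlc
      -- f x ^ t ≤ f x₀ ^ t * r
      have h2 : f x ^ t ≤ f x₀ ^ t * r := by
        have h3 : 0 < f x₀ ^ (1 - t) := Real.rpow_pos_of_pos h0 _
        have h4 : f x ^ t ≤ f x₁ / f x₀ ^ (1 - t) := by
          rw [le_div_iff₀ h3]; linarith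
        refine h4.trans ?_
        rw [div_le_iff₀ h3]
        have h5 : f x₀ ^ t * r * f x₀ ^ (1 - t) = f x₀ * r := by
          have : f x₀ ^ t * f x₀ ^ (1 - t) = f x₀ := by
            rw [← Real.rpow_add h0]; simp
          calc f x₀ ^ t * r * f x₀ ^ (1 - t) = (f x₀ ^ t * f x₀ ^ (1 - t)) * r := by ring
            _ = f x₀ * r := by rw [this]
        rw [h5]
        calc f x₁ = f x₀ * (f x₁ / f x₀) := by field_simp
          _ ≤ f x₀ * r := mul_le_mul_of_nonneg_left (le_max_left _ _) h0.le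
      have h6 : (f x ^ t) ^ (1 / t) ≤ (f x₀ ^ t * r) ^ (1 / t) :=
        Real.rpow_le_rpow (Real.rpow_nonneg (hf.nonneg x) _) h2 (by positivity)
      rw [← Real.rpow_mul (hf.nonneg x), Real.mul_rpow (Real.rpow_nonneg h0.le _) hr0.le,
        ← Real.rpow_mul h0.le, mul_one_div_cancel ht0.ne', Real.rpow_one, Real.rpow_one] at h6
      refine h6.trans (mul_le_mul_of_nonneg_left (le_of_eq ?_) h0.le)
      rw [Real.rpow_def_of_pos hr0]
      congr 1
      rw [hκ, ht]
      field_simp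
  set κ' : ℝ := κ / 2 with hκ'
  have hκ'0 : 0 < κ' := by rw [hκ']; linarith
  refine ⟨x₁, f x₀ * (4 / κ' ^ 2 + 2 * x₀ ^ 2) * Real.exp (κ' * x₀), κ', by positivity, hκ'0, fun x hx => ?_⟩
  have hu : 0 ≤ x - x₀ := by linarith
  set u := x - x₀ with hud
  have h7 : x ^ 2 ≤ 2 * u ^ 2 + 2 * x₀ ^ 2 := by
    have : x = u + x₀ := by rw [hud]; ring
    rw [this]; nlinarith [sq_nonneg (u - x₀)]
  have h8 : (κ' * u) ^ 2 / 2 ≤ Real.exp (κ' * u) := by
    have := Real.quadratic_le_exp_of_nonneg (mul_nonneg hκ'0.le hu)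
    have h9 := mul_nonneg hκ'0.le hu
    linarith
  have h9 : 2 * u ^ 2 ≤ 4 / κ' ^ 2 * Real.exp (κ' * u) := by
    rw [div_mul_eq_mul_div, le_div_iff₀ (by positivity)]
    nlinarith
  have h10 : 1 ≤ Real.exp (κ' * u) := Real.one_le_exp (mul_nonneg hκ'0.le hu)
  have h11 : x ^ 2 ≤ (4 / κ' ^ 2 + 2 * x₀ ^ 2) * Real.exp (κ' * u) := by
    have : 2 * x₀ ^ 2 ≤ 2 * x₀ ^ 2 * Real.exp (κ' * u) := le_mul_of_one_le_right (by positivity) h10
    rw [add_mul]
    linarith
  calc x ^ 2 * f x ≤ ((4 / κ' ^ 2 + 2 * x₀ ^ 2) * Real.exp (κ' * u)) * (f x₀ * Real.exp (-κ * u)) :=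
        mul_le_mul h11 (key x hx) (hf.nonneg x) (by positivity)
    _ = f x₀ * (4 / κ' ^ 2 + 2 * x₀ ^ 2) * (Real.exp (κ' * u) * Real.exp (-κ * u)) := by ring
    _ = f x₀ * (4 / κ' ^ 2 + 2 * x₀ ^ 2) * (Real.exp (κ' * x₀) * Real.exp (-κ' * x)) := by
        rw [← Real.exp_add, ← Real.exp_add]
        congr 2
        rw [hκ', hud]
        ring
    _ = _ := by ring

end MLC

open MLC in
theorem t_MLC : S_MLC := by
  intro f hf
  obtain ⟨x₁, C₁, κ₁, hC₁, hκ₁, h1⟩ := decay hf
  obtain ⟨x₂, C₂, κ₂, hC₂, hκ₂, h2⟩ := decay (refl hf)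
  have i1 : Integrable ((Ici x₁).indicator fun x : ℝ => C₁ * Real.exp (-κ₁ * x)) := by
    rw [integrable_indicator_iff measurableSet_Ici, integrableOn_Ici_iff_integrableOn_Ioi]
    exact (integrableOn_exp_mul_Ioi (by linarith) x₁).const_mul C₁
  have i2 : Integrable ((Iic (-x₂)).indicator fun x : ℝ => C₂ * Real.exp (κ₂ * x)) := by
    rw [integrable_indicator_iff measurableSet_Iic]
    exact (integrableOn_exp_mul_Iic hκ₂ (-x₂)).const_mul C₂
  have i3 : Integrable fun x => (x₁ ^ 2 + x₂ ^ 2) * f x := hf.int.const_mul _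
  refine ((i1.add i2).add i3).mono' ((continuous_pow 2).aestronglyMeasurable.mul hf.int.1)
    (Eventually.of_forall fun x => ?_)
  rw [Real.norm_of_nonneg (mul_nonneg (sq_nonneg x) (hf.nonneg x))]
  simp only [Pi.add_apply]
  have p1 : 0 ≤ (Ici x₁).indicator (fun x : ℝ => C₁ * Real.exp (-κ₁ * x)) x :=
    indicator_nonneg (fun _ _ => by positivity) x
  have p2 : 0 ≤ (Iic (-x₂)).indicator (fun x : ℝ => C₂ * Real.exp (κ₂ * x)) x :=
    indicator_nonneg (fun _ _ => by positivity) x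
  have p3 : 0 ≤ (x₁ ^ 2 + x₂ ^ 2) * f x := mul_nonneg (by positivity) (hf.nonneg x)
  by_cases c1 : x₁ ≤ x
  · have := h1 x c1
    rw [indicator_of_mem (mem_Ici.2 c1)]
    linarith
  · by_cases c2 : x ≤ -x₂
    · have := h2 (-x) (by linarith)
      rw [neg_neg, neg_sq] at this
      rw [indicator_of_mem (mem_Iic.2 c2)]
      have e : -κ₂ * -x = κ₂ * x := by ring
      rw [e] at this
      linarith
    · push Not at c1 c2
      have hx : x ^ 2 ≤ x₁ ^ 2 + x₂ ^ 2 := by
        rcases le_total 0 x with h | h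
        · nlinarith [sq_nonneg x₂]
        · nlinarith [sq_nonneg x₁]
      have := mul_le_mul_of_nonneg_right hx (hf.nonneg x)
      linarith

end Pool.Agent.T2h31.LC
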