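import Pool.Agent.T2h31.LC.Stm

set_option autoImplicit false

namespace Pool.Agent.T2h31.LC.ONE

open MeasureTheory Set Filter Topology

variable {f : ℝ → ℝ} {a b : ℝ}

theorem pos (h : Smo f a b) (x : ℝ) : 0 < f x := by
  obtain ⟨m, hm, hf⟩ := h.low
  exact hm.trans_le (hf x)

theorem diff (h : Smo f a b) : Differentiable ℝ f := h.smooth.differentiable one_ne_zero

theorem cont (h : Smo f a b) : Continuous f := h.smooth.continuous

theorem cont' (h : Smo f a b) : Continuous (deriv f) := h.smooth.continuous_deriv le_rfl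

theorem concave (h : Smo f a b) : ConcaveOn ℝ (Icc a b) (fun x => Real.log (f x)) := by
  have hd : ∀ x, HasDerivAt (fun x => Real.log (f x)) (deriv f x / f x) x := fun x =>
    ((diff h) x).hasDerivAt.log (pos h x).ne'
  refine AntitoneOn.concaveOn_of_deriv (convex_Icc a b)
    (fun x _ => (hd x).continuousAt.continuousWithinAt)
    (fun x _ => (hd x).differentiableAt.differentiableWithinAt) ?_
  have : deriv (fun x => Real.log (f x)) = fun x => deriv f x / f x := by
    funext x
    exact (hd x).deriv
  rw [this]
  exact h.lc.mono interior_subset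

theorem four (h : Smo f a b) {p q u : ℝ} (hp : p ∈ Icc a b) (hq : q ∈ Icc a b) (hu1 : p ≤ u)
    (hu2 : u ≤ q) : f p * f q ≤ f u * f (p + q - u) := by
  have hc := concave h
  rcases eq_or_lt_of_le (hu1.trans hu2) with hpq | hpq
  · have hu : u = p := le_antisymm (by linarith) hu1
    subst hu
    subst hpq
    simp
  set l : ℝ := (q - u) / (q - p) with hl
  have hqp : 0 < q - p := by linarith
  have hl0 : 0 ≤ l := div_nonneg (by linarith) hqp.le
  have hl1 : l ≤ 1 := (div_le_one hqp).2 (by linarith)
  have hlm : l * (q - p) = q - u := div_mul_cancel₀ _ hqp.ne'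
  have e1 : l • p + (1 - l) • q = u := by
    simp only [smul_eq_mul]
    nlinarith
  have e2 : (1 - l) • p + l • q = p + q - u := by
    simp only [smul_eq_mul]
    nlinarith
  have h1 := hc.2 hp hq hl0 (by linarith : (0 : ℝ) ≤ 1 - l) (by ring)
  have h2 := hc.2 hp hq (by linarith : (0 : ℝ) ≤ 1 - l) hl0 (by ring)
  rw [e1] at h1
  rw [e2] at h2
  simp only [smul_eq_mul] at h1 h2
  have h3 : Real.log (f p) + Real.log (f q) ≤ Real.log (f u) + Real.log (f (p + q - u)) := by
    linarith
  rw [← Real.log_mul (pos h _).ne' (pos h _).ne', ← Real.log_mul (pos h _).ne' (pos h _).ne'] at h3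
  exact (Real.log_le_log_iff (mul_pos (pos h _) (pos h _)) (mul_pos (pos h _) (pos h _))).1 h3

theorem ii (h : Smo f a b) (x y : ℝ) : IntervalIntegrable f volume x y :=
  (cont h).intervalIntegrable x y

theorem sub_le (h : Smo f a b) {c d : ℝ} (hc : a ≤ c) (hcd : c ≤ d) (hd : d ≤ b) :
    ∫ t in c..d, f t ≤ ∫ t in a..b, f t :=
  intervalIntegral.integral_mono_interval hc hcd hd
    (Filter.Eventually.of_forall fun x => (pos h x).le) (ii h a b)

theorem nonneg (h : Smo f a b) {c d : ℝ} (hcd : c ≤ d) : 0 ≤ ∫ t in c..d, f t :=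
  intervalIntegral.integral_nonneg hcd fun x _ => (pos h x).le

theorem part1 (h : Smo f a b) : ∀ x ∈ Icc a b, ∀ y ∈ Icc a b,
    min (∫ t in a..x, f t) (∫ t in x..b, f t) * f y ≤ (∫ t in a..b, f t) * f x := by
  intro x hx y hy
  rcases le_total x y with hxy | hxy
  · calc min (∫ t in a..x, f t) (∫ t in x..b, f t) * f y ≤ (∫ t in a..x, f t) * f y :=
          mul_le_mul_of_nonneg_right (min_le_left _ _) (pos h y).le
      _ = ∫ t in a..x, f t * f y := by rw [intervalIntegral.integral_mul_const]
      _ ≤ ∫ t in a..x, f x * f (t + (y - x)) := by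
          refine intervalIntegral.integral_mono_on hx.1
            (((cont h).mul continuous_const).intervalIntegrable _ _)
            ((continuous_const.mul ((cont h).comp (continuous_id.add
              continuous_const))).intervalIntegrable _ _) ?_
          intro t ht
          have := four h (p := t) (q := y) (u := x) ⟨ht.1, ht.2.trans hx.2⟩ hy ht.2 hxy
          rwa [show t + y - x = t + (y - x) by ring] at this
      _ = f x * ∫ t in a..x, f (t + (y - x)) := by rw [intervalIntegral.integral_const_mul]
      _ = f x * ∫ t in (a + (y - x))..(x + (y - x)), f t := by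
          rw [intervalIntegral.integral_comp_add_right]
      _ ≤ f x * ∫ t in a..b, f t :=
          mul_le_mul_of_nonneg_left (sub_le h (by linarith) (by linarith [hx.1])
            (by linarith [hy.2])) (pos h x).le
      _ = (∫ t in a..b, f t) * f x := mul_comm _ _
  · calc min (∫ t in a..x, f t) (∫ t in x..b, f t) * f y ≤ (∫ t in x..b, f t) * f y :=
          mul_le_mul_of_nonneg_right (min_le_right _ _) (pos h y).le
      _ = ∫ t in x..b, f t * f y := by rw [intervalIntegral.integral_mul_const]
      _ ≤ ∫ t in x..b, f x * f (t + (y - x)) := by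
          refine intervalIntegral.integral_mono_on hx.2
            (((cont h).mul continuous_const).intervalIntegrable _ _)
            ((continuous_const.mul ((cont h).comp (continuous_id.add
              continuous_const))).intervalIntegrable _ _) ?_
          intro t ht
          have := four h (p := y) (q := t) (u := x) hy ⟨hx.1.trans ht.1, ht.2⟩ hxy ht.1
          rw [show y + t - x = t + (y - x) by ring] at this
          rwa [mul_comm (f t)]
      _ = f x * ∫ t in x..b, f (t + (y - x)) := by rw [intervalIntegral.integral_const_mul]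
      _ = f x * ∫ t in (x + (y - x))..(b + (y - x)), f t := by
          rw [intervalIntegral.integral_comp_add_right]
      _ ≤ f x * ∫ t in a..b, f t :=
          mul_le_mul_of_nonneg_left (sub_le h (by linarith [hy.1]) (by linarith [hx.2])
            (by linarith)) (pos h x).le
      _ = (∫ t in a..b, f t) * f x := mul_comm _ _

theorem part2 (h : Smo f a b) : ∀ x ∈ Icc a b,
    |deriv f x| * min (∫ t in a..x, f t) (∫ t in x..b, f t) ≤ f x ^ 2 := by
  intro x hx
  have hfx := pos h x
  have ftc : ∀ c d : ℝ, ∫ t in c..d, deriv f t = f d - f c := fun c d =>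
    intervalIntegral.integral_deriv_eq_sub (fun y _ => (diff h) y)
      ((cont' h).intervalIntegrable _ _)
  rcases le_total 0 (deriv f x) with hd | hd
  · rw [abs_of_nonneg hd]
    have h1 : (deriv f x / f x) * ∫ t in a..x, f t ≤ f x - f a := by
      rw [← ftc a x, ← intervalIntegral.integral_const_mul]
      refine intervalIntegral.integral_mono_on hx.1
        ((continuous_const.mul (cont h)).intervalIntegrable _ _)
        ((cont' h).intervalIntegrable _ _) ?_
      intro t ht
      have h2 : deriv f x / f x ≤ deriv f t / f t := h.lc ⟨ht.1, ht.2.trans hx.2⟩ hx ht.2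
      have h3 := mul_le_mul_of_nonneg_right h2 (pos h t).le
      rwa [div_mul_cancel₀ _ (pos h t).ne'] at h3
    have h4 : deriv f x * ∫ t in a..x, f t ≤ f x ^ 2 := by
      have h5 : (deriv f x / f x) * (∫ t in a..x, f t) ≤ f x := by
        linarith [pos h a]
      have h6 := mul_le_mul_of_nonneg_right h5 hfx.le
      have h7 : deriv f x / f x * (∫ t in a..x, f t) * f x = deriv f x * ∫ t in a..x, f t := by
        field_simp
      rw [h7] at h6
      rw [pow_two]
      exact h6
    exact (mul_le_mul_of_nonneg_left (min_le_left _ _) hd).trans h4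
  · rw [abs_of_nonpos hd]
    have h1 : (-(deriv f x / f x)) * ∫ t in x..b, f t ≤ f x - f b := by
      have : f x - f b = ∫ t in x..b, -deriv f t := by
        rw [intervalIntegral.integral_neg, ftc x b]
        ring
      rw [this, ← intervalIntegral.integral_const_mul]
      refine intervalIntegral.integral_mono_on hx.2
        ((continuous_const.mul (cont h)).intervalIntegrable _ _)
        ((cont' h).neg.intervalIntegrable _ _) ?_
      intro t ht
      have h2 : deriv f t / f t ≤ deriv f x / f x := h.lc hx ⟨hx.1.trans ht.1, ht.2⟩ ht.1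
      have h3 := mul_le_mul_of_nonneg_right h2 (pos h t).le
      rw [div_mul_cancel₀ _ (pos h t).ne'] at h3
      show -(deriv f x / f x) * f t ≤ -deriv f t
      linarith
    have h4 : -deriv f x * ∫ t in x..b, f t ≤ f x ^ 2 := by
      have h5 : (-(deriv f x / f x)) * (∫ t in x..b, f t) ≤ f x := by
        linarith [pos h b]
      have h6 := mul_le_mul_of_nonneg_right h5 hfx.le
      have h7 : -(deriv f x / f x) * (∫ t in x..b, f t) * f x = -deriv f x * ∫ t in x..b, f t := by
        field_simp
      rw [h7] at h6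
      rw [pow_two]
      exact h6
    exact (mul_le_mul_of_nonneg_left (min_le_right _ _) (by linarith)).trans h4

theorem bump (a b m r : ℝ) (hab : a ≤ b) (hr : 0 ≤ r) :
    ∫ t in a..b, max (r ^ 2 - (t - m) ^ 2) 0 ≤ 4 * r ^ 3 / 3 := by
  have hcont : Continuous fun t : ℝ => max (r ^ 2 - (t - m) ^ 2) 0 := by fun_prop
  have hii : ∀ c d : ℝ, IntervalIntegrable (fun t : ℝ => max (r ^ 2 - (t - m) ^ 2) 0) volume c d :=
    fun c d => hcont.intervalIntegrable c d
  set A := min a (m - r) with hA
  set B := max b (m + r) with hB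
  have hA1 : A ≤ a := min_le_left _ _
  have hA2 : A ≤ m - r := min_le_right _ _
  have hB1 : b ≤ B := le_max_left _ _
  have hB2 : m + r ≤ B := le_max_right _ _
  have h1 : ∫ t in a..b, max (r ^ 2 - (t - m) ^ 2) 0 ≤
      ∫ t in A..B, max (r ^ 2 - (t - m) ^ 2) 0 :=
    intervalIntegral.integral_mono_interval hA1 hab hB1
      (Filter.Eventually.of_forall fun x => le_max_right _ _) (hii _ _)
  refine h1.trans (le_of_eq ?_)
  rw [← intervalIntegral.integral_add_adjacent_intervals (hii A (m - r)) (hii (m - r) B),
    ← intervalIntegral.integral_add_adjacent_intervals (hii (m - r) (m + r)) (hii (m + r) B)]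
  have e1 : ∫ t in A..(m - r), max (r ^ 2 - (t - m) ^ 2) 0 = 0 := by
    rw [intervalIntegral.integral_congr (g := fun _ => (0 : ℝ))]
    · simp
    · intro t ht
      rw [uIcc_of_le hA2] at ht
      exact max_eq_right (by nlinarith [ht.2])
  have e3 : ∫ t in (m + r)..B, max (r ^ 2 - (t - m) ^ 2) 0 = 0 := by
    rw [intervalIntegral.integral_congr (g := fun _ => (0 : ℝ))]
    · simp
    · intro t ht
      rw [uIcc_of_le hB2] at ht
      exact max_eq_right (by nlinarith [ht.1])
  have e2 : ∫ t in (m - r)..(m + r), max (r ^ 2 - (t - m) ^ 2) 0 = 4 * r ^ 3 / 3 := by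
    rw [intervalIntegral.integral_congr (g := fun t => r ^ 2 - (t - m) ^ 2)]
    · rw [intervalIntegral.integral_comp_sub_right (fun t => r ^ 2 - t ^ 2) m,
        intervalIntegral.integral_sub (by simp) ((continuous_pow 2).intervalIntegrable _ _),
        intervalIntegral.integral_const, integral_pow]
      simp only [smul_eq_mul]
      norm_num
      ring
    · intro t ht
      rw [uIcc_of_le (by linarith)] at ht
      exact max_eq_left (by nlinarith [ht.1, ht.2])
  rw [e1, e2, e3]
  ring

theorem part3 (h : Smo f a b) (M : ℝ) (hM : ∀ x ∈ Icc a b, f x ≤ M) :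
    (∫ t in a..b, f t) ^ 4 ≤
      12 * M ^ 2 * ((∫ t in a..b, f t) * (∫ t in a..b, t ^ 2 * f t) - (∫ t in a..b, t * f t) ^ 2) := by
  have hab := h.lt
  set Z := ∫ t in a..b, f t with hZ
  set I1 := ∫ t in a..b, t * f t with hI1
  set I2 := ∫ t in a..b, t ^ 2 * f t with hI2
  have hM0 : 0 < M := (pos h a).trans_le (hM a ⟨le_rfl, hab.le⟩)
  have hZ0 : 0 < Z := intervalIntegral.intervalIntegral_pos_of_pos (ii h a b) (pos h) hab
  set m := I1 / Z with hm
  set r := Z / (2 * M) with hr
  have hr0 : 0 ≤ r := by positivity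
  have c1 : IntervalIntegrable (fun t => t * f t) volume a b :=
    (continuous_id.mul (cont h)).intervalIntegrable _ _
  have c2 : IntervalIntegrable (fun t => t ^ 2 * f t) volume a b :=
    ((continuous_pow 2).mul (cont h)).intervalIntegrable _ _
  have key : r ^ 2 * Z - M * (4 * r ^ 3 / 3) ≤ ∫ t in a..b, (t - m) ^ 2 * f t := by
    have h1 : ∫ t in a..b, (-M) * max (r ^ 2 - (t - m) ^ 2) 0 ≤
        ∫ t in a..b, ((t - m) ^ 2 - r ^ 2) * f t := by
      refine intervalIntegral.integral_mono_on hab.le (Continuous.intervalIntegrable (by fun_prop) _ _)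
        (Continuous.intervalIntegrable (by have := cont h; fun_prop) _ _) ?_
      intro t ht
      have hft := hM t ht
      have hft0 := pos h t
      rcases le_total 0 (r ^ 2 - (t - m) ^ 2) with h2 | h2
      · rw [max_eq_left h2]
        nlinarith
      · rw [max_eq_right h2]
        nlinarith
    rw [intervalIntegral.integral_const_mul] at h1
    have h2 := bump a b m r hab.le hr0
    have h3 : ∫ t in a..b, ((t - m) ^ 2 - r ^ 2) * f t =
        (∫ t in a..b, (t - m) ^ 2 * f t) - r ^ 2 * Z := by
      rw [hZ, ← intervalIntegral.integral_const_mul, ← intervalIntegral.integral_sub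
        (Continuous.intervalIntegrable (by have := cont h; fun_prop) _ _)
        (Continuous.intervalIntegrable (by have := cont h; fun_prop) _ _)]
      refine intervalIntegral.integral_congr fun t _ => ?_
      show ((t - m) ^ 2 - r ^ 2) * f t = (t - m) ^ 2 * f t - r ^ 2 * f t
      ring
    rw [h3] at h1
    nlinarith
  have hexp : ∫ t in a..b, (t - m) ^ 2 * f t = I2 - 2 * m * I1 + m ^ 2 * Z := by
    rw [hI2, hI1, hZ, ← intervalIntegral.integral_const_mul, ← intervalIntegral.integral_const_mul,
      ← intervalIntegral.integral_sub c2 (c1.const_mul _),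
      ← intervalIntegral.integral_add (c2.sub (c1.const_mul _)) ((ii h a b).const_mul _)]
    refine intervalIntegral.integral_congr fun t _ => ?_
    show (t - m) ^ 2 * f t = t ^ 2 * f t - 2 * m * (t * f t) + m ^ 2 * f t
    ring
  have hmZ : m * Z = I1 := div_mul_cancel₀ _ hZ0.ne'
  have hrM : r * (2 * M) = Z := div_mul_cancel₀ _ (by positivity)
  have hv : Z * I2 - I1 ^ 2 = Z * ∫ t in a..b, (t - m) ^ 2 * f t := by
    rw [hexp, ← hmZ]
    ring
  rw [hv]
  have e : 12 * M ^ 2 * (Z * (r ^ 2 * Z - M * (4 * r ^ 3 / 3))) = Z ^ 4 := by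
    rw [← hrM]
    ring
  calc Z ^ 4 = 12 * M ^ 2 * (Z * (r ^ 2 * Z - M * (4 * r ^ 3 / 3))) := e.symm
    _ ≤ 12 * M ^ 2 * (Z * ∫ t in a..b, (t - m) ^ 2 * f t) := by
        gcongr

end Pool.Agent.T2h31.LC.ONE

namespace Pool.Agent.T2h31.LC

theorem t_ONE : S_ONE := fun _ _ _ h => ⟨ONE.part1 h, ONE.part2 h, ONE.part3 h⟩

end Pool.Agent.T2h31.LC
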