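import Pool.Agent.T2h31.LC.Stm

set_option autoImplicit false

namespace Pool.Agent.T2h31.LC

open MeasureTheory Set Filter Topology

theorem t_QEX : S_QEX := by
  intro f κ a hf ⟨m, hm, hfm⟩ hκ
  have hfc : Continuous f := hf.continuous
  have hfpos : ∀ x, 0 < f x := fun x => hm.trans_le (hfm x)
  set G : ℝ → ℝ := fun x => (∫ t in a..x, f t) / κ with hG
  have hGd : ∀ x, HasDerivAt G (f x / κ) x := fun x =>
    (hfc.integral_hasStrictDerivAt a x).hasDerivAt.div_const κ
  have hGmono : StrictMono G := strictMono_of_deriv_pos fun x => by
    rw [(hGd x).deriv]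
    exact div_pos (hfpos x) hκ
  have hGc : Continuous G := continuous_iff_continuousAt.2 fun x => (hGd x).continuousAt
  have hmk : 0 < m / κ := div_pos hm hκ
  have hH : Monotone fun x => G x - m / κ * x := by
    have hd : ∀ x, HasDerivAt (fun x => G x - m / κ * x) (f x / κ - m / κ * 1) x := fun x =>
      (hGd x).sub ((hasDerivAt_id x).const_mul _)
    refine monotone_of_deriv_nonneg (fun x => (hd x).differentiableAt) fun x => ?_
    rw [(hd x).deriv, mul_one]
    have := div_le_div_of_nonneg_right (hfm x) hκ.le
    linarith
  have hGa : G a = 0 := by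
    simp [hG]
  have htop : Tendsto G atTop atTop := by
    have h1 : Tendsto (fun x : ℝ => m / κ * x + (G a - m / κ * a)) atTop atTop :=
      tendsto_atTop_add_const_right _ _ (tendsto_id.const_mul_atTop hmk)
    refine tendsto_atTop_mono' atTop ?_ h1
    filter_upwards [eventually_ge_atTop a] with x hx
    have := hH hx
    simp only at this
    linarith
  have hbot : Tendsto G atBot atBot := by
    have h1 : Tendsto (fun x : ℝ => m / κ * x + (G a - m / κ * a)) atBot atBot :=
      tendsto_atBot_add_const_right _ _ (tendsto_id.const_mul_atBot hmk)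
    refine tendsto_atBot_mono' atBot ?_ h1
    filter_upwards [eventually_le_atBot a] with x hx
    have := hH hx
    simp only at this
    linarith
  have hsurj : Function.Surjective G := hGc.surjective htop hbot
  let e := StrictMono.orderIsoOfSurjective G hGmono hsurj
  have he : ∀ s, G (e.symm s) = s := fun s => e.apply_symm_apply s
  have hqd : ∀ s, HasDerivAt (fun s => e.symm s) (κ / f (e.symm s)) s := by
    intro s
    have h1 := HasDerivAt.of_local_left_inverse (f := G) (g := fun s => e.symm s)
      (f' := f (e.symm s) / κ) (a := s) e.symm.continuous.continuousAt (hGd _)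
      (div_pos (hfpos _) hκ).ne' (Filter.Eventually.of_forall he)
    rwa [inv_div] at h1
  have hder : deriv (fun s => e.symm s) = fun s => κ / f (e.symm s) := by
    funext s
    exact (hqd s).deriv
  have hdiff : Differentiable ℝ fun s => e.symm s := fun s => (hqd s).differentiableAt
  have hC1 : ContDiff ℝ 1 fun s => e.symm s := by
    rw [contDiff_one_iff_deriv, hder]
    exact ⟨hdiff, continuous_const.div (hfc.comp e.symm.continuous) fun s => (hfpos _).ne'⟩
  refine ⟨fun s => e.symm s, ?_, e.symm.strictMono, ?_, fun s => (hqd s).deriv, fun s => ?_⟩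
  · have h2 : ContDiff ℝ (1 + 1) fun s => e.symm s := by
      rw [contDiff_succ_iff_deriv, hder]
      refine ⟨hdiff, fun h => absurd h (by decide), ?_⟩
      exact contDiff_const.div (hf.comp hC1) fun s => (hfpos _).ne'
    have h3 : (1 + 1 : WithTop ℕ∞) = 2 := by norm_num
    rwa [h3] at h2
  · have h1 : G (e.symm 0) = G a := by rw [he, hGa]
    exact hGmono.injective h1
  · have h1 := he s
    rw [hG] at h1
    simp only at h1
    rw [div_eq_iff hκ.ne'] at h1
    rw [h1, mul_comm]

end Pool.Agent.T2h31.LC
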