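import Pool.Agent.T2h31.LC.SmCore

/-!
# Project LC, task SMB (helper67): smooth even densities, type B
-/

set_option autoImplicit false

namespace Pool.Agent.T2h31.LC

open MeasureTheory Set Filter Topology
open Pool.Agent.T2h31.SB (Lb sv SK)

namespace SMB

variable {n : ℕ}

theorem continuous_sv (p : Lb n) : Continuous fun x : Fin n → ℝ => sv x p := by
  unfold sv
  by_cases h : p.2 = true
  · simp only [h, if_true]
    exact continuous_apply _
  · simp only [h]
    exact (continuous_apply _).neg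

theorem compact_SK (R : Lb n → Lb n → Prop) : IsCompact (SK R) := by
  have h1 : SK R =
      Icc (fun _ : Fin n => (-1 : ℝ)) (fun _ => 1) ∩
        ⋂ p, ⋂ r, ⋂ (_ : R p r), {x : Fin n → ℝ | sv x p ≤ sv x r} := by
    ext x
    simp only [SK, mem_ofPred_eq, mem_inter_iff, mem_Icc, mem_iInter, Pi.le_def]
    exact ⟨fun h => ⟨⟨fun i => (h.1 i).1, fun i => (h.1 i).2⟩, h.2⟩,
      fun h => ⟨fun i => ⟨h.1.1 i, h.1.2 i⟩, h.2⟩⟩
  rw [h1]
  refine isCompact_Icc.inter_right ?_
  refine isClosed_iInter fun p => isClosed_iInter fun r => isClosed_iInter fun _ => ?_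
  exact isClosed_le (continuous_sv p) (continuous_sv r)

theorem sv_odd {q : ℝ → ℝ} (hodd : ∀ s, q (-s) = -q s) (u : Fin n → ℝ) (p : Lb n) :
    sv (fun i => q (u i)) p = q (sv u p) := by
  unfold sv
  by_cases h : p.2 = true
  · simp [h]
  · simp [h, hodd]

theorem image_SK (R : Lb n → Lb n → Prop) {q : ℝ → ℝ} (hc : Continuous q) (hm : StrictMono q)
    (hodd : ∀ s, q (-s) = -q s) {b : ℝ} (h1 : q 1 = b) :
    (fun u : Fin n → ℝ => fun i => q (u i)) '' SK R = KB b R := by
  have h0 : q (-1) = -b := by rw [hodd, h1]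
  ext x
  constructor
  · rintro ⟨u, hu, rfl⟩
    refine ⟨fun i => ⟨?_, ?_⟩, fun p r hpr => ?_⟩
    · rw [← h0]
      exact hm.monotone (hu.1 i).1
    · rw [← h1]
      exact hm.monotone (hu.1 i).2
    · rw [sv_odd hodd, sv_odd hodd]
      exact hm.monotone (hu.2 p r hpr)
  · intro hx
    have h2 : ∀ i, ∃ s ∈ Icc (-1 : ℝ) 1, q s = x i := by
      intro i
      have h3 := intermediate_value_Icc (show (-1 : ℝ) ≤ 1 by norm_num) hc.continuousOn
      exact h3 (by rw [h0, h1]; exact hx.1 i)
    choose u hu hqu using h2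
    have hqx : (fun i => q (u i)) = x := funext hqu
    refine ⟨u, ⟨fun i => hu i, fun p r hpr => ?_⟩, hqx⟩
    rw [← hm.le_iff_le, ← sv_odd hodd, ← sv_odd hodd, hqx]
    exact hx.2 p r hpr

end SMB

open SmCore SMB in
theorem t_SMB (h1 : S_POW) (h2 : S_ONE) (h3 : S_QEX) (h4 : S_CVQ) : S_SMB := by
  intro n R hR f b hsm hev g hg y hy
  obtain ⟨m, hm0, hmf⟩ := hsm.low
  have hfc : Continuous f := hsm.smooth.continuous
  have hfp : ∀ x, 0 < f x := fun x => lt_of_lt_of_le hm0 (hmf x)
  have hi : ∀ c d : ℝ, IntervalIntegrable f volume c d := fun c d => hfc.intervalIntegrable c d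
  have hZ : 0 < ∫ t in (-b)..b, f t :=
    intervalIntegral.intervalIntegral_pos_of_pos (hi (-b) b) hfp hsm.lt
  have hneg : ∀ x, ∫ t in (0 : ℝ)..(-x), f t = -∫ t in (0 : ℝ)..x, f t := by
    intro x
    have e1 : ∫ t in (0 : ℝ)..x, f (-t) = ∫ t in (-x)..(-0), f t :=
      intervalIntegral.integral_comp_neg f
    have e2 : ∫ t in (0 : ℝ)..x, f (-t) = ∫ t in (0 : ℝ)..x, f t := by
      congr 1
      funext t
      exact hev t
    rw [neg_zero] at e1
    rw [← e2, e1, intervalIntegral.integral_symm]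
  have hhalf : ∫ t in (0 : ℝ)..b, f t = (∫ t in (-b)..b, f t) / 2 := by
    have e1 := intervalIntegral.integral_add_adjacent_intervals (hi (-b) 0) (hi 0 b)
    have e2 := hneg b
    rw [intervalIntegral.integral_symm] at e2
    linarith
  obtain ⟨q, hq2, hqm, hq0, hqd, hqi⟩ := h3 f ((∫ t in (-b)..b, f t) / 2) 0 hsm.smooth
    ⟨m, hm0, hmf⟩ (by positivity)
  have hq1 : q 1 = b := by
    have h := hqi 1
    rw [mul_one, ← hhalf] at h
    exact (int_inj hfc hfp h).symm
  have hodd : ∀ s, q (-s) = -q s := by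
    intro s
    refine int_inj hfc hfp (a := 0) ?_
    rw [← hqi (-s), hneg, ← hqi s]
    ring
  have hqC : ContDiff ℝ 1 q := hq2.of_le (by norm_num)
  have hdp : ∀ s, 0 < deriv q s := fun s => by
    rw [hqd s]
    exact div_pos (by positivity) (hfp _)
  refine core h4 (SK R) (compact_SK R) q f (fun s => 1 - |s|) ((∫ t in (-b)..b, f t) / 2)
    (((∫ t in (-b)..b, f t) / f y) ^ 2) hqC hqm hdp (fun s => ?_) ?_ (fun u hu i => ?_)
    (fun F hF => h1 n R hR F hF) g hg (KB b R) (image_SK R hqC.continuous hqm hodd hq1)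
  · rw [hqd s, mul_div_cancel₀ _ (hfp _).ne']
  · exact continuous_const.sub continuous_abs
  · have hu0 : -1 ≤ u i := (hu.1 i).1
    have hu1 : u i ≤ 1 := (hu.1 i).2
    have hx : q (u i) ∈ Icc (-b) b :=
      ⟨by rw [← hq1, ← hodd]; exact hqm.monotone hu0, by rw [← hq1]; exact hqm.monotone hu1⟩
    have h5 := (h2 f (-b) b hsm).1 (q (u i)) hx y hy
    have e3 : ∫ t in (-b)..0, f t = (∫ t in (-b)..b, f t) / 2 := by
      have e1 := intervalIntegral.integral_add_adjacent_intervals (hi (-b) 0) (hi 0 b)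
      linarith
    have hL : ∫ t in (-b)..(q (u i)), f t = (∫ t in (-b)..b, f t) / 2 * (1 + u i) := by
      have h6 := intervalIntegral.integral_add_adjacent_intervals (hi (-b) 0) (hi 0 (q (u i)))
      rw [← h6, e3, ← hqi (u i)]
      ring
    have hRr : ∫ t in (q (u i))..b, f t = (∫ t in (-b)..b, f t) / 2 * (1 - u i) := by
      have h6 := intervalIntegral.integral_add_adjacent_intervals (hi (-b) (q (u i)))
        (hi (q (u i)) b)
      rw [hL] at h6
      linarith
    have hmin : min (1 + u i) (1 - u i) = 1 - |u i| := by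
      rcases le_total 0 (u i) with h | h
      · rw [abs_of_nonneg h]
        exact min_eq_right (by linarith)
      · rw [abs_of_nonpos h, sub_neg_eq_add]
        exact min_eq_left (by linarith)
    rw [hL, hRr, ← mul_min_of_nonneg _ _ (by positivity : (0 : ℝ) ≤ (∫ t in (-b)..b, f t) / 2),
      hmin] at h5
    have h7 : (1 - |u i|) * f y ≤ 2 * f (q (u i)) := by
      refine le_of_mul_le_mul_left ?_ hZ
      calc (∫ t in (-b)..b, f t) * ((1 - |u i|) * f y)
          = 2 * ((∫ t in (-b)..b, f t) / 2 * (1 - |u i|) * f y) := by ring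
        _ ≤ 2 * ((∫ t in (-b)..b, f t) * f (q (u i))) := by linarith
        _ = (∫ t in (-b)..b, f t) * (2 * f (q (u i))) := by ring
    have h8 : 0 ≤ 1 - |u i| := by
      have := abs_le.2 ⟨hu0, hu1⟩
      linarith
    have h9 : (1 - |u i|) * deriv q (u i) ≤ (∫ t in (-b)..b, f t) / f y := by
      rw [hqd, ← mul_div_assoc, div_le_div_iff₀ (hfp _) (hfp y)]
      calc (1 - |u i|) * ((∫ t in (-b)..b, f t) / 2) * f y
          = (∫ t in (-b)..b, f t) * ((1 - |u i|) * f y) / 2 := by ring
        _ ≤ (∫ t in (-b)..b, f t) * (2 * f (q (u i))) / 2 := by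
            have := mul_le_mul_of_nonneg_left h7 hZ.le
            linarith
        _ = (∫ t in (-b)..b, f t) * f (q (u i)) := by ring
    exact pow_le_pow_left₀ (mul_nonneg h8 (hdp _).le) h9 2

end Pool.Agent.T2h31.LC
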