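import Pool.Agent.T2h31.LC.Stm

set_option autoImplicit false

namespace Pool.Agent.T2h31.LC

theorem t_SSQ : S_SSQ := by
  refine ⟨fun t h0 h1 => ?_, fun t h0 h1 => ?_, fun u δ hδ hu => ?_⟩
  · have h2 : (0 : ℝ) ≤ Real.sqrt 2 := Real.sqrt_nonneg _
    have h3 : Real.sqrt 2 ^ 2 = 2 := Real.sq_sqrt (by norm_num)
    have h4 : (0 : ℝ) ≤ Real.sqrt t := Real.sqrt_nonneg _
    have h5 : Real.sqrt t ^ 2 = t := Real.sq_sqrt h0
    have h6 : Real.sqrt 2 * Real.sqrt t ≤ 1 := by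
      have h7 : (Real.sqrt 2 * Real.sqrt t) ^ 2 ≤ 1 := by
        rw [mul_pow, h3, h5]
        linarith
      nlinarith [mul_nonneg h2 h4]
    unfold ss
    constructor
    · have h8 : 2 * Real.sqrt 2 * t = 2 * (Real.sqrt 2 * Real.sqrt t) * Real.sqrt t := by
        nth_rewrite 1 [← h5]
        ring
      rw [h8]
      nlinarith
    · nlinarith [mul_nonneg h2 h0]
  · obtain ⟨a, ha⟩ : ∃ a, a = Real.sqrt t := ⟨_, rfl⟩
    obtain ⟨b, hb⟩ : ∃ b, b = Real.sqrt (1 - t) := ⟨_, rfl⟩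
    have ha0 : 0 ≤ a := by rw [ha]; exact Real.sqrt_nonneg _
    have hb0 : 0 ≤ b := by rw [hb]; exact Real.sqrt_nonneg _
    have ha2 : a ^ 2 = t := by rw [ha]; exact Real.sq_sqrt (by linarith)
    have hb2 : b ^ 2 = 1 - t := by rw [hb]; exact Real.sq_sqrt (by linarith)
    have hab : b ≤ a := by
      rw [ha, hb]
      exact Real.sqrt_le_sqrt (by linarith)
    have h2 : (0 : ℝ) ≤ Real.sqrt 2 := Real.sqrt_nonneg _
    have h3 : Real.sqrt 2 ^ 2 = 2 := Real.sq_sqrt (by norm_num)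
    have h4 : a + b ≤ Real.sqrt 2 := by
      apply Real.le_sqrt_of_sq_le
      nlinarith [sq_nonneg (a - b)]
    have h5 : Real.sqrt 2 * (a + b) ≤ 2 := by nlinarith
    unfold ss
    rw [← ha, ← hb, ← hb2, ← ha2]
    have h6 : 0 ≤ (a - b) * (4 - 2 * (Real.sqrt 2 * (a + b))) :=
      mul_nonneg (by linarith) (by linarith)
    nlinarith
  · obtain ⟨p, hp⟩ : ∃ p, p = Real.sqrt (u - δ) := ⟨_, rfl⟩
    obtain ⟨q, hq⟩ : ∃ q, q = Real.sqrt u := ⟨_, rfl⟩
    obtain ⟨r, hr⟩ : ∃ r, r = Real.sqrt (u + δ) := ⟨_, rfl⟩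
    have hp0 : 0 ≤ p := by rw [hp]; exact Real.sqrt_nonneg _
    have hq0 : 0 < q := by rw [hq]; exact Real.sqrt_pos.2 (by linarith)
    have hp2 : p ^ 2 = u - δ := by rw [hp]; exact Real.sq_sqrt (by linarith)
    have hq2 : q ^ 2 = u := by rw [hq]; exact Real.sq_sqrt (by linarith)
    have hr2 : r ^ 2 = u + δ := by rw [hr]; exact Real.sq_sqrt (by linarith)
    have hpq : p ≤ q := by
      rw [hp, hq]
      exact Real.sqrt_le_sqrt (by linarith)
    have hqr : q ≤ r := by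
      rw [hq, hr]
      exact Real.sqrt_le_sqrt (by linarith)
    have hr0 : 0 < r := lt_of_lt_of_le hq0 hqr
    have h1 : 2 * ss u - ss (u - δ) - ss (u + δ) = 4 * (2 * q - p - r) := by
      unfold ss
      rw [← hp, ← hq, ← hr]
      ring
    rw [h1, ← hr, ← hr2]
    have e1 : q ^ 2 - p ^ 2 = δ := by rw [hp2, hq2]; ring
    have e2 : r ^ 2 - q ^ 2 = δ := by rw [hr2, hq2]; ring
    have h2 : (2 * q - p - r) * ((q + p) * (r + q) * (r + p)) = 2 * δ ^ 2 := by
      have h3 : (2 * q - p - r) * ((q + p) * (r + q) * (r + p)) =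
          ((q ^ 2 - p ^ 2) * (r + q) - (r ^ 2 - q ^ 2) * (q + p)) * (r + p) := by ring
      rw [h3, e1, e2]
      have h4 : (δ * (r + q) - δ * (q + p)) * (r + p) = δ * ((r ^ 2 - q ^ 2) + (q ^ 2 - p ^ 2)) := by
        ring
      rw [h4, e1, e2]
      ring
    have h5 : 0 < (q + p) * (r + q) * (r + p) := by positivity
    have h6 : 0 ≤ 2 * q - p - r := by
      by_contra hneg
      rw [not_le] at hneg
      have h7 := mul_neg_of_neg_of_pos hneg h5
      rw [h2] at h7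
      nlinarith [sq_nonneg δ]
    have h7 : (q + p) * (r + q) * (r + p) ≤ (2 * r) * (2 * r) * (2 * r) := by
      apply mul_le_mul (mul_le_mul (by linarith) (by linarith) (by linarith) (by linarith))
        (by linarith) (by linarith) (by positivity)
    have h8 := mul_le_mul_of_nonneg_left h7 h6
    rw [h2] at h8
    nlinarith

end Pool.Agent.T2h31.LC
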