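import Mathlib

/-!
# Common lemmas for LC-UPD and LC-UAW: mean values and uniform continuity on a box
-/

set_option autoImplicit false

namespace Pool.Agent.T2h31.LC.H58

open MeasureTheory Set Filter Topology

/-- a single null sequence of errors -/
theorem err_seq (P : ℕ → ℝ → Prop) (hmono : ∀ N ε ε', P N ε → ε ≤ ε' → P N ε')
    (hb : ∀ N, ∃ B, 0 ≤ B ∧ P N B) (hlim : ∀ ε : ℝ, 0 < ε → ∃ N0 : ℕ, ∀ N, N0 ≤ N → P N ε) :
    ∃ err : ℕ → ℝ, Tendsto err atTop (𝓝 0) ∧ ∀ N, 0 ≤ err N ∧ P N (err N) := by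
  let S : ℕ → Set ℝ := fun N => {ε | 0 ≤ ε ∧ P N ε}
  have hSb : ∀ N, BddBelow (S N) := fun N => ⟨0, fun x hx => hx.1⟩
  have hSne : ∀ N, (S N).Nonempty := fun N => by
    obtain ⟨B, h0, hB⟩ := hb N
    exact ⟨B, h0, hB⟩
  have hS0 : ∀ N, 0 ≤ sInf (S N) := fun N => le_csInf (hSne N) fun x hx => hx.1
  refine ⟨fun N => sInf (S N) + 1 / ((N : ℝ) + 1), ?_, fun N => ⟨?_, ?_⟩⟩
  · rw [Metric.tendsto_atTop]
    intro ε hε
    obtain ⟨N0, hN0⟩ := hlim (ε / 2) (by positivity)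
    obtain ⟨N1, hN1⟩ := exists_nat_gt (2 / ε)
    refine ⟨max N0 N1, fun N hN => ?_⟩
    have h1 : sInf (S N) ≤ ε / 2 :=
      csInf_le (hSb N) ⟨by positivity, hN0 N ((le_max_left _ _).trans hN)⟩
    have h2 : (N1 : ℝ) ≤ N := by exact_mod_cast (le_max_right _ _).trans hN
    have h3 : 1 / ((N : ℝ) + 1) < ε / 2 := by
      rw [div_lt_div_iff₀ (by positivity) (by norm_num)]
      rw [div_lt_iff₀ hε] at hN1
      nlinarith
    have h4 : 0 < 1 / ((N : ℝ) + 1) := by positivity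
    rw [Real.dist_eq, sub_zero, abs_of_nonneg (by have := hS0 N; positivity)]
    linarith
  · have := hS0 N
    positivity
  · have h1 : sInf (S N) < sInf (S N) + 1 / ((N : ℝ) + 1) := by
      have : 0 < 1 / ((N : ℝ) + 1) := by positivity
      linarith
    obtain ⟨e, he, he'⟩ := exists_lt_of_csInf_lt (hSne N) h1
    exact hmono N e _ he.2 he'.le

variable {n : ℕ} {f : (Fin n → ℝ) → ℝ}

theorem norm_single_le (a : Fin n) : ‖(Pi.single a (1 : ℝ) : Fin n → ℝ)‖ ≤ 1 := by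
  rw [pi_norm_le_iff_of_nonneg zero_le_one]
  intro b
  by_cases hb : b = a
  · subst hb; simp
  · simp [Pi.single_eq_of_ne hb]

/-- mean value -/
theorem mvt (hf : ContDiff ℝ 1 f) {K : Set (Fin n → ℝ)} (hK : Convex ℝ K) (a : Fin n)
    {x : Fin n → ℝ} (t : ℝ) (hx : x ∈ K) (hx' : x + t • Pi.single a (1 : ℝ) ∈ K) :
    ∃ ξ ∈ K, dist ξ x ≤ |t| ∧
      f (x + t • Pi.single a (1 : ℝ)) - f x = t * fderiv ℝ f ξ (Pi.single a 1) := by
  set v : Fin n → ℝ := t • Pi.single a (1 : ℝ) with hv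
  have hd : ∀ s : ℝ, HasDerivAt (fun s : ℝ => f (x + s • v))
      (t * fderiv ℝ f (x + s • v) (Pi.single a 1)) s := by
    intro s
    have h1 : HasDerivAt (fun s : ℝ => x + s • v) v s := by
      have := ((hasDerivAt_id s).smul_const v).const_add x
      simpa using this
    have h2 := (hf.differentiable one_ne_zero (x + s • v)).hasFDerivAt.comp_hasDerivAt s h1
    refine h2.congr_deriv ?_
    rw [hv, map_smul, smul_eq_mul]
  obtain ⟨s, hs, he⟩ := exists_hasDerivAt_eq_slope (fun s : ℝ => f (x + s • v))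
    (fun s => t * fderiv ℝ f (x + s • v) (Pi.single a 1)) (zero_lt_one (α := ℝ))
    (fun s _ => (hd s).continuousAt.continuousWithinAt) (fun s _ => hd s)
  simp only [one_smul, zero_smul, add_zero, sub_zero, div_one] at he
  refine ⟨x + s • v, ?_, ?_, he.symm⟩
  · exact hK.add_smul_mem hx hx' ⟨hs.1.le, hs.2.le⟩
  · rw [dist_eq_norm, add_sub_cancel_left, norm_smul, hv, norm_smul, Real.norm_eq_abs,
      Real.norm_eq_abs, abs_of_pos hs.1]
    have h5 : |t| * ‖(Pi.single a (1 : ℝ) : Fin n → ℝ)‖ ≤ |t| :=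
      mul_le_of_le_one_right (abs_nonneg _) (norm_single_le a)
    calc s * (|t| * ‖(Pi.single a (1 : ℝ) : Fin n → ℝ)‖) ≤ 1 * |t| :=
          mul_le_mul hs.2.le h5 (by positivity) zero_le_one
      _ = |t| := one_mul _

/-- the box -/
def box (n : ℕ) (l r : ℝ) : Set (Fin n → ℝ) := Icc (fun _ => l) (fun _ => r)

theorem box_convex (l r : ℝ) : Convex ℝ (box n l r) := convex_Icc _ _

theorem bound (hf : ContDiff ℝ 1 f) (l r : ℝ) : ∃ L : ℝ, 0 ≤ L ∧
    (∀ x ∈ box n l r, ‖fderiv ℝ f x‖ ≤ L) ∧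
    ∀ (a : Fin n), ∀ x ∈ box n l r, (fderiv ℝ f x (Pi.single a 1)) ^ 2 ≤ L ^ 2 := by
  obtain ⟨L, hL⟩ := (isCompact_Icc (a := (fun _ => l : Fin n → ℝ))
    (b := fun _ => r)).exists_bound_of_continuousOn
    (hf.continuous_fderiv one_ne_zero).continuousOn
  refine ⟨|L|, abs_nonneg _, fun x hx => (hL x hx).trans (le_abs_self _), fun a x hx => ?_⟩
  have h1 : |fderiv ℝ f x (Pi.single a 1)| ≤ |L| := by
    rw [← Real.norm_eq_abs]
    refine ((fderiv ℝ f x).le_opNorm _).trans ?_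
    exact (mul_le_of_le_one_right (norm_nonneg _) (norm_single_le a)).trans
      ((hL x hx).trans (le_abs_self _))
  rw [← sq_abs]
  exact pow_le_pow_left₀ (abs_nonneg _) h1 2

/-- the weighted term changes little -/
theorem gen (hf : ContDiff ℝ 1 f) (l r : ℝ) (w : ℝ → ℝ) (hw : Continuous w)
    (hw0 : ∀ t ∈ Icc l r, 0 ≤ w t) :
    ∃ err : ℕ → ℝ, Tendsto err atTop (𝓝 0) ∧ ∀ N, 0 ≤ err N ∧ (0 < N →
      ∀ x ∈ box n l r, ∀ (a : Fin n), ∀ ξ ∈ box n l r, dist ξ x ≤ 1 / (N : ℝ) →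
      (w (x a) + 2 / N) ^ 2 * (fderiv ℝ f ξ (Pi.single a 1)) ^ 2 ≤
        w (x a) ^ 2 * (fderiv ℝ f x (Pi.single a 1)) ^ 2 + err N) := by
  have hcoord : ∀ x ∈ box n l r, ∀ a, x a ∈ Icc l r := fun x hx a => ⟨hx.1 a, hx.2 a⟩
  apply err_seq (fun N ε => 0 < N →
      ∀ x ∈ box n l r, ∀ (a : Fin n), ∀ ξ ∈ box n l r, dist ξ x ≤ 1 / (N : ℝ) →
      (w (x a) + 2 / N) ^ 2 * (fderiv ℝ f ξ (Pi.single a 1)) ^ 2 ≤
        w (x a) ^ 2 * (fderiv ℝ f x (Pi.single a 1)) ^ 2 + ε)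
  · intro N ε ε' h hle hN x hx a ξ hξ hd
    exact (h hN x hx a ξ hξ hd).trans (by linarith)
  · intro N
    obtain ⟨L, hL0, -, hL⟩ := bound (n := n) hf l r
    obtain ⟨T, hT⟩ := (isCompact_Icc (a := l) (b := r)).exists_bound_of_continuousOn
      hw.continuousOn
    refine ⟨(|T| + 2) ^ 2 * L ^ 2, by positivity, ?_⟩
    intro hN x hx a ξ hξ hd
    have hN' : (1 : ℝ) ≤ N := by exact_mod_cast hN
    have h1 : w (x a) ≤ |T| := by
      have := hT _ (hcoord x hx a)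
      rw [Real.norm_eq_abs] at this
      exact (le_abs_self _).trans (this.trans (le_abs_self _))
    have h2 : 0 ≤ w (x a) := hw0 _ (hcoord x hx a)
    have h3 : 2 / (N : ℝ) ≤ 2 := by
      rw [div_le_iff₀ (by linarith)]
      linarith
    have h4 : 0 ≤ 2 / (N : ℝ) := by positivity
    have h5 : (w (x a) + 2 / N) ^ 2 ≤ (|T| + 2) ^ 2 :=
      pow_le_pow_left₀ (by linarith) (by linarith) 2
    have h7 : (w (x a) + 2 / N) ^ 2 * (fderiv ℝ f ξ (Pi.single a 1)) ^ 2 ≤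
        (|T| + 2) ^ 2 * L ^ 2 := mul_le_mul h5 (hL a ξ hξ) (sq_nonneg _) (by positivity)
    have h8 : 0 ≤ w (x a) ^ 2 * (fderiv ℝ f x (Pi.single a 1)) ^ 2 := by positivity
    linarith
  · intro ε hε
    have hK : IsCompact (Icc (0 : ℝ) 2 ×ˢ (box n l r ×ˢ box n l r)) :=
      isCompact_Icc.prod (isCompact_Icc.prod isCompact_Icc)
    set Φ : ℝ × ((Fin n → ℝ) × (Fin n → ℝ)) → (Fin n → ℝ) := fun z a =>
      (w (z.2.1 a) + z.1) ^ 2 * (fderiv ℝ f z.2.2 (Pi.single a 1)) ^ 2 with hΦ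
    have hΦc : Continuous Φ := by
      apply continuous_pi
      intro a
      have c1 : Continuous fun z : ℝ × ((Fin n → ℝ) × (Fin n → ℝ)) => w (z.2.1 a) :=
        hw.comp ((continuous_apply a).comp (continuous_fst.comp continuous_snd))
      have c2 : Continuous fun z : ℝ × ((Fin n → ℝ) × (Fin n → ℝ)) =>
          fderiv ℝ f z.2.2 (Pi.single a 1) :=
        ((hf.continuous_fderiv one_ne_zero).comp (continuous_snd.comp continuous_snd)).clm_apply
          continuous_const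
      exact ((c1.add continuous_fst).pow 2).mul (c2.pow 2)
    have huc := hK.uniformContinuousOn_of_continuous hΦc.continuousOn
    rw [Metric.uniformContinuousOn_iff] at huc
    obtain ⟨δ, hδ, huc⟩ := huc ε hε
    obtain ⟨N0, hN0⟩ := exists_nat_gt (2 / δ)
    refine ⟨N0, fun N hNN hN x hx a ξ hξ hd => ?_⟩
    have hN' : (1 : ℝ) ≤ N := by exact_mod_cast hN
    have hNN' : (N0 : ℝ) ≤ N := by exact_mod_cast hNN
    have h1 : 2 / (N : ℝ) < δ := by
      rw [div_lt_iff₀ (by linarith)]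
      rw [div_lt_iff₀ hδ] at hN0
      nlinarith
    have h2 : 0 ≤ 2 / (N : ℝ) := by positivity
    have h3 : 2 / (N : ℝ) ≤ 2 := by
      rw [div_le_iff₀ (by linarith)]
      linarith
    have h4 : 1 / (N : ℝ) ≤ 2 / (N : ℝ) := div_le_div_of_nonneg_right (by norm_num) (by linarith)
    have hA : dist (Φ (2 / (N : ℝ), (x, ξ))) (Φ (0, (x, x))) < ε := by
      apply huc
      · exact ⟨⟨h2, h3⟩, hx, hξ⟩
      · exact ⟨⟨le_rfl, by norm_num⟩, hx, hx⟩
      · rw [Prod.dist_eq, Prod.dist_eq]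
        apply max_lt
        · rw [Real.dist_eq, sub_zero, abs_of_nonneg h2]
          exact h1
        · apply max_lt
          · rw [dist_self]
            exact hδ
          · exact lt_of_le_of_lt (hd.trans h4) h1
    have hB := lt_of_le_of_lt (dist_le_pi_dist _ _ a) hA
    rw [Real.dist_eq] at hB
    have hC := (abs_lt.1 hB).2
    simp only [hΦ, add_zero] at hC
    linarith

end Pool.Agent.T2h31.LC.H58
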