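import Pool.Agent.T2h31.LC.Stm
import Pool.Agent.T2h31.LC.H58

/-!
# LC-UAW: asymptotics of the energy of a placement, type B
-/

set_option autoImplicit false

namespace Pool.Agent.T2h31.LC.UAW

open MeasureTheory Set Filter Topology
open Pool.Agent.T2h31.LC
open Pool.Agent.T2h31.SB (mv sg lp)

/-- distance to the boundary -/
noncomputable def ww (t : ℝ) : ℝ := 1 - |t|

theorem ww_nonneg {t : ℝ} (ht : t ∈ Icc (-1 : ℝ) 1) : 0 ≤ ww t := by
  unfold ww
  have := abs_le.2 ht
  linarith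

theorem ww_cont : Continuous ww := by
  unfold ww
  fun_prop

variable {n : ℕ} {f : (Fin n → ℝ) → ℝ}

theorem lp_mem {N : ℕ} {g : Fin n → ℤ} (hN : 0 < N)
    (hg : ∀ a, -(2 * (N : ℤ)) < g a ∧ g a < 2 * (N : ℤ)) : lp N g ∈ H58.box n (-1) 1 := by
  have hN' : (0 : ℝ) < N := by exact_mod_cast hN
  refine ⟨fun a => ?_, fun a => ?_⟩
  · show (-1 : ℝ) ≤ (g a : ℝ) / (2 * N)
    rw [le_div_iff₀ (by positivity)]
    have : -(2 * (N : ℤ)) ≤ g a := (hg a).1.le
    have h2 : ((-(2 * (N : ℤ)) : ℤ) : ℝ) ≤ (g a : ℝ) := by exact_mod_cast this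
    push_cast at h2
    linarith
  · show (g a : ℝ) / (2 * N) ≤ 1
    rw [div_le_one (by positivity)]
    exact_mod_cast (hg a).2.le

theorem lp_upd {N : ℕ} (g : Fin n → ℤ) (a : Fin n) (j : ℤ) :
    lp N (Function.update g a j) =
      lp N g + (((j : ℝ) - g a) / (2 * N)) • Pi.single a (1 : ℝ) := by
  funext b
  rw [Pi.add_apply, Pi.smul_apply, smul_eq_mul]
  unfold Pool.Agent.T2h31.SB.lp
  by_cases hb : b = a
  · subst hb
    rw [Function.update_self, Pi.single_eq_same]
    ring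
  · rw [Function.update_of_ne hb, Pi.single_eq_of_ne hb]
    ring

/-- the rate of an exchange of `z` and `z'`, `|z' - z| = 2`; `k` is its number -/
theorem rate_le {N k : ℕ} (hN : 0 < N) (hb : cB N k ≤ 4 * (N : ℝ) ^ 2 * (1 - (k : ℝ) / N + 1 / N) ^ 2)
    (hk : k < N) (z : ℤ) (hz : |z| ≤ 2 * (k : ℤ) + 1) :
    cB N k ≤ 4 * (N : ℝ) ^ 2 * (ww ((z : ℝ) / (2 * N)) + 2 / N) ^ 2 := by
  have hN' : (0 : ℝ) < N := by exact_mod_cast hN
  refine hb.trans ?_
  apply mul_le_mul_of_nonneg_left _ (by positivity)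
  have h1 : (k : ℝ) / N ≤ 1 := by
    rw [div_le_one hN']
    exact_mod_cast hk.le
  have h2 : 0 ≤ 1 / (N : ℝ) := by positivity
  apply pow_le_pow_left₀ (by linarith)
  unfold ww
  rw [abs_div, abs_of_pos (by positivity : (0 : ℝ) < 2 * N)]
  have h3 : |(z : ℝ)| ≤ 2 * k + 1 := by exact_mod_cast hz
  have h4 : |(z : ℝ)| / (2 * N) ≤ (2 * k + 1) / (2 * N) :=
    div_le_div_of_nonneg_right h3 (by positivity)
  have h5 : (2 * (k : ℝ) + 1) / (2 * N) = k / N + 1 / (2 * N) := by
    field_simp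
  have h6 : 1 / (2 * (N : ℝ)) ≤ 1 / N := by
    apply div_le_div_of_nonneg_left (by norm_num) hN'
    linarith
  have h7 : (2 : ℝ) / N = 1 / N + 1 / N := by ring
  rw [h7]
  linarith

end Pool.Agent.T2h31.LC.UAW

namespace Pool.Agent.T2h31.LC

open MeasureTheory Set Filter Topology
open Pool.Agent.T2h31.SB (mv sg lp)
open UAW

theorem t_UAW (hW : S_WBN) : S_UAW := by
  classical
  intro n f hf
  obtain ⟨err, herr, hP⟩ := H58.gen (n := n) hf (-1) 1 ww ww_cont fun t ht => ww_nonneg ht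
  obtain ⟨L, hL0, hL, -⟩ := H58.bound (n := n) hf (-1) 1
  have hconv := H58.box_convex (n := n) (-1) 1
  refine ⟨fun N => 8 * n * err N, 16 * L ^ 2, ?_, by positivity,
    fun N g hN hg => ⟨?_, ?_⟩⟩
  · have := herr.const_mul (8 * (n : ℝ))
    rwa [mul_zero] at this
  · obtain ⟨he0, hPN⟩ := hP N
    have hPN := hPN hN
    have hN' : (0 : ℝ) < N := by exact_mod_cast hN
    obtain ⟨hwb, hb⟩ := hW N hN
    have hx := lp_mem (n := n) hN fun a => ⟨(hg a).1, (hg a).2.1⟩
    set A : Fin n → ℝ := fun a => (1 - |lp N g a|) ^ 2 *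
      Pool.Agent.T2h31.SB.pd f a (lp N g) ^ 2 with hA
    have hA0 : ∀ a, 0 ≤ 4 * (A a + err N) := by
      intro a
      have : 0 ≤ A a := by
        simp only [hA]
        positivity
      positivity
    have hterm : ∀ (a : Fin n) (k : ℕ) (j : ℤ), k < N → (j = g a + 2 ∨ j = g a - 2) →
        -(2 * (N : ℤ)) < j → j < 2 * (N : ℤ) → |g a| ≤ 2 * (k : ℤ) + 1 →
        cB N k * (f (lp N (Function.update g a j)) - f (lp N g)) ^ 2 ≤ 4 * (A a + err N) := by
      intro a k j hk hj hj1 hj2 hga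
      have hmem : lp N (Function.update g a j) ∈ H58.box n (-1) 1 := by
        apply lp_mem hN
        intro b
        by_cases hb : b = a
        · subst hb
          rw [Function.update_self]
          exact ⟨hj1, hj2⟩
        · rw [Function.update_of_ne hb]
          exact ⟨(hg b).1, (hg b).2.1⟩
      rw [lp_upd] at hmem
      rw [lp_upd]
      obtain ⟨ξ, hξ, hd, he⟩ := H58.mvt hf hconv a _ hx hmem
      have habs : |((j : ℝ) - g a) / (2 * N)| = 1 / N := by
        rw [abs_div, abs_of_pos (by positivity : (0 : ℝ) < 2 * N)]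
        have h2 : |(j : ℝ) - g a| = 2 := by
          rcases hj with h2 | h2
          · rw [h2]
            push_cast
            rw [add_sub_cancel_left, abs_of_pos (by norm_num)]
          · rw [h2]
            push_cast
            rw [sub_sub_cancel_left, abs_neg, abs_of_pos (by norm_num)]
        rw [h2]
        field_simp
      rw [habs] at hd
      rw [he, mul_pow, ← sq_abs, habs]
      have h6 := rate_le hN (hb k hk) hk (g a) hga
      have h8 := hPN (lp N g) hx a ξ hξ hd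
      calc cB N k * ((1 / (N : ℝ)) ^ 2 * (fderiv ℝ f ξ (Pi.single a 1)) ^ 2)
          ≤ 4 * (N : ℝ) ^ 2 * (ww (lp N g a) + 2 / N) ^ 2 *
            ((1 / (N : ℝ)) ^ 2 * (fderiv ℝ f ξ (Pi.single a 1)) ^ 2) :=
            mul_le_mul_of_nonneg_right h6 (by positivity)
        _ = 4 * ((ww (lp N g a) + 2 / N) ^ 2 * (fderiv ℝ f ξ (Pi.single a 1)) ^ 2) := by
            field_simp
        _ ≤ 4 * (A a + err N) := mul_le_mul_of_nonneg_left h8 (by norm_num)
    have hS : ∀ s : Fin n → ℝ, (∀ a, s a ≤ 4 * (A a + err N)) →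
        ∑ a, s a ≤ 4 * (∑ a, A a + n * err N) := by
      intro s hs
      refine (Finset.sum_le_sum fun a _ => hs a).trans (le_of_eq ?_)
      rw [← Finset.mul_sum, Finset.sum_add_distrib, Finset.sum_const, Finset.card_univ,
        Fintype.card_fin, nsmul_eq_mul]
    have h1 := hS (fun a => if g a + 2 < 2 * (N : ℤ) then cB N ((g a + 1).natAbs / 2) *
      (f (lp N (Function.update g a (g a + 2))) - f (lp N g)) ^ 2 else 0) (by
        intro a
        split_ifs with h
        · obtain ⟨g1, g2, g3⟩ := hg a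
          rw [Int.odd_iff] at g3
          exact hterm a ((g a + 1).natAbs / 2) (g a + 2) (by omega) (Or.inl rfl) (by omega) h
            (by rw [abs_le]; omega)
        · exact hA0 a)
    have h2 := hS (fun a => if -(2 * (N : ℤ)) < g a - 2 then cB N ((g a - 1).natAbs / 2) *
      (f (lp N (Function.update g a (g a - 2))) - f (lp N g)) ^ 2 else 0) (by
        intro a
        split_ifs with h
        · obtain ⟨g1, g2, g3⟩ := hg a
          rw [Int.odd_iff] at g3
          exact hterm a ((g a - 1).natAbs / 2) (g a - 2) (by omega) (Or.inr rfl) h (by omega)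
            (by rw [abs_le]; omega)
        · exact hA0 a)
    have h3 : 8 * ∑ a, A a + 8 * n * err N =
      4 * (∑ a, A a + n * err N) + 4 * (∑ a, A a + n * err N) := by ring
    show _ ≤ 8 * ∑ a, A a + 8 * n * err N
    rw [h3]
    exact add_le_add h1 h2
  · intro a b hab
    have hN' : (0 : ℝ) < N := by exact_mod_cast hN
    have hN1 : (1 : ℝ) ≤ N := by exact_mod_cast hN
    obtain ⟨hwb, hbd⟩ := hW N hN
    obtain ⟨a1, a2, a3⟩ := hg a
    obtain ⟨b1, b2, b3⟩ := hg b
    rw [Int.odd_iff] at a3 b3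
    have hbb : |g b| < 2 * (N : ℤ) := abs_lt.2 ⟨b1, b2⟩
    have haa : |g a| = ((g a).natAbs : ℤ) := Int.abs_eq_natAbs _
    have hk : ((g a).natAbs + 1) / 2 < N := by omega
    obtain ⟨k, hkd⟩ : ∃ k, k = ((g a).natAbs + 1) / 2 := ⟨_, rfl⟩
    rw [← hkd] at hk ⊢
    have h5 := hwb.nonneg k hk
    have h6 := hbd k hk
    have hx := lp_mem (n := n) hN fun a => ⟨(hg a).1, (hg a).2.1⟩
    have ha0 : 0 ≤ |g a| := abs_nonneg _
    obtain ⟨i, hi⟩ : ∃ i, i = |g a| := ⟨_, rfl⟩
    have hj : |g b| = i + 2 := by rw [hi]; exact hab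
    rw [← hi] at ha0 ⊢
    rw [hj] at hbb ⊢
    have hch : ∀ c, mv i (i + 2) g c - g c ≤ 2 ∧ g c - mv i (i + 2) g c ≤ 2 ∧
        -(2 * (N : ℤ)) < mv i (i + 2) g c ∧ mv i (i + 2) g c < 2 * (N : ℤ) := by
      intro c
      have hc := hg c
      unfold Pool.Agent.T2h31.SB.mv Pool.Agent.T2h31.SB.sg
      split_ifs <;> omega
    have hy := lp_mem (n := n) hN fun c => ⟨(hch c).2.2.1, (hch c).2.2.2⟩
    have hnorm : ‖lp N (mv i (i + 2) g) - lp N g‖ ≤ 1 / N := by
      rw [pi_norm_le_iff_of_nonneg (by positivity)]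
      intro c
      show ‖((mv i (i + 2) g c : ℤ) : ℝ) / (2 * N) - (g c : ℝ) / (2 * N)‖ ≤ 1 / N
      rw [← sub_div, norm_div, Real.norm_eq_abs, Real.norm_eq_abs,
        abs_of_pos (by positivity : (0 : ℝ) < 2 * N)]
      have h2 : |((mv i (i + 2) g c : ℤ) : ℝ) - (g c : ℝ)| ≤ 2 := by
        have h3 : |mv i (i + 2) g c - g c| ≤ 2 := by
          rw [abs_le]
          have := hch c
          constructor <;> omega
        exact_mod_cast h3
      calc |((mv i (i + 2) g c : ℤ) : ℝ) - (g c : ℝ)| / (2 * N) ≤ 2 / (2 * N) :=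
            div_le_div_of_nonneg_right h2 (by positivity)
        _ = 1 / N := by field_simp
    have h1 := hconv.norm_image_sub_le_of_norm_fderiv_le
      (𝕜 := ℝ) (f := f) (C := L) (fun x _ => (hf.differentiable one_ne_zero x))
      (fun x hx => hL x hx) hx hy
    have h3 : |f (lp N (mv i (i + 2) g)) - f (lp N g)| ≤ L * (1 / (N : ℝ)) := by
      rw [← Real.norm_eq_abs]
      exact h1.trans (mul_le_mul_of_nonneg_left hnorm hL0)
    have h4 : (f (lp N (mv i (i + 2) g)) - f (lp N g)) ^ 2 ≤ (L * (1 / (N : ℝ))) ^ 2 := by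
      rw [← sq_abs]
      exact pow_le_pow_left₀ (abs_nonneg _) h3 2
    have h8 : (1 - (k : ℝ) / N + 1 / N) ^ 2 ≤ 2 ^ 2 := by
      have e1 : (k : ℝ) / N ≤ 1 := by
        rw [div_le_one hN']
        exact_mod_cast hk.le
      have e2 : 0 ≤ (k : ℝ) / N := by positivity
      have e3 : 0 ≤ 1 / (N : ℝ) := by positivity
      have e4 : 1 / (N : ℝ) ≤ 1 := by
        rw [div_le_one hN']
        exact hN1
      exact pow_le_pow_left₀ (by linarith) (by linarith) 2
    calc cB N k * (f (lp N (mv i (i + 2) g)) - f (lp N g)) ^ 2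
        ≤ cB N k * (L * (1 / (N : ℝ))) ^ 2 := mul_le_mul_of_nonneg_left h4 h5
      _ ≤ 4 * (N : ℝ) ^ 2 * 2 ^ 2 * (L * (1 / (N : ℝ))) ^ 2 := by
          apply mul_le_mul_of_nonneg_right _ (sq_nonneg _)
          exact h6.trans (mul_le_mul_of_nonneg_left h8 (by positivity))
      _ = 16 * L ^ 2 := by
          field_simp
          ring

end Pool.Agent.T2h31.LC
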