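import Pool.Agent.T2h31.LC.Stm
import Pool.Agent.T2h31.SB.T_VAR

/-! (VAW) a direction of large variance for `∑ u_i q(x_i)`. -/

set_option autoImplicit false

namespace Pool.Agent.T2h31.LC

open MeasureTheory Set Filter Topology
open Pool.Agent.T2h31.SB (Lb sv SK)
open Pool.Agent.T2h31.SB.VAR (W_le W_eq)

namespace VAW

/-- the field -/
noncomputable def w (q : ℝ → ℝ) (s : ℝ) : ℝ := deriv q s * (s - s ^ 3)

section

variable {q : ℝ → ℝ} {k : ℝ}

theorem w_cont (hq : ContDiff ℝ 2 q) : Continuous (w q) := by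
  have hc' : Continuous (deriv q) := hq.continuous_deriv (by norm_num)
  unfold w
  fun_prop

theorem w_deriv (hq : ContDiff ℝ 2 q) (s : ℝ) :
    HasDerivAt (w q) (deriv (deriv q) s * (s - s ^ 3) + deriv q s * (1 - 3 * s ^ 2)) s := by
  have h1 : Differentiable ℝ (deriv q) :=
    (hq.iterate_deriv' 1 1).differentiable (by norm_num)
  have h2 : HasDerivAt (fun s : ℝ => s - s ^ 3) (1 - 3 * s ^ 2) s := by
    exact ((hasDerivAt_id' s).fun_sub (hasDerivAt_pow 3 s)).congr_deriv (by norm_num)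
  exact (h1 s).hasDerivAt.mul h2

theorem w_bound (hk : 0 ≤ k) (h1 : ∀ s ∈ Icc (-1 : ℝ) 1, k ≤ deriv q s)
    (h2 : ∀ s ∈ Icc (-1 : ℝ) 1, |deriv (deriv q) s| * (1 - |s|) ≤ deriv q s) {s : ℝ}
    (hs : s ∈ Icc (-1 : ℝ) 1) :
    |deriv (deriv q) s * (s - s ^ 3) + deriv q s * (1 - 3 * s ^ 2)| ≤ 4 * deriv q s := by
  have h3 := h1 s hs
  have h4 := h2 s hs
  have h5 : |s| ≤ 1 := abs_le.2 hs
  have h6 : 0 ≤ |s| := abs_nonneg s
  have e1 : |s - s ^ 3| = (1 - |s|) * (|s| * (1 + |s|)) := by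
    have : s - s ^ 3 = s * (1 - s ^ 2) := by ring
    rw [this, abs_mul, ← sq_abs s, abs_of_nonneg (show 0 ≤ 1 - |s| ^ 2 by nlinarith)]
    ring
  have e2 : |1 - 3 * s ^ 2| ≤ 2 := by
    rw [← sq_abs s, abs_le]
    constructor <;> nlinarith
  have h7 : |deriv (deriv q) s * (s - s ^ 3)| ≤ 2 * deriv q s := by
    rw [abs_mul, e1, ← mul_assoc]
    have h8 : |s| * (1 + |s|) ≤ 2 := by nlinarith
    have h9 : 0 ≤ |s| * (1 + |s|) := by positivity
    calc |deriv (deriv q) s| * (1 - |s|) * (|s| * (1 + |s|)) ≤ deriv q s * (|s| * (1 + |s|)) :=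
          mul_le_mul_of_nonneg_right h4 h9
      _ ≤ deriv q s * 2 := mul_le_mul_of_nonneg_left h8 (by linarith)
      _ = 2 * deriv q s := by ring
  have h8 : |deriv q s * (1 - 3 * s ^ 2)| ≤ 2 * deriv q s := by
    rw [abs_mul, abs_of_nonneg (show 0 ≤ deriv q s by linarith)]
    nlinarith
  have h9 := abs_add_le (deriv (deriv q) s * (s - s ^ 3)) (deriv q s * (1 - 3 * s ^ 2))
  linarith

theorem w_lip (hq : ContDiff ℝ 2 q) (hk : 0 ≤ k) (h1 : ∀ s ∈ Icc (-1 : ℝ) 1, k ≤ deriv q s)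
    (h2 : ∀ s ∈ Icc (-1 : ℝ) 1, |deriv (deriv q) s| * (1 - |s|) ≤ deriv q s) {a b : ℝ}
    (ha : a ∈ Icc (-1 : ℝ) 1) (hb : b ∈ Icc (-1 : ℝ) 1) :
    (w q a - w q b) ^ 2 ≤ 16 * (q a - q b) ^ 2 := by
  have hqd : Differentiable ℝ q := hq.differentiable (by norm_num)
  have hint : interior (Icc (-1 : ℝ) 1) ⊆ Icc (-1 : ℝ) 1 := interior_subset
  have m1 : MonotoneOn (fun s => 4 * q s + w q s) (Icc (-1 : ℝ) 1) := by
    refine monotoneOn_of_deriv_nonneg (convex_Icc _ _) ?_ ?_ ?_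
    · exact ((continuous_const.mul hq.continuous).add (w_cont hq)).continuousOn
    · intro s _
      exact (((hqd s).hasDerivAt.const_mul 4).add (w_deriv hq s)).differentiableAt.differentiableWithinAt
    · intro s hs
      have h := ((hqd s).hasDerivAt.const_mul 4).add (w_deriv hq s)
      have h' : deriv (fun s => 4 * q s + w q s) s = _ := h.deriv
      rw [h']
      have := (abs_le.1 (w_bound hk h1 h2 (hint hs))).1
      linarith
  have m2 : MonotoneOn (fun s => 4 * q s - w q s) (Icc (-1 : ℝ) 1) := by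
    refine monotoneOn_of_deriv_nonneg (convex_Icc _ _) ?_ ?_ ?_
    · exact ((continuous_const.mul hq.continuous).sub (w_cont hq)).continuousOn
    · intro s _
      exact (((hqd s).hasDerivAt.const_mul 4).sub (w_deriv hq s)).differentiableAt.differentiableWithinAt
    · intro s hs
      have h := ((hqd s).hasDerivAt.const_mul 4).sub (w_deriv hq s)
      have h' : deriv (fun s => 4 * q s - w q s) s = _ := h.deriv
      rw [h']
      have := (abs_le.1 (w_bound hk h1 h2 (hint hs))).2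
      linarith
  rcases le_total a b with hab | hab
  · have n1 := m1 ha hb hab
    have n2 := m2 ha hb hab
    simp only at n1 n2
    nlinarith
  · have n1 := m1 hb ha hab
    have n2 := m2 hb ha hab
    simp only at n1 n2
    nlinarith

end

variable {n : ℕ} {μ : Measure (Fin n → ℝ)}

theorem core [IsFiniteMeasure μ] (hint : ∀ G : (Fin n → ℝ) → ℝ, Continuous G → Integrable G μ)
    {q : ℝ → ℝ} {k : ℝ} (hq : ContDiff ℝ 2 q) (hmono : StrictMono q) (hk : 0 ≤ k)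
    (hq1 : ∀ s ∈ Icc (-1 : ℝ) 1, k ≤ deriv q s)
    (hq2 : ∀ s ∈ Icc (-1 : ℝ) 1, |deriv (deriv q) s| * (1 - |s|) ≤ deriv q s)
    (hn : 1 ≤ n) (hV : 0 < μ.real univ) (hb : ∀ᵐ x ∂μ, ∀ i, -1 ≤ x i ∧ x i ≤ 1)
    (m1 : μ.real univ * (8 * (n : ℝ) / 105) * k ^ 2 ≤ ∫ x, ∑ i, w q (x i) ^ 2 ∂μ)
    (m2 : ∫ x, (∑ i, (3 * x i ^ 2 - 1)) ^ 2 ∂μ = μ.real univ * (4 * (n : ℝ) / 5))
    (d1 : ∀ u : Fin n → ℝ, ∫ x, (∑ i, u i * q (x i)) * ∑ i, (3 * x i ^ 2 - 1) ∂μ =
      ∫ x, ∑ i, u i * w q (x i) ∂μ)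
    (d2 : ∫ x, ∑ i, (3 * x i ^ 2 - 1) ∂μ = 0) :
    ∃ u : Fin n → ℝ, ∑ i, u i ^ 2 = 1 ∧ 2 / 441 * k ^ 2 * μ.real univ ^ 2 ≤
      μ.real univ * (∫ x, (∑ i, u i * q (x i)) ^ 2 ∂μ) - (∫ x, ∑ i, u i * q (x i) ∂μ) ^ 2 := by
  classical
  have hqc : Continuous q := hq.continuous
  have hwc : Continuous (w q) := w_cont hq
  obtain ⟨V, hVe⟩ : ∃ V, V = μ.real univ := ⟨_, rfl⟩
  rw [← hVe] at hV m1 m2 ⊢
  by_cases hcase : ∃ i : Fin n, 2 / 441 * k ^ 2 * V ^ 2 ≤
      V * (∫ x, q (x i) ^ 2 ∂μ) - (∫ x, q (x i) ∂μ) ^ 2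
  · obtain ⟨i, hi⟩ := hcase
    refine ⟨Pi.single i 1, ?_, ?_⟩
    · rw [Finset.sum_eq_single i]
      · simp
      · intro j _ hji
        simp [hji]
      · intro h
        exact absurd (Finset.mem_univ i) h
    · have h1 : ∀ x : Fin n → ℝ, ∑ j, (Pi.single i 1 : Fin n → ℝ) j * q (x j) = q (x i) := by
        intro x
        rw [Finset.sum_eq_single i]
        · simp
        · intro j _ hji
          simp [hji]
        · intro h
          exact absurd (Finset.mem_univ i) h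
      simp only [h1]
      exact hi
  push Not at hcase
  -- each coordinate
  have hmean : ∀ i : Fin n, ∃ m ∈ Icc (-1 : ℝ) 1, q m = (∫ x, q (x i) ∂μ) / V := by
    intro i
    have hci : Continuous fun x : Fin n → ℝ => q (x i) := hqc.comp (continuous_apply i)
    have h1 : ∫ _x, q (-1) ∂μ ≤ ∫ x, q (x i) ∂μ :=
      integral_mono_ae (integrable_const _) (hint _ hci)
        (hb.mono fun x hx => hmono.monotone (hx i).1)
    have h2 : ∫ x, q (x i) ∂μ ≤ ∫ _x, q 1 ∂μ :=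
      integral_mono_ae (hint _ hci) (integrable_const _)
        (hb.mono fun x hx => hmono.monotone (hx i).2)
    rw [integral_const, smul_eq_mul, ← hVe] at h1 h2
    have h3 := intermediate_value_Icc (show (-1 : ℝ) ≤ 1 by norm_num) hqc.continuousOn
    obtain ⟨m, hm, hm2⟩ := h3 (show (∫ x, q (x i) ∂μ) / V ∈ Icc (q (-1)) (q 1) from
      ⟨by rw [le_div_iff₀ hV]; linarith, by rw [div_le_iff₀ hV]; linarith⟩)
    exact ⟨m, hm, hm2⟩
  have hvar : ∀ i : Fin n, 0 ≤ V * (∫ x, q (x i) ^ 2 ∂μ) - (∫ x, q (x i) ∂μ) ^ 2 := by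
    intro i
    have hci : Continuous fun x : Fin n → ℝ => q (x i) := hqc.comp (continuous_apply i)
    have h3 := W_eq hint hci (by rw [← hVe]; exact hV)
    rw [← hVe] at h3
    rw [← h3]
    exact mul_nonneg hV.le (integral_nonneg fun x => sq_nonneg _)
  have hk2 : 0 < k ^ 2 := by
    have h1 := hcase ⟨0, hn⟩
    have h2 := hvar ⟨0, hn⟩
    have h3 : 0 < V ^ 2 := by positivity
    by_contra hcon
    have h4 : k ^ 2 = 0 := le_antisymm (not_lt.1 hcon) (sq_nonneg k)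
    rw [h4] at h1
    linarith
  have hv : ∀ i : Fin n, V * (∫ x, w q (x i) ^ 2 ∂μ) - (∫ x, w q (x i) ∂μ) ^ 2 ≤
      32 / 441 * k ^ 2 * V ^ 2 := by
    intro i
    obtain ⟨m, hm, hmq⟩ := hmean i
    have hc1 : Continuous fun x : Fin n → ℝ => w q (x i) := hwc.comp (continuous_apply i)
    have hci : Continuous fun x : Fin n → ℝ => q (x i) := hqc.comp (continuous_apply i)
    have h1 := W_le hint hc1 (w q m)
    have h2 : ∫ x, (w q (x i) - w q m) ^ 2 ∂μ ≤ ∫ x, 16 * (q (x i) - q m) ^ 2 ∂μ := by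
      refine integral_mono_ae (hint _ (by fun_prop)) (hint _ (by fun_prop)) (hb.mono fun x hx => ?_)
      exact w_lip hq hk hq1 hq2 (hx i) hm
    have h3 := W_eq hint hci (by rw [← hVe]; exact hV)
    rw [← hVe] at h1 h3
    rw [← hmq] at h3
    rw [integral_const_mul] at h2
    have h4 := hcase i
    have h5 : V * ∫ x, (w q (x i) - w q m) ^ 2 ∂μ ≤ V * (16 * ∫ x, (q (x i) - q m) ^ 2 ∂μ) :=
      mul_le_mul_of_nonneg_left h2 hV.le
    have h6 : V * ∫ x : Fin n → ℝ, (q (x i) - q m) ^ 2 ∂μ < 2 / 441 * k ^ 2 * V ^ 2 := by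
      rw [h3]
      exact h4
    linarith
  obtain ⟨y, hy⟩ : ∃ y : Fin n → ℝ, y = fun i => ∫ x, w q (x i) ∂μ := ⟨_, rfl⟩
  have hYs : 8 * (n : ℝ) * k ^ 2 * V ^ 2 / 2205 ≤ ∑ i, y i ^ 2 := by
    have h1 : ∀ i ∈ (Finset.univ : Finset (Fin n)),
        V * (∫ x, w q (x i) ^ 2 ∂μ) - 32 / 441 * k ^ 2 * V ^ 2 ≤ y i ^ 2 := by
      intro i _
      have := hv i
      rw [hy]
      simp only
      linarith
    have h2 := Finset.sum_le_sum h1
    rw [Finset.sum_sub_distrib, ← Finset.mul_sum, Finset.sum_const, Finset.card_univ,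
      Fintype.card_fin, nsmul_eq_mul] at h2
    have h3 : ∑ i, ∫ x, w q (x i) ^ 2 ∂μ = ∫ x, ∑ i, w q (x i) ^ 2 ∂μ := by
      rw [integral_finsetSum]
      exact fun i _ => hint _ (by fun_prop)
    rw [h3] at h2
    have h4 := mul_le_mul_of_nonneg_left m1 hV.le
    refine le_trans ?_ h2
    have h5 : 8 * (n : ℝ) * k ^ 2 * V ^ 2 / 2205 =
        V * (V * (8 * (n : ℝ) / 105) * k ^ 2) - n * (32 / 441 * k ^ 2 * V ^ 2) := by ring
    rw [h5]
    linarith
  have hn' : (0 : ℝ) < n := by exact_mod_cast hn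
  obtain ⟨Y, hY⟩ : ∃ Y, Y = √(∑ i, y i ^ 2) := ⟨_, rfl⟩
  have hS0 : 0 < ∑ i, y i ^ 2 := lt_of_lt_of_le (by positivity) hYs
  have hY0 : 0 < Y := by rw [hY]; exact Real.sqrt_pos.2 hS0
  have hYY : Y ^ 2 = ∑ i, y i ^ 2 := by rw [hY]; exact Real.sq_sqrt hS0.le
  refine ⟨fun i => y i / Y, ?_, ?_⟩
  · simp only [div_pow]
    rw [← Finset.sum_div, hYY]
    exact div_self hS0.ne'
  · have hcf : Continuous fun x : Fin n → ℝ => ∑ i, y i / Y * q (x i) := by fun_prop
    have hch : Continuous fun x : Fin n → ℝ => ∑ i, (3 * x i ^ 2 - 1) := by fun_prop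
    have hfh : ∫ x, (∑ i, y i / Y * q (x i)) * ∑ i, (3 * x i ^ 2 - 1) ∂μ = Y := by
      rw [d1, integral_finsetSum]
      · have h1 : ∀ i ∈ (Finset.univ : Finset (Fin n)),
            ∫ x, y i / Y * w q (x i) ∂μ = y i ^ 2 / Y := by
          intro i _
          rw [integral_const_mul]
          have h2 : ∫ x, w q (x i) ∂μ = y i := by rw [hy]
          rw [h2]
          ring
        rw [Finset.sum_congr rfl h1, ← Finset.sum_div, ← hYY]
        field_simp
      · exact fun i _ => hint _ (by fun_prop)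
    obtain ⟨f, hf⟩ : ∃ f : (Fin n → ℝ) → ℝ, f = fun x => ∑ i, y i / Y * q (x i) := ⟨_, rfl⟩
    obtain ⟨h, hh⟩ : ∃ h : (Fin n → ℝ) → ℝ, h = fun x => ∑ i, (3 * x i ^ 2 - 1) := ⟨_, rfl⟩
    have hf' : ∀ x, ∑ i, y i / Y * q (x i) = f x := fun x => by rw [hf]
    have hh' : ∀ x : Fin n → ℝ, ∑ i, (3 * x i ^ 2 - 1) = h x := fun x => by rw [hh]
    simp only [hf', hh'] at hcf hch hfh m2 d2 ⊢
    obtain ⟨c, hc⟩ : ∃ c, c = (∫ x, f x ∂μ) / V := ⟨_, rfl⟩
    obtain ⟨t, ht⟩ : ∃ t, t = -(Y / (V * (4 * (n : ℝ) / 5))) := ⟨_, rfl⟩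
    have h1 : 0 ≤ ∫ x, (f x - c + t * h x) ^ 2 ∂μ := integral_nonneg fun x => sq_nonneg _
    have h2 : ∀ x, (f x - c + t * h x) ^ 2 = (f x - c) ^ 2 + 2 * t * (f x * h x) -
        2 * t * c * h x + t ^ 2 * h x ^ 2 := fun x => by ring
    simp_rw [h2] at h1
    rw [integral_add (hint _ (by fun_prop)) (hint _ (by fun_prop)),
      integral_sub (hint _ (by fun_prop)) (hint _ (by fun_prop)),
      integral_add (hint _ (by fun_prop)) (hint _ (by fun_prop)), integral_const_mul,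
      integral_const_mul, integral_const_mul, hfh, d2, m2] at h1
    have h3 := W_eq hint hcf (by rw [← hVe]; exact hV)
    rw [← hVe, ← hc] at h3
    rw [← h3]
    have h4 : Y ^ 2 / (V * (4 * (n : ℝ) / 5)) ≤ ∫ x, (f x - c) ^ 2 ∂μ := by
      have h5 : 2 * t * Y - 2 * t * c * 0 + t ^ 2 * (V * (4 * (n : ℝ) / 5)) =
          -(Y ^ 2 / (V * (4 * (n : ℝ) / 5))) := by
        rw [ht]
        field_simp
        ring
      linarith
    have h6 : V * (Y ^ 2 / (V * (4 * (n : ℝ) / 5))) ≤ V * ∫ x, (f x - c) ^ 2 ∂μ :=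
      mul_le_mul_of_nonneg_left h4 hV.le
    refine le_trans ?_ h6
    have h7 : V * (Y ^ 2 / (V * (4 * (n : ℝ) / 5))) = Y ^ 2 / (4 * n / 5) := by
      field_simp
    rw [h7, le_div_iff₀ (by positivity), hYY]
    refine le_trans (le_of_eq ?_) hYs
    ring

end VAW

theorem t_VAW (hSYM : Pool.Agent.T2h31.SB.S_SYM) (hMOM : Pool.Agent.T2h31.SB.S_MOM)
    (hDIV : Pool.Agent.T2h31.SB.S_DIV) (hDVW : S_DVW) : S_VAW := by
  intro n R q k hn hvol hq hmono hodd hk hq1 hq2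
  have hK := Pool.Agent.T2h31.SB.VAR.compact R
  have hfin : volume (SK R) < ⊤ := hK.measure_lt_top
  have hVr : (volume.restrict (SK R)).real univ = (volume (SK R)).toReal := by
    rw [measureReal_def, Measure.restrict_apply_univ]
  have : IsFiniteMeasure (volume.restrict (SK R)) := ⟨by rwa [Measure.restrict_apply_univ]⟩
  have hm1 := hSYM n R (fun x => ∑ i, (x i - x i ^ 3) ^ 2) (by fun_prop)
    (fun p x => Equiv.sum_comp p fun i => (x i - x i ^ 3) ^ 2)
    (fun s x => Finset.sum_congr rfl fun i _ => by beta_reduce; split_ifs <;> ring)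
  have hm2 := hSYM n R (fun x => (∑ i, (3 * x i ^ 2 - 1)) ^ 2) (by fun_prop)
    (fun p x => by rw [Equiv.sum_comp p fun i => (3 * x i ^ 2 - 1)])
    (fun s x => by
      congr 1
      exact Finset.sum_congr rfl fun i _ => by beta_reduce; split_ifs <;> ring)
  rw [(hMOM n).1] at hm1
  rw [(hMOM n).2] at hm2
  have hwc := VAW.w_cont hq
  have hm1' : (volume (SK R)).toReal * (8 * (n : ℝ) / 105) * k ^ 2 ≤
      ∫ x in SK R, ∑ i, VAW.w q (x i) ^ 2 := by
    rw [← hm1, ← integral_mul_const]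
    refine setIntegral_mono_on ?_ ?_ hK.measurableSet ?_
    · exact (Continuous.continuousOn (by fun_prop)).integrableOn_compact hK
    · exact (Continuous.continuousOn (by fun_prop)).integrableOn_compact hK
    · intro x hx
      rw [Finset.sum_mul]
      refine Finset.sum_le_sum fun i _ => ?_
      unfold VAW.w
      rw [mul_pow, mul_comm]
      refine mul_le_mul_of_nonneg_right ?_ (sq_nonneg _)
      exact pow_le_pow_left₀ hk (hq1 _ (hx.1 i)) 2
  have h := VAW.core (n := n) (μ := volume.restrict (SK R))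
    (fun G hG => hG.continuousOn.integrableOn_compact hK) hq hmono hk hq1 hq2 hn
    (by rw [hVr]; exact ENNReal.toReal_pos hvol.ne' hfin.ne)
    (by
      filter_upwards [ae_restrict_mem hK.measurableSet] with x hx
      exact hx.1)
    (by rw [hVr]; exact hm1') (by rw [hVr]; exact hm2) (fun u => hDVW n R u q hq)
    (hDIV n R fun _ => 0).2
  rw [hVr] at h
  exact h

end Pool.Agent.T2h31.LC
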