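import Pool.Agent.T2h31.LC.Stm

/-!
(WBN) the position functions and the rates of type B.
-/

set_option autoImplicit false

namespace Pool.Agent.T2h31.LC

open Pool.Agent.T2h31.SB

namespace WBN

/-- `ss` at the point `x` -/
noncomputable def T (N : ℕ) (x : ℝ) : ℝ := ss ((1 - x / N) / 2)

lemma wB_eq {N : ℕ} (hN : 0 < N) (m : ℤ) : wB N (2 * m - 1) = T N ((m : ℝ) - 1) - T N m := by
  have h : (N : ℝ) ≠ 0 := by positivity
  unfold wB T
  have e1 : (1 - (((2 * m - 1 : ℤ) : ℝ) - 1) / (2 * N)) / 2 = (1 - ((m : ℝ) - 1) / N) / 2 := by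
    push_cast
    field_simp
    ring
  have e2 : (1 - (((2 * m - 1 : ℤ) : ℝ) + 1) / (2 * N)) / 2 = (1 - (m : ℝ) / N) / 2 := by
    push_cast
    field_simp
    ring
  rw [e1, e2]

lemma W_pos {N : ℕ} (hN : 0 < N) {m : ℤ} (hm : 1 ≤ m) :
    WWB N (2 * m - 1) = T N ((m : ℝ) - 1) - T N m := by
  unfold WWB
  rw [if_pos (by omega), wB_eq hN]

lemma W_odd (N : ℕ) (z : ℤ) : WWB N (-z) = -WWB N z := by
  unfold WWB
  rcases lt_trichotomy z 0 with h | h | h
  · rw [if_pos (by omega), if_neg (by omega), if_pos h, neg_neg]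
  · subst h
    simp
  · rw [if_neg (by omega), if_pos (by omega), if_pos h, neg_neg]

lemma diff {N : ℕ} (hS : S_SSQ) (hN : 0 < N) {x : ℝ} (hx : x + 1 ≤ N) :
    (1 / (2 * (N : ℝ))) ^ 2 ≤ (2 * T N x - T N (x + 1) - T N (x - 1)) *
      (((1 - x / N) / 2 + 1 / (2 * N)) * Real.sqrt ((1 - x / N) / 2 + 1 / (2 * N))) := by
  have h : (0 : ℝ) < N := by exact_mod_cast hN
  have h1 := hS.2.2 ((1 - x / N) / 2) (1 / (2 * N)) (by positivity) (by
    rw [div_le_div_iff₀ (by positivity) (by positivity)]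
    have : x / N + 1 / N ≤ 1 := by
      rw [← add_div, div_le_one h]
      exact hx
    have e : (1 : ℝ) / N * N = 1 := by field_simp
    nlinarith)
  unfold T
  have e1 : (1 - (x + 1) / N) / 2 = (1 - x / N) / 2 - 1 / (2 * (N : ℝ)) := by
    field_simp
    ring
  have e2 : (1 - (x - 1) / N) / 2 = (1 - x / N) / 2 + 1 / (2 * (N : ℝ)) := by
    field_simp
    ring
  rw [e1, e2]
  exact h1

lemma dW {N : ℕ} (hS : S_SSQ) (hN : 0 < N) {k : ℕ} (hk : k < N) :
    (1 / (2 * (N : ℝ))) ^ 2 ≤ (WWB N (2 * (k : ℤ) + 1) - WWB N (2 * (k : ℤ) - 1)) *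
      (((1 - (k : ℝ) / N) / 2 + 1 / (2 * N)) * Real.sqrt ((1 - (k : ℝ) / N) / 2 + 1 / (2 * N))) := by
  have h : (0 : ℝ) < N := by exact_mod_cast hN
  have hk' : (k : ℝ) + 1 ≤ N := by exact_mod_cast hk
  have h1 := diff hS hN hk'
  have hk2 : (k : ℝ) / N ≤ 1 := by
    rw [div_le_one h]
    linarith
  refine h1.trans (mul_le_mul_of_nonneg_right ?_ ?_)
  · have e1 : WWB N (2 * (k : ℤ) + 1) = T N k - T N ((k : ℝ) + 1) := by
      have := W_pos hN (m := (k : ℤ) + 1) (by omega)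
      rw [show 2 * ((k : ℤ) + 1) - 1 = 2 * (k : ℤ) + 1 by ring] at this
      rw [this]
      push_cast
      rw [add_sub_cancel_right]
    rcases Nat.eq_zero_or_pos k with h0 | h0
    · subst h0
      have e2 : WWB N (2 * ((0 : ℕ) : ℤ) - 1) = -(T N 0 - T N 1) := by
        have h3 := e1
        simp only [Nat.cast_zero, mul_zero, zero_add] at h3
        have h4 := W_odd N 1
        rw [h3] at h4
        simpa using h4
      rw [e1, e2]
      have h5 : T N 1 ≤ T N (-1) := by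
        have h6 := hS.2.1 (1 / 2 + 1 / (2 * N)) (by
          have : (0 : ℝ) < 1 / (2 * N) := by positivity
          linarith) (by
          have : 1 / (2 * (N : ℝ)) ≤ 1 / 2 := by
            apply one_div_le_one_div_of_le (by norm_num)
            have : (1 : ℝ) ≤ N := by exact_mod_cast hN
            linarith
          linarith)
        unfold T
        have e3 : (1 - (1 : ℝ) / N) / 2 = 1 - (1 / 2 + 1 / (2 * N)) := by
          field_simp
          ring
        have e4 : (1 - (-1 : ℝ) / N) / 2 = 1 / 2 + 1 / (2 * N) := by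
          field_simp
          ring
        rw [e3, e4]
        exact h6
      simp only [Nat.cast_zero, zero_add, zero_sub]
      linarith
    · have e2 : WWB N (2 * (k : ℤ) - 1) = T N ((k : ℝ) - 1) - T N k := by
        have := W_pos hN (m := (k : ℤ)) (by omega)
        rw [this]
        push_cast
        rfl
      rw [e1, e2]
      linarith
  · have : (0 : ℝ) ≤ (1 - (k : ℝ) / N) / 2 + 1 / (2 * N) := by
      have : (0 : ℝ) < 1 / (2 * N) := by positivity
      linarith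
    positivity

lemma dW_pos {N : ℕ} (hS : S_SSQ) (hN : 0 < N) {k : ℕ} (hk : k < N) :
    0 < WWB N (2 * (k : ℤ) + 1) - WWB N (2 * (k : ℤ) - 1) := by
  have h : (0 : ℝ) < N := by exact_mod_cast hN
  have h1 := dW hS hN hk
  have hk2 : (k : ℝ) / N ≤ 1 := by
    rw [div_le_one h]
    exact_mod_cast hk.le
  have h2 : (0 : ℝ) < (1 - (k : ℝ) / N) / 2 + 1 / (2 * N) := by
    have : (0 : ℝ) < 1 / (2 * N) := by positivity
    linarith
  have h3 : 0 < ((1 - (k : ℝ) / N) / 2 + 1 / (2 * N)) *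
      Real.sqrt ((1 - (k : ℝ) / N) / 2 + 1 / (2 * N)) := mul_pos h2 (Real.sqrt_pos.2 h2)
  have h4 : (0 : ℝ) < (1 / (2 * (N : ℝ))) ^ 2 := by positivity
  by_contra hcon
  push Not at hcon
  have := mul_nonpos_of_nonpos_of_nonneg hcon h3.le
  linarith

lemma T_nonneg {N : ℕ} (hS : S_SSQ) (hN : 0 < N) {k : ℕ} (hk : k ≤ N) :
    0 ≤ T N k ∧ T N k ≤ 4 * Real.sqrt ((1 - (k : ℝ) / N) / 2) := by
  have h : (0 : ℝ) < N := by exact_mod_cast hN
  have hk2 : (k : ℝ) / N ≤ 1 := by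
    rw [div_le_one h]
    exact_mod_cast hk
  have hk3 : 0 ≤ (k : ℝ) / N := by positivity
  exact hS.1 _ (by linarith) (by linarith)

lemma cB_eq {N : ℕ} (k : ℕ) :
    cB N k = T N k / (WWB N (2 * (k : ℤ) + 1) - WWB N (2 * (k : ℤ) - 1)) := rfl

lemma cB_mul {N : ℕ} (hS : S_SSQ) (hN : 0 < N) {k : ℕ} (hk : k < N) :
    cB N k * (WWB N (2 * (k : ℤ) + 1) - WWB N (2 * (k : ℤ) - 1)) = T N k := by
  rw [cB_eq, div_mul_cancel₀ _ (dW_pos hS hN hk).ne']

lemma T_top {N : ℕ} (hN : 0 < N) : T N N = 0 := by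
  have h : (N : ℝ) ≠ 0 := by positivity
  unfold T ss
  rw [div_self h]
  simp

/-- the identity at a positive position -/
lemma eq_pos {N : ℕ} (hS : S_SSQ) (hN : 0 < N) {m : ℕ} (hm : 1 ≤ m) (hmN : m ≤ N) :
    ∑ k ∈ Finset.range N, cB N k * (WWB N (sg (2 * (k : ℤ) - 1) (2 * (k : ℤ) + 1)
      (2 * (m : ℤ) - 1)) - WWB N (2 * (m : ℤ) - 1)) = -WWB N (2 * (m : ℤ) - 1) := by
  have h1 : ∀ k ∈ Finset.range N, cB N k * (WWB N (sg (2 * (k : ℤ) - 1) (2 * (k : ℤ) + 1)
      (2 * (m : ℤ) - 1)) - WWB N (2 * (m : ℤ) - 1)) =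
      (if k = m then T N k else 0) + (if k = m - 1 then -T N k else 0) := by
    intro k hk
    have hk' := Finset.mem_range.1 hk
    have h2 := cB_mul hS hN hk'
    by_cases e1 : k = m
    · subst e1
      rw [if_pos rfl, if_neg (by omega)]
      unfold sg
      rw [if_pos rfl, h2, add_zero]
    · by_cases e2 : k = m - 1
      · rw [if_neg e1, if_pos e2]
        have e3 : 2 * (m : ℤ) - 1 = 2 * (k : ℤ) + 1 := by omega
        rw [e3]
        unfold sg
        rw [if_neg (by omega), if_pos rfl]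
        linarith
      · rw [if_neg e1, if_neg e2]
        unfold sg
        rw [if_neg (by omega), if_neg (by omega), if_neg (by omega), if_neg (by omega), sub_self]
        ring
  rw [Finset.sum_congr rfl h1, Finset.sum_add_distrib, Finset.sum_ite_eq', Finset.sum_ite_eq',
    if_pos (Finset.mem_range.2 (show m - 1 < N by omega))]
  have h3 := W_pos hN (m := (m : ℤ)) (by omega)
  rw [h3]
  have h4 : ((m - 1 : ℕ) : ℝ) = (m : ℝ) - 1 := by
    rw [Nat.cast_sub hm]
    simp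
  rw [h4]
  push_cast
  by_cases h5 : m ∈ Finset.range N
  · rw [if_pos h5]
    ring
  · rw [if_neg h5]
    have h6 : m = N := by
      have := Finset.mem_range.not.1 h5
      omega
    rw [h6, T_top hN]
    ring

lemma sg_neg (k : ℕ) (z : ℤ) : sg (2 * (k : ℤ) - 1) (2 * (k : ℤ) + 1) (-z) =
    -sg (2 * (k : ℤ) - 1) (2 * (k : ℤ) + 1) z := by
  unfold sg
  split_ifs <;> omega

end WBN

open WBN

theorem t_WBN : S_SSQ → S_WBN := by
  intro hS N hN1
  have hN : 0 < N := hN1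
  have h : (0 : ℝ) < N := by exact_mod_cast hN
  refine ⟨⟨W_odd N, ?_, ?_, ?_⟩, ?_⟩
  · intro z hz h1 h2
    obtain ⟨w, hw⟩ := hz
    rcases lt_or_ge z (-1) with h3 | h3
    · obtain ⟨k, hk⟩ : ∃ k : ℕ, z = -(2 * (k : ℤ) + 1) := ⟨(-(w + 1)).toNat, by omega⟩
      have h4 := dW_pos hS hN (k := k) (by omega)
      have e1 : z + 2 = -(2 * (k : ℤ) - 1) := by omega
      rw [e1, hk, W_odd, W_odd]
      linarith
    · obtain ⟨k, hk⟩ : ∃ k : ℕ, z = 2 * (k : ℤ) - 1 := ⟨(w + 1).toNat, by omega⟩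
      have h4 := dW_pos hS hN (k := k) (by omega)
      have e1 : z + 2 = 2 * (k : ℤ) + 1 := by omega
      rw [e1, hk]
      linarith
  · intro k hk
    rw [cB_eq]
    exact div_nonneg (T_nonneg hS hN hk.le).1 (dW_pos hS hN hk).le
  · intro z hz h1 h2
    obtain ⟨w, hw⟩ := hz
    rcases lt_or_ge z 0 with h3 | h3
    · obtain ⟨m, hm⟩ : ∃ m : ℕ, z = -(2 * (m : ℤ) - 1) := ⟨(-w).toNat, by omega⟩
      have h4 := eq_pos hS hN (m := m) (by omega) (by omega)
      have e1 : ∀ k ∈ Finset.range N, cB N k * (WWB N (sg (2 * (k : ℤ) - 1) (2 * (k : ℤ) + 1) z) -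
          WWB N z) = -(cB N k * (WWB N (sg (2 * (k : ℤ) - 1) (2 * (k : ℤ) + 1)
            (2 * (m : ℤ) - 1)) - WWB N (2 * (m : ℤ) - 1))) := by
        intro k _
        rw [hm, sg_neg, W_odd, W_odd]
        ring
      rw [Finset.sum_congr rfl e1, Finset.sum_neg_distrib, h4, hm, W_odd]
    · obtain ⟨m, hm⟩ : ∃ m : ℕ, z = 2 * (m : ℤ) - 1 := ⟨(w + 1).toNat, by omega⟩
      have h4 := eq_pos hS hN (m := m) (by omega) (by omega)
      rw [hm]
      exact h4
  · intro k hk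
    have h1 := dW hS hN hk
    have h2 := dW_pos hS hN hk
    obtain ⟨h3, h4⟩ := T_nonneg hS hN hk.le
    rw [cB_eq, div_le_iff₀ h2]
    have hk2 : (k : ℝ) / N ≤ 1 := by
      rw [div_le_one h]
      exact_mod_cast hk.le
    have hd : (0 : ℝ) < 1 / (2 * N) := by positivity
    set D := (1 - (k : ℝ) / N) / 2 + 1 / (2 * N) with hD
    have hD0 : 0 < D := by
      rw [hD]
      linarith
    have h5 : T N k ≤ 4 * Real.sqrt D := by
      refine h4.trans ?_
      have := Real.sqrt_le_sqrt (show (1 - (k : ℝ) / N) / 2 ≤ D by rw [hD]; linarith)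
      linarith
    have h6 : 4 * (N : ℝ) ^ 2 * (1 - (k : ℝ) / N + 1 / N) ^ 2 = 4 * D ^ 2 / (1 / (2 * (N : ℝ))) ^ 2 := by
      rw [hD]
      field_simp
    rw [h6]
    set W := WWB N (2 * (k : ℤ) + 1) - WWB N (2 * (k : ℤ) - 1) with hW
    rw [div_mul_eq_mul_div, le_div_iff₀ (by positivity)]
    have h7 : Real.sqrt D * Real.sqrt D = D := Real.mul_self_sqrt hD0.le
    have hs : 0 < Real.sqrt D := Real.sqrt_pos.2 hD0
    calc T N k * (1 / (2 * (N : ℝ))) ^ 2 ≤ (4 * Real.sqrt D) * (W * (D * Real.sqrt D)) :=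
          mul_le_mul h5 h1 (by positivity) (by positivity)
      _ = 4 * W * D * (Real.sqrt D * Real.sqrt D) := by ring
      _ = 4 * D ^ 2 * W := by rw [h7]; ring

end Pool.Agent.T2h31.LC
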