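import Pool.Agent.T2h31.SB.All
import Pool.Agent.T2h31.LC.Stm2
import Pool.Agent.T2h31.LC.T_APX
import Pool.Agent.T2h31.LC.T_COW
import Pool.Agent.T2h31.LC.T_CVQ
import Pool.Agent.T2h31.LC.T_DVW
import Pool.Agent.T2h31.LC.T_FSB
import Pool.Agent.T2h31.LC.T_GENB
import Pool.Agent.T2h31.LC.T_LAW
import Pool.Agent.T2h31.LC.T_LIM
import Pool.Agent.T2h31.LC.T_MEAB
import Pool.Agent.T2h31.LC.T_MLC
import Pool.Agent.T2h31.LC.T_ONE
import Pool.Agent.T2h31.LC.T_POW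
import Pool.Agent.T2h31.LC.T_PTW
import Pool.Agent.T2h31.LC.T_QEX
import Pool.Agent.T2h31.LC.T_SMB
import Pool.Agent.T2h31.LC.T_SSQ
import Pool.Agent.T2h31.LC.T_UAW
import Pool.Agent.T2h31.LC.T_UCW
import Pool.Agent.T2h31.LC.T_VAW
import Pool.Agent.T2h31.LC.T_WBN

/-!
# Even log-concave variables conditioned on signed relations: assembly

Parts by helpers 4, 5, 21, 57, 58, 64, 67, 85, 90 and 31.
-/

set_option autoImplicit false

namespace Pool.Agent.T2h31.LC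

open Pool.Agent.T2h31.SB (t_POS t_SGB t_CONN t_RS t_ADJ t_SYM t_MOM t_DIV)

theorem wbn_all : S_WBN := t_WBN t_SSQ

theorem law_all : S_LAW :=
  t_LAW (t_COW (t_PTW t_POS t_SGB) t_SGB) (t_CONN t_SGB) t_SGB Pool.Agent.R972.OP.la

theorem pow_all : S_POW := t_POW law_all wbn_all t_UCW (t_UAW wbn_all) t_RS t_ADJ

theorem vaw_all : S_VAW := t_VAW (t_SYM Pool.Agent.R372.OP.SYM.main) t_MOM t_DIV t_DVW

theorem smb_all : S_SMB := t_SMB pow_all t_ONE t_QEX t_CVQ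

theorem fsb_all : S_FSB := t_FSB smb_all vaw_all t_ONE t_QEX t_CVQ

theorem genb_all : S_GENB := t_GENB fsb_all t_APX t_MLC t_LIM

theorem meab_all : S_MEAB := t_MEAB genb_all t_MLC

end Pool.Agent.T2h31.LC
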