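import Pool.Agent.T2h31.LC.Stm

/-!
# Project LC, common part of SMA and SMB (helper67)

Transport of a weighted Poincare inequality by a coordinatewise change of variables.
-/

set_option autoImplicit false

namespace Pool.Agent.T2h31.LC.SmCore

open MeasureTheory Set Filter Topology

variable {n : ℕ}

/-- the coordinatewise map is `C¹` -/
theorem contDiff_qm {q : ℝ → ℝ} (hq : ContDiff ℝ 1 q) :
    ContDiff ℝ 1 (fun (u : Fin n → ℝ) (i : Fin n) => q (u i)) :=
  contDiff_pi.2 fun i => hq.comp (contDiff_apply ℝ ℝ i)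

/-- the partial derivatives of `u ↦ g (q (u_i))` -/
theorem pd_comp {q : ℝ → ℝ} (hq : ContDiff ℝ 1 q) {g : (Fin n → ℝ) → ℝ} (hg : ContDiff ℝ 1 g)
    (i : Fin n) (u : Fin n → ℝ) :
    pd (fun u : Fin n → ℝ => g (fun j => q (u j))) i u =
      deriv q (u i) * pd g i (fun j => q (u j)) := by
  have h1 : HasFDerivAt (fun (u : Fin n → ℝ) (j : Fin n) => q (u j))
      (fderiv ℝ (fun (u : Fin n → ℝ) (j : Fin n) => q (u j)) u) u :=
    ((contDiff_qm hq).differentiable (by norm_num) u).hasFDerivAt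
  have h2 : HasFDerivAt g (fderiv ℝ g (fun j => q (u j))) (fun j => q (u j)) :=
    (hg.differentiable (by norm_num) _).hasFDerivAt
  have h3 : fderiv ℝ (fun u : Fin n → ℝ => g (fun j => q (u j))) u =
      (fderiv ℝ g (fun j => q (u j))).comp
        (fderiv ℝ (fun (u : Fin n → ℝ) (j : Fin n) => q (u j)) u) :=
    (h2.comp u h1).fderiv
  have h4 : fderiv ℝ (fun (u : Fin n → ℝ) (j : Fin n) => q (u j)) u (Pi.single i 1) =
      Pi.single i (deriv q (u i)) := by
    funext j
    have h5 : HasFDerivAt (fun u : Fin n → ℝ => q (u j))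
        ((ContinuousLinearMap.proj (R := ℝ) (φ := fun _ : Fin n => ℝ) j).comp
          (fderiv ℝ (fun (u : Fin n → ℝ) (j : Fin n) => q (u j)) u)) u :=
      (hasFDerivAt_pi'.1 h1) j
    have h6 : HasFDerivAt (fun u : Fin n → ℝ => q (u j))
        ((deriv q (u j)) • (ContinuousLinearMap.proj (R := ℝ) (φ := fun _ : Fin n => ℝ) j)) u :=
      HasDerivAt.comp_hasFDerivAt u
        ((hq.differentiable (by norm_num) (u j)).hasDerivAt)
        ((ContinuousLinearMap.proj (R := ℝ) (φ := fun _ : Fin n => ℝ) j).hasFDerivAt)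
    have h7 := DFunLike.congr_fun (h5.unique h6) (Pi.single i (1 : ℝ))
    have h8 : (fderiv ℝ (fun (u : Fin n → ℝ) (j : Fin n) => q (u j)) u (Pi.single i 1)) j =
        deriv q (u j) * (Pi.single i (1 : ℝ) : Fin n → ℝ) j := by
      simpa using h7
    rw [h8]
    by_cases h : j = i
    · subst h
      simp
    · simp [h]
  unfold pd
  rw [h3, ContinuousLinearMap.comp_apply, h4]
  have h9 : (Pi.single i (deriv q (u i)) : Fin n → ℝ) =
      deriv q (u i) • (Pi.single i (1 : ℝ) : Fin n → ℝ) := by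
    rw [← Pi.single_smul]
    simp
  rw [h9, map_smul, smul_eq_mul]

theorem continuous_pd {g : (Fin n → ℝ) → ℝ} (hg : ContDiff ℝ 1 g) (i : Fin n) :
    Continuous (fun x => pd g i x) := by
  unfold pd
  exact (hg.continuous_fderiv (by norm_num)).clm_apply continuous_const

theorem core (h4 : S_CVQ) (S : Set (Fin n → ℝ)) (hS : IsCompact S) (q f w : ℝ → ℝ) (κ B : ℝ)
    (hq : ContDiff ℝ 1 q) (hm : StrictMono q) (hd : ∀ s, 0 < deriv q s)
    (hf : ∀ s, f (q s) * deriv q s = κ) (hw : Continuous w)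
    (hB : ∀ u ∈ S, ∀ i, (w (u i) * deriv q (u i)) ^ 2 ≤ B)
    (hP : ∀ F : (Fin n → ℝ) → ℝ, ContDiff ℝ 1 F →
      (volume S).toReal * (∫ x in S, F x ^ 2) - (∫ x in S, F x) ^ 2 ≤
        (volume S).toReal * (4 * ∫ x in S, ∑ a, w (x a) ^ 2 * pd F a x ^ 2))
    (g : (Fin n → ℝ) → ℝ) (hg : ContDiff ℝ 1 g) (K : Set (Fin n → ℝ))
    (hK : (fun u : Fin n → ℝ => fun i => q (u i)) '' S = K) :
    (∫ x in K, pp f x) * (∫ x in K, g x ^ 2 * pp f x) - (∫ x in K, g x * pp f x) ^ 2 ≤
      4 * B * ((∫ x in K, pp f x) * ∫ x in K, (∑ i, pd g i x ^ 2) * pp f x) := by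
  have hSm : MeasurableSet S := hS.isClosed.measurableSet
  have hcv : ∀ G : (Fin n → ℝ) → ℝ, ∫ x in K, G x * pp f x =
      κ ^ n * ∫ u in S, G (fun i => q (u i)) := by
    intro G
    rw [← hK, h4 n q hq hm hd S hSm (fun x => G x * pp f x), ← integral_const_mul]
    congr 1
    funext u
    have h1 : pp f (fun i => q (u i)) * ∏ i, deriv q (u i) = κ ^ n := by
      unfold pp
      rw [← Finset.prod_mul_distrib, Finset.prod_congr rfl fun i _ => hf (u i)]
      simp
    calc G (fun i => q (u i)) * pp f (fun i => q (u i)) * ∏ i, deriv q (u i)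
        = G (fun i => q (u i)) * (pp f (fun i => q (u i)) * ∏ i, deriv q (u i)) := by ring
      _ = κ ^ n * G (fun i => q (u i)) := by rw [h1]; ring
  have hone : ∫ x in K, pp f x = κ ^ n * (volume S).toReal := by
    have h := hcv (fun _ => 1)
    simp only [one_mul] at h
    rw [h]
    simp [Measure.real]
  have hF : ContDiff ℝ 1 (fun u : Fin n → ℝ => g (fun j => q (u j))) := hg.comp (contDiff_qm hq)
  have hp := hP _ hF
  have hi1 : IntegrableOn (fun x : Fin n → ℝ => ∑ a, w (x a) ^ 2 *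
      pd (fun u : Fin n → ℝ => g (fun j => q (u j))) a x ^ 2) S := by
    refine ContinuousOn.integrableOn_compact hS (Continuous.continuousOn ?_)
    refine continuous_finsetSum _ fun a _ => ?_
    exact ((hw.comp (continuous_apply a)).pow 2).mul ((continuous_pd hF a).pow 2)
  have hi2 : IntegrableOn (fun x : Fin n → ℝ => B * ∑ a, pd g a (fun j => q (x j)) ^ 2) S := by
    refine ContinuousOn.integrableOn_compact hS (Continuous.continuousOn ?_)
    refine continuous_const.mul (continuous_finsetSum _ fun a _ => ?_)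
    exact ((continuous_pd hg a).comp (contDiff_qm hq).continuous).pow 2
  have hle : ∫ x in S, ∑ a, w (x a) ^ 2 *
      pd (fun u : Fin n → ℝ => g (fun j => q (u j))) a x ^ 2 ≤
      ∫ x in S, B * ∑ a, pd g a (fun j => q (x j)) ^ 2 := by
    refine setIntegral_mono_on hi1 hi2 hSm fun x hx => ?_
    rw [Finset.mul_sum]
    refine Finset.sum_le_sum fun a _ => ?_
    rw [pd_comp hq hg a x]
    calc w (x a) ^ 2 * (deriv q (x a) * pd g a fun j => q (x j)) ^ 2
        = (w (x a) * deriv q (x a)) ^ 2 * (pd g a fun j => q (x j)) ^ 2 := by ring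
      _ ≤ B * (pd g a fun j => q (x j)) ^ 2 :=
          mul_le_mul_of_nonneg_right (hB x hx a) (sq_nonneg _)
  rw [integral_const_mul] at hle
  rw [hone, hcv (fun x => g x ^ 2), hcv g, hcv (fun x => ∑ i, pd g i x ^ 2)]
  have hV : 0 ≤ (volume S).toReal := ENNReal.toReal_nonneg
  have h5 : (volume S).toReal * (∫ x in S, g (fun j => q (x j)) ^ 2) -
      (∫ x in S, g (fun j => q (x j))) ^ 2 ≤
      (volume S).toReal * (4 * (B * ∫ x in S, ∑ a, pd g a (fun j => q (x j)) ^ 2)) :=
    hp.trans (mul_le_mul_of_nonneg_left (mul_le_mul_of_nonneg_left hle (by norm_num)) hV)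
  have h6 := mul_le_mul_of_nonneg_left h5 (sq_nonneg (κ ^ n))
  linarith

/-- a positive continuous function has injective integral -/
theorem int_inj {f : ℝ → ℝ} (hf : Continuous f) (hp : ∀ x, 0 < f x) {a x y : ℝ}
    (h : ∫ t in a..x, f t = ∫ t in a..y, f t) : x = y := by
  have hi : ∀ c d : ℝ, IntervalIntegrable f volume c d := fun c d => hf.intervalIntegrable c d
  rcases lt_trichotomy x y with hxy | hxy | hxy
  · have h1 := intervalIntegral.intervalIntegral_pos_of_pos (hi x y) hp hxy
    have h2 := intervalIntegral.integral_add_adjacent_intervals (hi a x) (hi x y)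
    linarith
  · exact hxy
  · have h1 := intervalIntegral.intervalIntegral_pos_of_pos (hi y x) hp hxy
    have h2 := intervalIntegral.integral_add_adjacent_intervals (hi a y) (hi y x)
    linarith

end Pool.Agent.T2h31.LC.SmCore
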