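import Pool.Agent.T2h31.SB.Stm

/-!
# Independent log-concave variables conditioned on order relations: statements

Project LC (helper31) for MP_8d00da_gt. Let `X_1, ..., X_n` be independent with the same log-concave law `μ` on the
line. (A) Conditioned on any relations `X_a ≤ X_b` their joint law `ν` satisfies Poincare's inequality with the
constant `48` times the largest variance of a linear functional. (B) If `μ` is even the same holds, with `3528`, for any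
relations `X_a ≤ X_b`, `X_a + X_b ≤ 0`, `X_a + X_b ≥ 0`. The proof is the one of `R972.OP` (A) and `T2h31.SB` (B) with
position functions `W` adapted to weights: the Poincare inequality on the order polytope with the weight
`4 min(u, 1 - u)²`, which after the monotone change of variables `x_i = q(u_i)` becomes a bound `4 / (sup density)²`.
-/

set_option autoImplicit false

namespace Pool.Agent.T2h31.LC

open MeasureTheory Set Filter Topology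
open Pool.Agent.T2h31.SB (Lb sv sg mv sm cfg SK)

/-! ### A: weighted Poincare inequality on order polytopes -/

/-- distance of `u` to the ends of `[0,1]` -/
noncomputable def dd (u : ℝ) : ℝ := min u (1 - u)

/-- `4 √t - 2 √2 t` -/
noncomputable def ss (t : ℝ) : ℝ := 4 * Real.sqrt t - 2 * Real.sqrt 2 * t

/-- position functions, type A -/
noncomputable def WA (N k : ℕ) : ℝ := ss (dd ((k : ℝ) / N)) - ss (dd (((k : ℝ) + 1) / N))

/-- rates, type A -/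
noncomputable def cA (N k : ℕ) : ℝ := ss (dd (((k : ℝ) + 1) / N)) / (WA N (k + 1) - WA N k)

/-- SSQ (100 lines): three facts on `ss`. (1) `0 ≤ ss t ≤ 4 √t` for `0 ≤ t ≤ 1/2`. (2) `ss (1 - t) ≤ ss t` for `1/2 ≤ t ≤ 1`
(the difference vanishes at `1/2` and has derivative `2 (t^(-1/2) + (1-t)^(-1/2)) - 4 √2 ≥ 0`; or algebraically:
`a = √t`, `b = √(1-t)`, `a² + b² = 1`, `4 (a - b) - 2 √2 (a² - b²) = (a - b) (4 - 2 √2 (a + b)) ≥ 0` as
`a + b ≤ √2`). (3) Second difference: `2 √u - √(u-δ) - √(u+δ) = 2 δ² / ((√u + √(u-δ)) (√(u+δ) + √u) (√(u+δ) + √(u-δ)))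
≥ δ² / (4 (u+δ)^(3/2))`. -/
def S_SSQ : Prop :=
  (∀ t : ℝ, 0 ≤ t → t ≤ 1 / 2 → 0 ≤ ss t ∧ ss t ≤ 4 * Real.sqrt t) ∧
  (∀ t : ℝ, 1 / 2 ≤ t → t ≤ 1 → ss (1 - t) ≤ ss t) ∧
  ∀ u δ : ℝ, 0 < δ → δ ≤ u →
    δ ^ 2 ≤ (2 * ss u - ss (u - δ) - ss (u + δ)) * ((u + δ) * Real.sqrt (u + δ))

/-- WCN (150 lines; takes S_SSQ). With `S_k = ss (dd ((k+1)/N))` (`k = -1, ..., N-1`, `S_{-1} = S_{N-1} = 0`) we have
`W_k = S_{k-1} - S_k` and `c_k (W_{k+1} - W_k) = S_k`, so the identity of `WC` with `m = 0` is clear. `W_{k+1} - W_k` is the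
second difference `2 S(u) - S(u-δ) - S(u+δ)`, `S = ss ∘ dd`, `δ = 1/N`, `u = (k+1)/N`. By the symmetry `u ↦ 1 - u` let
`u ≤ 1/2`. Then `S = ss` at `u`, `u - δ`, and `S(u+δ) ≤ ss (u+δ)` (SSQ (2) if `u + δ ≥ 1/2`), so it is at least
`δ² (u+δ)^(-3/2)` by SSQ (3), and `c_k ≤ 4 √u (u+δ)^(3/2) N² ≤ 4 N² (u+δ)²`. -/
def S_WCN : Prop := ∀ N : ℕ, 1 ≤ N → Pool.Agent.R972.OP.WC N (WA N) (cA N) 0 ∧
  ∀ k, k + 1 < N → cA N k ≤ 4 * (N : ℝ) ^ 2 * (dd (((k : ℝ) + 1) / N) + 1 / N) ^ 2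

/-- UPD (370 lines, nearly a copy of R874/OP/Upb.lean; takes S_WCN): asymptotics. `dd` is 1-Lipschitz, so
`cA N k / N² ≤ 4 (dd (k/N) + 2/N)²`, and the two moves together give `8 dd(x)² (∂f)²` plus an error. -/
def S_UPD : Prop := ∀ (n : ℕ) (f : (Fin n → ℝ) → ℝ), ContDiff ℝ 1 f →
  ∃ (err : ℕ → ℝ) (C : ℝ), Tendsto err atTop (𝓝 0) ∧ 0 ≤ C ∧
  ∀ (N : ℕ) (g : Fin n → ℕ), 0 < N → (∀ a, g a < N) → Function.Injective g →
  (∑ a, (if g a + 1 < N then cA N (g a) * (f (Pool.Agent.R972.OP.lp N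
      (Function.update g a (g a + 1))) - f (Pool.Agent.R972.OP.lp N g)) ^ 2 else 0) +
    ∑ a, (if 0 < g a then cA N (g a - 1) * (f (Pool.Agent.R972.OP.lp N
      (Function.update g a (g a - 1))) - f (Pool.Agent.R972.OP.lp N g)) ^ 2 else 0) ≤
    8 * ∑ a, dd (Pool.Agent.R972.OP.lp N g a) ^ 2 *
      Pool.Agent.R972.OP.pd f a (Pool.Agent.R972.OP.lp N g) ^ 2 + err N) ∧
  ∀ a b, g b = g a + 1 → cA N (g a) * (f (Pool.Agent.R972.OP.lp N
    (Pool.Agent.R972.OP.mv (g a) (g a + 1) g)) - f (Pool.Agent.R972.OP.lp N g)) ^ 2 ≤ C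

/-- POD (120 lines, nearly a copy of R874/OP/Pob.lean; takes `Pool.Agent.R972.OP.` S_LAT, S_RS, S_ADJ, S_UPC and
S_UPD, S_WCN): Poincare's inequality on order polytopes with the weight `4 min(u, 1-u)²`. -/
def S_POD : Prop := ∀ (n : ℕ) (R : Fin n → Fin n → Prop), (∀ a, ¬ R a a) →
  ∀ f : (Fin n → ℝ) → ℝ, ContDiff ℝ 1 f →
  (volume (Pool.Agent.R972.OP.OPp R)).toReal * (∫ x in Pool.Agent.R972.OP.OPp R, f x ^ 2) -
    (∫ x in Pool.Agent.R972.OP.OPp R, f x) ^ 2 ≤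
    (volume (Pool.Agent.R972.OP.OPp R)).toReal * (4 * ∫ x in Pool.Agent.R972.OP.OPp R,
      ∑ a, dd (x a) ^ 2 * Pool.Agent.R972.OP.pd f a x ^ 2)

/-! ### B: weighted Poincare inequality on the bodies of type B -/

/-- odd increasing position function `W` on the odd positions in `(-2N, 2N)` and rates `c` such that the generator
of one particle maps `W` to `-W` -/
structure WB (N : ℕ) (W : ℤ → ℝ) (c : ℕ → ℝ) : Prop where
  odd : ∀ z : ℤ, W (-z) = -W z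
  mono : ∀ z : ℤ, Odd z → -(2 * (N : ℤ)) < z → z + 2 < 2 * (N : ℤ) → W z < W (z + 2)
  nonneg : ∀ k, k < N → 0 ≤ c k
  eq : ∀ z : ℤ, Odd z → -(2 * (N : ℤ)) < z → z < 2 * (N : ℤ) →
    ∑ k ∈ Finset.range N, c k * (W (sg (2 * (k : ℤ) - 1) (2 * (k : ℤ) + 1) z) - W z) = -W z

section

variable {n : ℕ}

open Classical in
/-- contribution of the exchange `k` to the generator, general rates -/
noncomputable def ttc (N : ℕ) (c : ℕ → ℝ) (R : Lb n → Lb n → Prop) (F : (Fin n → ℤ) → ℝ)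
    (g : Fin n → ℤ) (k : ℕ) : ℝ :=
  if sm k g ∈ cfg N R then c k * (F (sm k g) - F g) else 0

/-- generator -/
noncomputable def LLc (N : ℕ) (c : ℕ → ℝ) (R : Lb n → Lb n → Prop) (F : (Fin n → ℤ) → ℝ)
    (g : Fin n → ℤ) : ℝ :=
  ∑ k ∈ Finset.range N, ttc N c R F g k

open Classical in
/-- local energy -/
noncomputable def QQc (N : ℕ) (c : ℕ → ℝ) (R : Lb n → Lb n → Prop) (F : (Fin n → ℤ) → ℝ)
    (g : Fin n → ℤ) : ℝ :=
  ∑ k ∈ Finset.range N, if sm k g ∈ cfg N R then c k * (F (sm k g) - F g) ^ 2 else 0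

/-- `F` is Lipschitz with the constant `M` for all exchanges, distances measured by `W` -/
def Lpc (N : ℕ) (W : ℤ → ℝ) (R : Lb n → Lb n → Prop) (F : (Fin n → ℤ) → ℝ) (M : ℝ) : Prop :=
  ∀ g ∈ cfg N R, ∀ i j : ℤ, Odd i → Odd j → -(2 * (N : ℤ)) < i → i < j → j < 2 * (N : ℤ) →
    mv i j g ∈ cfg N R → |F (mv i j g) - F g| ≤ M * (W j - W i)

end

/-- PTW (220 lines, adapt T2h31/SB/T_PT.lean; takes `Pool.Agent.T2h31.SB.` S_POS, S_SGB): the coupling, one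
exchange, for general `W`. The new point: for odd `z` in the range and `k < N`,
`W (t z) - W z = (W (2k+1) - W (2k-1)) / 2 * (t z - z)` with `t = sg (2k-1) (2k+1)`, because `W` is odd (check the
positions `± (2k-1)`, `± (2k+1)`; for `k = 0` `W 1 - W (-1) = 2 W 1`). So the claims (2)-(5) of S_POS give what is
needed for `W`: the right-hand side is `M (c k) (ΔW / 2) ((t j - j) - (t i - i))`. -/
def S_PTW : Prop := ∀ (n N : ℕ) (R : Lb n → Lb n → Prop) (W : ℤ → ℝ) (c : ℕ → ℝ)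
  (F : (Fin n → ℤ) → ℝ) (M : ℝ), WB N W c → 0 ≤ M →
  Lpc N W R F M → ∀ s ∈ cfg N R, ∀ i j : ℤ, Odd i → Odd j → -(2 * (N : ℤ)) < i → i < j →
  j < 2 * (N : ℤ) → mv i j s ∈ cfg N R → F (mv i j s) - F s = M * (W j - W i) →
  ∀ k, k < N → ttc N c R F (mv i j s) k - ttc N c R F s k ≤ M * (c k *
    ((W (sg (2 * (k : ℤ) - 1) (2 * (k : ℤ) + 1) j) - W j) -
      (W (sg (2 * (k : ℤ) - 1) (2 * (k : ℤ) + 1) i) - W i)))

/-- COW (110 lines, adapt T2h31/SB/T_CON.lean; takes S_PTW and `Pool.Agent.T2h31.SB.S_SGB`): eigenvalues of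
nonconstant eigenfunctions are at least one. `M` is the largest quotient `|F (mv i j g) - F g| / (W j - W i)`. -/
def S_COW : Prop := ∀ (n N : ℕ) (R : Lb n → Lb n → Prop) (W : ℤ → ℝ) (c : ℕ → ℝ) (lam : ℝ)
  (F : (Fin n → ℤ) → ℝ), WB N W c → (∀ g ∈ cfg N R, LLc N c R F g = -lam * F g) →
  (∃ g ∈ cfg N R, ∃ k, k < N ∧ sm k g ∈ cfg N R ∧ F (sm k g) ≠ F g) → 1 ≤ lam

/-- LAW (110 lines, adapt T2h31/SB/T_LAT.lean; takes S_COW, `Pool.Agent.T2h31.SB.S_CONN`, `Pool.Agent.T2h31.SB.S_SGB` and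
`Pool.Agent.R972.OP.S_LA`): the lattice inequality. -/
def S_LAW : Prop := ∀ (n N : ℕ) (R : Lb n → Lb n → Prop) (W : ℤ → ℝ) (c : ℕ → ℝ), WB N W c →
  ∀ F : (Fin n → ℤ) → ℝ, ((cfg N R).card : ℝ) * ∑ g ∈ cfg N R, F g ^ 2 -
    (∑ g ∈ cfg N R, F g) ^ 2 ≤ (cfg N R).card * (1 / 2 * ∑ g ∈ cfg N R, QQc N c R F g)

/-- positive half of the position function, type B: `W (2m-1) = ss (D_{m-1}) - ss (D_m)`, `D_m = (1 - m/N)/2` -/
noncomputable def wB (N : ℕ) (z : ℤ) : ℝ :=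
  ss ((1 - ((z : ℝ) - 1) / (2 * N)) / 2) - ss ((1 - ((z : ℝ) + 1) / (2 * N)) / 2)

/-- position function, type B -/
noncomputable def WWB (N : ℕ) (z : ℤ) : ℝ :=
  if 0 < z then wB N z else if z < 0 then -wB N (-z) else 0

/-- rates, type B -/
noncomputable def cB (N k : ℕ) : ℝ :=
  ss ((1 - (k : ℝ) / N) / 2) / (WWB N (2 * (k : ℤ) + 1) - WWB N (2 * (k : ℤ) - 1))

/-- WBN (170 lines; takes S_SSQ). Let `T_k = ss (D_k)`, `D_k = (1 - k/N)/2`, `δ = 1/(2N)`, so `T_N = 0`,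
`W (2m-1) = T_{m-1} - T_m` and `c_k (W (2k+1) - W (2k-1)) = T_k`. Identity for `z = 2m-1 > 0`: only the exchanges `m` (if
`m < N`) and `m-1` contribute, together `T_m - T_{m-1} = -W z` (`T_N = 0`); negative `z` by symmetry. Lower bound
`W (2k+1) - W (2k-1) ≥ δ² (D_k + δ)^(-3/2)`: for `k ≥ 1` it is the second difference `2 ss(D_k) - ss(D_k+δ) - ss(D_k-δ)`
(SSQ (3)), for `k = 0` it is `2 (ss(1/2) - ss(1/2-δ)) ≥ 2 ss(1/2) - ss(1/2-δ) - ss(1/2+δ)` by SSQ (2). So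
`c_k ≤ 4 √(D_k) (D_k+δ)^(3/2) δ^(-2) ≤ 16 N² (D_k + δ)² = 4 N² (1 - k/N + 1/N)²`. -/
def S_WBN : Prop := ∀ N : ℕ, 1 ≤ N → WB N (WWB N) (cB N) ∧
  ∀ k, k < N → cB N k ≤ 4 * (N : ℝ) ^ 2 * (1 - (k : ℝ) / N + 1 / N) ^ 2

/-- UCW (240 lines, adapt T2h31/SB/T_UPC.lean): the energy of a placement, by the kinds of exchanges; the exchange
of the positions `z` and `z + 2` has the number `|z + 1| / 2`, that of `|z|` and `|z| + 2` the number `(|z| + 1)/2`. -/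
def S_UCW : Prop := ∀ (n N : ℕ) (c : ℕ → ℝ) (R : Lb n → Lb n → Prop) (F : (Fin n → ℤ) → ℝ),
  (∀ k, k < N → 0 ≤ c k) → ∀ g ∈ cfg N R, QQc N c R F g ≤
    ∑ a, (if g a + 2 < 2 * (N : ℤ) then c ((g a + 1).natAbs / 2) *
      (F (Function.update g a (g a + 2)) - F g) ^ 2 else 0) +
    ∑ a, (if -(2 * (N : ℤ)) < g a - 2 then c ((g a - 1).natAbs / 2) *
      (F (Function.update g a (g a - 2)) - F g) ^ 2 else 0) +
    ∑ p ∈ Finset.univ.filter (fun p : Fin n × Fin n => |g p.2| = |g p.1| + 2),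
      c (((g p.1).natAbs + 1) / 2) * (F (mv |g p.1| |g p.2| g) - F g) ^ 2

/-- UAW (320 lines, adapt T2h31/SB/T_UPA.lean; takes S_WBN): asymptotics. `g a = 2m ± 1`, `x_a = g a/(2N)`,
`c_k / N² ≤ 4 (1 - |x_a| + 2/N)²` for both exchanges which move `a`, each move changes `x_a` by `1/N`. -/
def S_UAW : Prop := ∀ (n : ℕ) (f : (Fin n → ℝ) → ℝ), ContDiff ℝ 1 f →
  ∃ (err : ℕ → ℝ) (C : ℝ), Tendsto err atTop (𝓝 0) ∧ 0 ≤ C ∧
  ∀ (N : ℕ) (g : Fin n → ℤ), 0 < N →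
  (∀ a, -(2 * (N : ℤ)) < g a ∧ g a < 2 * (N : ℤ) ∧ Odd (g a)) →
  (∑ a, (if g a + 2 < 2 * (N : ℤ) then cB N ((g a + 1).natAbs / 2) *
        (f (Pool.Agent.T2h31.SB.lp N (Function.update g a (g a + 2))) -
          f (Pool.Agent.T2h31.SB.lp N g)) ^ 2 else 0) +
      ∑ a, (if -(2 * (N : ℤ)) < g a - 2 then cB N ((g a - 1).natAbs / 2) *
        (f (Pool.Agent.T2h31.SB.lp N (Function.update g a (g a - 2))) -
          f (Pool.Agent.T2h31.SB.lp N g)) ^ 2 else 0) ≤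
    8 * ∑ a, (1 - |Pool.Agent.T2h31.SB.lp N g a|) ^ 2 *
      Pool.Agent.T2h31.SB.pd f a (Pool.Agent.T2h31.SB.lp N g) ^ 2 + err N) ∧
  ∀ a b, |g b| = |g a| + 2 →
    cB N (((g a).natAbs + 1) / 2) *
      (f (Pool.Agent.T2h31.SB.lp N (mv |g a| |g b| g)) - f (Pool.Agent.T2h31.SB.lp N g)) ^ 2 ≤ C

/-- POW (110 lines, adapt T2h31/SB/T_POI.lean; takes S_LAW, S_WBN, S_UCW, S_UAW and `Pool.Agent.T2h31.SB.` S_RS,
S_ADJ): Poincare's inequality with the weight `4 (1 - |s|)²`. -/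
def S_POW : Prop := ∀ (n : ℕ) (R : Lb n → Lb n → Prop), (∀ p, ¬ R p p) →
  ∀ f : (Fin n → ℝ) → ℝ, ContDiff ℝ 1 f →
  (volume (SK R)).toReal * (∫ x in SK R, f x ^ 2) - (∫ x in SK R, f x) ^ 2 ≤
    (volume (SK R)).toReal * (4 * ∫ x in SK R,
      ∑ a, (1 - |x a|) ^ 2 * Pool.Agent.T2h31.SB.pd f a x ^ 2)

/-! ### C: one variable -/

/-- smooth positive function on the line, log-concave on `[a, b]` -/
structure Smo (f : ℝ → ℝ) (a b : ℝ) : Prop where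
  lt : a < b
  smooth : ContDiff ℝ 1 f
  low : ∃ m : ℝ, 0 < m ∧ ∀ x, m ≤ f x
  lc : AntitoneOn (fun x => deriv f x / f x) (Icc a b)

/-- ONE (160 lines): one-dimensional inequalities. Let `Z = ∫_a^b f`, `L = ∫_a^x f`, `R = ∫_x^b f`. (1) `min L R · f y ≤ Z f x`:
if `x ≤ y` then `L f y ≤ Z f x`: for `t ≤ x` `f t f y ≤ f x f (t + y - x)` (`log f` has decreasing derivative, so
`log f(y) - log f(x) ≤ log f(t+y-x) - log f(t)`), integrate over `t`. If `y ≤ x` use `R`. (2) `|f' x| min L R ≤ f(x)²`: if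
`f' x ≥ 0` then `(f'/f)(x) L ≤ ∫_a^x (f'/f) f = f x - f a ≤ f x`; similarly on the other side. (3) If `f ≤ M` on `[a,b]` then
`∫ (x-m)² f ≥ Z³/(12 M²)` for every `m`: with `h = Z/(2M)`, `∫ ((x-m)² - h²) f ≥ -M ∫_{|s|<h} (h² - s²) ds = -4 M h³/3`. Take
`m = (∫ x f)/Z` and multiply by `Z`. -/
def S_ONE : Prop := ∀ (f : ℝ → ℝ) (a b : ℝ), Smo f a b →
  (∀ x ∈ Icc a b, ∀ y ∈ Icc a b, min (∫ t in a..x, f t) (∫ t in x..b, f t) * f y ≤
    (∫ t in a..b, f t) * f x) ∧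
  (∀ x ∈ Icc a b, |deriv f x| * min (∫ t in a..x, f t) (∫ t in x..b, f t) ≤ f x ^ 2) ∧
  ∀ M : ℝ, (∀ x ∈ Icc a b, f x ≤ M) → (∫ t in a..b, f t) ^ 4 ≤ 12 * M ^ 2 *
    ((∫ t in a..b, f t) * (∫ t in a..b, t ^ 2 * f t) - (∫ t in a..b, t * f t) ^ 2)

/-- QEX (120 lines): the monotone parametrisation. `G(x) = (1/κ) ∫_a^x f` has derivative `f/κ ≥ m/κ`, so it is a
bijection of the line; `q` is its inverse, `q' = κ/f(q)`, and `q` is `C²` as `f` is `C¹`. -/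
def S_QEX : Prop := ∀ (f : ℝ → ℝ) (κ a : ℝ), ContDiff ℝ 1 f → (∃ m : ℝ, 0 < m ∧ ∀ x, m ≤ f x) →
  0 < κ → ∃ q : ℝ → ℝ, ContDiff ℝ 2 q ∧ StrictMono q ∧ q 0 = a ∧ (∀ s, deriv q s = κ / f (q s)) ∧
    ∀ s, κ * s = ∫ t in a..(q s), f t

/-- CVQ (100 lines; compare the change of variables in T2h31/SB/T_DIV.lean): change of variables
(`integral_image_eq_integral_abs_det_fderiv_smul`, the derivative is diagonal). -/
def S_CVQ : Prop := ∀ (n : ℕ) (q : ℝ → ℝ), ContDiff ℝ 1 q → StrictMono q → (∀ s, 0 < deriv q s) →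
  ∀ S : Set (Fin n → ℝ), MeasurableSet S → ∀ G : (Fin n → ℝ) → ℝ,
  ∫ x in (fun u : Fin n → ℝ => fun i => q (u i)) '' S, G x =
    ∫ u in S, G (fun i => q (u i)) * ∏ i, deriv q (u i)

/-! ### D: smooth densities -/

section

variable {n : ℕ}

/-- the part of the order cone in a cube -/
def KA (a b : ℝ) (R : Fin n → Fin n → Prop) : Set (Fin n → ℝ) :=
  {x | (∀ i, a ≤ x i ∧ x i ≤ b) ∧ ∀ i j, R i j → x i ≤ x j}

/-- the part of the cone of type B in a cube -/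
def KB (b : ℝ) (R : Lb n → Lb n → Prop) : Set (Fin n → ℝ) :=
  {x | (∀ i, -b ≤ x i ∧ x i ≤ b) ∧ ∀ p q, R p q → sv x p ≤ sv x q}

/-- product density -/
noncomputable def pp (f : ℝ → ℝ) (x : Fin n → ℝ) : ℝ := ∏ i, f (x i)

/-- partial derivative -/
noncomputable def pd (g : (Fin n → ℝ) → ℝ) (i : Fin n) (x : Fin n → ℝ) : ℝ :=
  fderiv ℝ g x (Pi.single i 1)

/-- Poincare's inequality for the density `h` with the constant `C` times any bound `s` of the variances of the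
linear functionals -/
def PL (C : ℝ) (h : (Fin n → ℝ) → ℝ) : Prop :=
  ∀ s : ℝ, (∀ θ : Fin n → ℝ, ∑ i, θ i ^ 2 = 1 →
    (∫ x, h x) * (∫ x, (∑ i, θ i * x i) ^ 2 * h x) - (∫ x, (∑ i, θ i * x i) * h x) ^ 2 ≤
      s * (∫ x, h x) ^ 2) →
  ∀ g : (Fin n → ℝ) → ℝ, ContDiff ℝ 1 g → Integrable (fun x => g x ^ 2 * h x) →
    Integrable (fun x => (∑ i, pd g i x ^ 2) * h x) →
    (∫ x, h x) * (∫ x, g x ^ 2 * h x) - (∫ x, g x * h x) ^ 2 ≤
      C * s * ((∫ x, h x) * ∫ x, (∑ i, pd g i x ^ 2) * h x)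

end

/-- SMA (170 lines; takes S_POD, S_ONE, S_QEX, S_CVQ): smooth densities, type A. `Z = ∫_a^b f`, `q` from QEX with `κ = Z`:
`q 0 = a`, `q 1 = b`, the map `u ↦ (q (u_i))` maps `OPp R` onto `KA a b R` and `pp f (q u) ∏ q'(u_i) = Zⁿ`. Apply POD to
`u ↦ g (q (u_i))`, whose partial derivatives are `q'(u_i) ∂_i g`, and use `dd(u) q'(u) = min L R / f(q u) ≤ Z / f y`
(ONE (1); `L = Z u`, `R = Z (1-u)`). -/
def S_SMA : Prop := ∀ (n : ℕ) (R : Fin n → Fin n → Prop), (∀ a, ¬ R a a) →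
  ∀ (f : ℝ → ℝ) (a b : ℝ), Smo f a b → ∀ g : (Fin n → ℝ) → ℝ, ContDiff ℝ 1 g →
  ∀ y ∈ Icc a b, (∫ x in KA a b R, pp f x) * (∫ x in KA a b R, g x ^ 2 * pp f x) -
    (∫ x in KA a b R, g x * pp f x) ^ 2 ≤ 4 * ((∫ t in a..b, f t) / f y) ^ 2 *
      ((∫ x in KA a b R, pp f x) * ∫ x in KA a b R, (∑ i, pd g i x ^ 2) * pp f x)

/-- VLA (150 lines; takes `Pool.Agent.R972.OP.S_SYM`, S_QEX, S_CVQ): the variance of the coordinate sum, type A. After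
`x = q(u)` the functions `∑ q(u_i)` and `(∑ q(u_i))²` are symmetric, so their means over `OPp R` are those over the
cube (Fubini). -/
def S_VLA : Prop := ∀ (n : ℕ) (R : Fin n → Fin n → Prop) (f : ℝ → ℝ) (a b : ℝ), Smo f a b →
  (∫ t in a..b, f t) ^ 2 * ((∫ x in KA a b R, pp f x) *
      (∫ x in KA a b R, (∑ i, x i) ^ 2 * pp f x) -
    (∫ x in KA a b R, (∑ i, x i) * pp f x) ^ 2) =
  n * ((∫ t in a..b, f t) * (∫ t in a..b, t ^ 2 * f t) - (∫ t in a..b, t * f t) ^ 2) *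
    (∫ x in KA a b R, pp f x) ^ 2

/-- FSA (100 lines; takes S_SMA, S_VLA, S_ONE): smooth case of (A). `θ = (1, ..., 1)/√n` gives
`(Z ∫ t² f - (∫ t f)²)/Z² ≤ s` (if the mass is positive; otherwise everything is zero), and with `M = f y` the maximum
`4 (Z/M)² ≤ 48 s` by ONE (3). -/
def S_FSA : Prop := ∀ (n : ℕ) (R : Fin n → Fin n → Prop), 1 ≤ n → (∀ a, ¬ R a a) →
  ∀ (f : ℝ → ℝ) (a b : ℝ), Smo f a b → PL 48 ((KA a b R).indicator (pp f))

/-- SMB (170 lines; takes S_POW, S_ONE, S_QEX, S_CVQ): smooth even densities, type B. `q` from QEX with `κ = Z/2` and `a = 0`: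
`q` is odd, `q 1 = b`, `u ↦ (q (u_i))` maps `SK R` onto `KB b R`, `pp f (q u) ∏ q'(u_i) = κⁿ`, and
`(1 - |s|) q'(s) = min L R / f(q s) ≤ Z / f y` (`L = (Z/2) (1+s)`, `R = (Z/2) (1-s)`). -/
def S_SMB : Prop := ∀ (n : ℕ) (R : Lb n → Lb n → Prop), (∀ p, ¬ R p p) →
  ∀ (f : ℝ → ℝ) (b : ℝ), Smo f (-b) b → (∀ x, f (-x) = f x) →
  ∀ g : (Fin n → ℝ) → ℝ, ContDiff ℝ 1 g →
  ∀ y ∈ Icc (-b) b, (∫ x in KB b R, pp f x) * (∫ x in KB b R, g x ^ 2 * pp f x) -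
    (∫ x in KB b R, g x * pp f x) ^ 2 ≤ 4 * ((∫ t in (-b)..b, f t) / f y) ^ 2 *
      ((∫ x in KB b R, pp f x) * ∫ x in KB b R, (∑ i, pd g i x ^ 2) * pp f x)

/-- DVW (220 lines, adapt T2h31/SB/T_DIV.lean): integration by parts with `v(s) = s - s³` for the function
`∑ u_i q(x_i)`. After the change of variables `φ(s) = s + t (s - s³)` differentiate at `t = 0` (now not a polynomial
in `t`; dominated differentiation, `hasDerivAt_integral_of_dominated_loc_of_deriv_le`). -/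
def S_DVW : Prop := ∀ (n : ℕ) (R : Lb n → Lb n → Prop) (u : Fin n → ℝ) (q : ℝ → ℝ), ContDiff ℝ 2 q →
  ∫ x in SK R, (∑ i, u i * q (x i)) * ∑ i, (3 * x i ^ 2 - 1) =
    ∫ x in SK R, ∑ i, u i * (deriv q (x i) * (x i - x i ^ 3))

/-- VAW (230 lines, adapt T2h31/SB/T_VAR.lean; takes `Pool.Agent.T2h31.SB.` S_SYM, S_MOM, S_DIV and S_DVW). `E` = mean over
`SK R`, `D = ∑ Var q(x_i)`, `w(s) = q'(s) (s - s³)`, `h = ∑ (3 x_i² - 1)`, `E h = 0`, `E h² = 4n/5`. If `D ≥ (2/441) k² n` take a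
coordinate. Otherwise: `w` is a 4-Lipschitz function of `q(s)` on `[-1,1]`, because
`w' = q'' (s - s³) + q' (1 - 3 s²)` and `|q''| |s| (1-s²) ≤ q' |s| (1+|s|) ≤ 2 q'`, so `|w'| ≤ 4 q'` and
`|w(s) - w(s')| ≤ 4 |q(s) - q(s')|`; so `∑ Var w(x_i) ≤ 16 D` (`Var w ≤ E (w(x_i) - w(m))²` with `q(m) = E q(x_i)`), and with
`y = E w(x)`: `|y|² = E ∑ w(x_i)² - ∑ Var w(x_i) ≥ (8/105) k² n - 16 D > 0` (`w²` is even; `q' ≥ k`). `u = y/|y|`, DVW and
Cauchy-Schwarz: `|y|² ≤ Var(∑ u_i q(x_i)) 4n/5`, so the variance is at least `(5/4) k² (8/105 - 32/441) = (2/441) k²`. -/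
def S_VAW : Prop := ∀ (n : ℕ) (R : Lb n → Lb n → Prop) (q : ℝ → ℝ) (k : ℝ), 1 ≤ n → 0 < volume (SK R) →
  ContDiff ℝ 2 q → StrictMono q → (∀ s, q (-s) = -q s) → 0 ≤ k → (∀ s ∈ Icc (-1 : ℝ) 1, k ≤ deriv q s) →
  (∀ s ∈ Icc (-1 : ℝ) 1, |deriv (deriv q) s| * (1 - |s|) ≤ deriv q s) →
  ∃ u : Fin n → ℝ, ∑ i, u i ^ 2 = 1 ∧ 2 / 441 * k ^ 2 * (volume (SK R)).toReal ^ 2 ≤
    (volume (SK R)).toReal * (∫ x in SK R, (∑ i, u i * q (x i)) ^ 2) -
      (∫ x in SK R, ∑ i, u i * q (x i)) ^ 2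

/-- FSB (180 lines; takes S_SMB, S_VAW, S_ONE, S_QEX, S_CVQ): smooth case of (B). With `q` as in SMB, `M = f y` the maximum of `f` on
`[-b,b]`, `k = Z/(2M)`: `q' = Z/(2 f(q)) ≥ k`, `q'' = -q'² f'(q)/f(q)`, so `|q''| (1-|s|)/q' = (Z/2) |f'| (1-|s|)/f² ≤ 1` by
ONE (2). VAW gives a unit vector with variance at least `(2/441) Z²/(4M²)`, so `4 (Z/M)² ≤ 3528 s`. -/
def S_FSB : Prop := ∀ (n : ℕ) (R : Lb n → Lb n → Prop), 1 ≤ n → (∀ p, ¬ R p p) →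
  ∀ (f : ℝ → ℝ) (b : ℝ), Smo f (-b) b → (∀ x, f (-x) = f x) → PL 3528 ((KB b R).indicator (pp f))

/-! ### E: general log-concave densities -/

/-- log-concave function on the line with a positive finite integral -/
structure LCf (f : ℝ → ℝ) : Prop where
  nonneg : ∀ x, 0 ≤ f x
  lc : ∀ x y t : ℝ, 0 < t → t < 1 → f x ^ (1 - t) * f y ^ t ≤ f ((1 - t) * x + t * y)
  int : Integrable f
  pos : 0 < ∫ x, f x

/-- APX (250 lines): approximation. `P = {f > 0}` is convex, with nonempty interior `(α, β)`; `V = -log f` is convex on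
`P`, continuous on `(α, β)`. Take compact intervals `[a', b']` increasing to `(α, β)` (symmetric if `f` is even), `U` = `V` at the
point of `[a', b']` next to `x` (continuous and bounded), `U_ε(x) = (1/2ε) ∫_{x-ε}^{x+ε} U`, `ε → 0`, `F = exp(-U_ε)`,
`[a, b] = [a'+ε, b'-ε]`. `F` is `C¹`, bounded below; on `[a, b]` `U_ε` is an average of translates of the convex function `V`, so it
is convex, its derivative is monotone, and `U_ε ≥ V` (Jensen, or: `(V(x-s) + V(x+s))/2 ≥ V(x)`), so `F ≤ f`. Convergence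
at the points of `(α, β)` by continuity; outside `[α, β]` both sides are zero. -/
def S_APX : Prop := ∀ f : ℝ → ℝ, LCf f → ∃ (a b : ℕ → ℝ) (F : ℕ → ℝ → ℝ),
  (∀ j, Smo (F j) (a j) (b j)) ∧ (∀ j, ∀ x ∈ Icc (a j) (b j), F j x ≤ f x) ∧
  (∀ᵐ x : ℝ, Tendsto (fun j => (Icc (a j) (b j)).indicator (F j) x) atTop (𝓝 (f x))) ∧
  ((∀ x, f (-x) = f x) → (∀ j x, F j (-x) = F j x) ∧ ∀ j, a j = -b j)

/-- MLC (130 lines): a log-concave integrable function has a second moment. There are `x_0 < x_1` with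
`f(x_1) < f(x_0)`, `f x_0 > 0` (`f` is integrable), so for `x ≥ x_1`, by log-concavity at `x_0 < x_1 ≤ x`,
`f x ≤ f(x_0) r^(x - x_0)` with `r < 1` (if `f x_1 = 0` then `f x = 0`); the same on the left; in between `f` is bounded by
log-concavity (or: `f x ≤ f(x_0)² / f(2 x_0 - x)` near a point `x_0`; any bound will do: `x²` is bounded there and `f`
integrable). Measurability is part of `Integrable f`. -/
def S_MLC : Prop := ∀ f : ℝ → ℝ, LCf f → Integrable fun x => x ^ 2 * f x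

/-- LIM (200 lines): limits. `I_j(G) = ∫ G h_j → I(G)` for `G = 1, x_a, x_a x_b, g, g², |∇g|²` by dominated convergence. Let
`Γ_j = (I_j(1) I_j(x_a x_b) - I_j(x_a) I_j(x_b))`, `Γ` the limit; `θᵀ Γ θ ≤ s I(1)²` for unit `θ`, so
`θᵀ Γ_j θ ≤ s I(1)² + ∑ |Γ_j - Γ|_{ab} ≤ (s + ε) I_j(1)²` for large `j` (`I(1) > 0`); apply `PL C h_j` with `s + ε`, `j → ∞`, `ε → 0`. -/
def S_LIM : Prop := ∀ (n : ℕ) (C : ℝ) (h : (Fin n → ℝ) → ℝ) (hj : ℕ → (Fin n → ℝ) → ℝ), 0 ≤ C →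
  (∀ j, Measurable (hj j)) → (∀ j x, 0 ≤ hj j x ∧ hj j x ≤ h x) →
  (∀ᵐ x, Tendsto (fun j => hj j x) atTop (𝓝 (h x))) → Integrable h → 0 < ∫ x, h x →
  (∀ i, Integrable fun x => x i ^ 2 * h x) → (∀ j, PL C (hj j)) → PL C h

/-- GEN (220 lines; takes S_FSA, S_FSB, S_APX, S_MLC, S_LIM): densities `pp f` on the cones. `h = (cone).indicator (pp f)`,
`h_j = (KA (a j) (b j) R).indicator (pp (F j))`. Products: `pp (F j) ≤ pp f` on the cube; for almost all `x` all coordinates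
are points of convergence (`Measure.ae_eval...`, or `ae_all_iff` with `Measure.tendsto_eval_ae_ae`); `pp f` and `x_i² pp f` are
integrable (`Integrable.fintype_prod`). The relation may be replaced by `R p q ∧ p ≠ q`. -/
def S_GEN : Prop := ∀ (n : ℕ), 1 ≤ n → ∀ f : ℝ → ℝ, LCf f →
  (∀ R : Fin n → Fin n → Prop,
    0 < ∫ x in {x : Fin n → ℝ | ∀ i j, R i j → x i ≤ x j}, pp f x →
    PL 48 ({x : Fin n → ℝ | ∀ i j, R i j → x i ≤ x j}.indicator (pp f))) ∧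
  ((∀ x, f (-x) = f x) → ∀ R : Lb n → Lb n → Prop,
    0 < ∫ x in {x : Fin n → ℝ | ∀ p q, R p q → sv x p ≤ sv x q}, pp f x →
    PL 3528 ({x : Fin n → ℝ | ∀ p q, R p q → sv x p ≤ sv x q}.indicator (pp f)))

/-! ### F: measures -/

/-- Poincare's inequality for the measure `ν` with the constant `C` times any bound `s` of the variances of the
linear functionals -/
def Poin {n : ℕ} (C : ℝ) (ν : Measure (Fin n → ℝ)) : Prop :=
  ∀ s : ℝ, (∀ θ : Fin n → ℝ, ∑ i, θ i ^ 2 = 1 →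
    ProbabilityTheory.variance (fun x => ∑ i, θ i * x i) ν ≤ s) →
  ∀ g : (Fin n → ℝ) → ℝ, ContDiff ℝ 1 g → MemLp g 2 ν →
    Integrable (fun x => ∑ i, pd g i x ^ 2) ν →
    ProbabilityTheory.variance g ν ≤ C * s * ∫ x, ∑ i, pd g i x ^ 2 ∂ν

/-- MEA (200 lines; takes S_GEN, S_MLC): measures. `Measure.pi (fun _ => μ)` has the density `pp f` (`Measure.pi_withDensity` or
`pi_eq` and `lintegral` of products), the conditioned measure is `(mass)⁻¹ • withDensity (indicator)`, and its integrals are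
quotients of the integrals in `PL`; the linear functionals are in `L²` by MLC. -/
def S_MEA : Prop := ∀ (n : ℕ), 1 ≤ n → ∀ (f : ℝ → ℝ) (μ : Measure ℝ), LCf f → (∫ x, f x = 1) →
  μ = volume.withDensity (fun x => ENNReal.ofReal (f x)) →
  (∀ R : Fin n → Fin n → Prop,
    Measure.pi (fun _ : Fin n => μ) {x : Fin n → ℝ | ∀ i j, R i j → x i ≤ x j} ≠ 0 →
    Poin 48 (ProbabilityTheory.cond (Measure.pi fun _ : Fin n => μ)
      {x : Fin n → ℝ | ∀ i j, R i j → x i ≤ x j})) ∧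
  ((∀ x, f (-x) = f x) → ∀ R : Lb n → Lb n → Prop,
    Measure.pi (fun _ : Fin n => μ) {x : Fin n → ℝ | ∀ p q, R p q → sv x p ≤ sv x q} ≠ 0 →
    Poin 3528 (ProbabilityTheory.cond (Measure.pi fun _ : Fin n => μ)
      {x : Fin n → ℝ | ∀ p q, R p q → sv x p ≤ sv x q}))

end Pool.Agent.T2h31.LC
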