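import Pool.Agent.T2h31.LC.Stm

/-!
# LC-POD: assembly of the weighted Poincare inequality on order polytopes
-/

set_option autoImplicit false

namespace Pool.Agent.T2h31.LC.POD

theorem mem_cfg {n N : ℕ} {R : Fin n → Fin n → Prop} {g : Fin n → ℕ}
    (h : g ∈ Pool.Agent.R972.OP.cfg N R) : (∀ a, g a < N) ∧ Function.Injective g := by
  classical
  unfold Pool.Agent.R972.OP.cfg at h
  rw [Finset.mem_filter, Fintype.mem_piFinset] at h
  exact ⟨fun a => Finset.mem_range.mp (h.1 a), h.2.1⟩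

end Pool.Agent.T2h31.LC.POD

namespace Pool.Agent.T2h31.LC

open MeasureTheory Set Filter Topology
open Pool.Agent.R972.OP (mv cfg lp OPp QQ adj S_LAT S_RS S_ADJ S_UPC)

theorem t_POD (h1 : S_LAT) (h2 : S_RS) (h3 : S_ADJ) (h4 : S_UPC) (h5 : S_UPD) (h6 : S_WCN) :
    S_POD := by
  classical
  intro n R hR f hf
  obtain ⟨err, C, herr, hC, hbd⟩ := h5 n f hf
  have hcf : Continuous f := hf.continuous
  have hcpd : ∀ a, Continuous (Pool.Agent.R972.OP.pd f a) := by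
    intro a
    unfold Pool.Agent.R972.OP.pd
    exact (hf.continuous_fderiv (by norm_num)).clm_apply continuous_const
  have hdd : Continuous dd := by
    unfold dd
    fun_prop
  have hcG : Continuous (fun x => ∑ a, dd (x a) ^ 2 * Pool.Agent.R972.OP.pd f a x ^ 2) :=
    continuous_finsetSum _ fun a _ => ((hdd.comp (continuous_apply a)).pow 2).mul ((hcpd a).pow 2)
  have t1 := h2 n R hR (fun _ => (1 : ℝ)) continuous_const
  have tf := h2 n R hR f hcf
  have tf2 := h2 n R hR (fun x => f x ^ 2) (hcf.pow 2)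
  have tG := h2 n R hR (fun x => ∑ a, dd (x a) ^ 2 * Pool.Agent.R972.OP.pd f a x ^ 2) hcG
  have tA := h3 n R
  have hvol : (∫ _x in OPp R, (1 : ℝ)) = (volume (OPp R)).toReal := by
    rw [setIntegral_const]
    simp [Measure.real]
  rw [hvol] at t1
  -- the limits of both sides
  have tL := (t1.mul tf2).sub (tf.pow 2)
  have tR := t1.mul ((((tG.const_mul 8).add (herr.mul t1)).add
    (tA.const_mul C)).const_mul (1 / 2 : ℝ))
  have hlim : (volume (OPp R)).toReal * (1 / 2 * (8 *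
      (∫ x in OPp R, ∑ a, dd (x a) ^ 2 * Pool.Agent.R972.OP.pd f a x ^ 2) + 0 * (volume (OPp R)).toReal + C * 0)) =
      (volume (OPp R)).toReal * (4 * ∫ x in OPp R, ∑ a, dd (x a) ^ 2 * Pool.Agent.R972.OP.pd f a x ^ 2) := by ring
  rw [hlim] at tR
  refine le_of_tendsto_of_tendsto tL tR ?_
  filter_upwards [eventually_gt_atTop 0] with N hN
  have hN0 : (0 : ℝ) < N := by exact_mod_cast hN
  have hNn : (0 : ℝ) < (N : ℝ) ^ n := by positivity
  obtain ⟨wc, -⟩ := h6 N hN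
  have hlat := h1 n N R _ _ _ wc (fun g => f (lp N g))
  set E : (Fin n → ℕ) → ℝ := fun g => ∑ a, dd (lp N g a) ^ 2 * Pool.Agent.R972.OP.pd f a (lp N g) ^ 2 with hE
  have hQ : ∀ g ∈ cfg N R, QQ N R (cA N) (fun g => f (lp N g)) g ≤
      8 * E g + err N + C * (adj g : ℝ) := by
    intro g hg
    obtain ⟨hlt, hinj⟩ := POD.mem_cfg hg
    obtain ⟨hb1, hb2⟩ := hbd N g hN hlt hinj
    refine (h4 n N R (cA N) (fun g => f (lp N g)) wc.nonneg g hg).trans ?_
    apply add_le_add hb1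
    calc _ ≤ (Finset.univ.filter (fun p : Fin n × Fin n => g p.2 = g p.1 + 1)).card • C := by
          apply Finset.sum_le_card_nsmul
          intro p hp
          rw [Finset.mem_filter] at hp
          exact hb2 p.1 p.2 hp.2
      _ = C * (adj g : ℝ) := by
          rw [nsmul_eq_mul, mul_comm]
          rfl
  have hsum : ∑ g ∈ cfg N R, QQ N R (cA N) (fun g => f (lp N g)) g ≤
      8 * (∑ g ∈ cfg N R, E g) + (cfg N R).card * err N +
        C * ∑ g ∈ cfg N R, (adj g : ℝ) := by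
    refine (Finset.sum_le_sum hQ).trans (le_of_eq ?_)
    rw [Finset.sum_add_distrib, Finset.sum_add_distrib, Finset.sum_const, nsmul_eq_mul,
      Finset.mul_sum, Finset.mul_sum]
  have hfin : ((cfg N R).card : ℝ) * ∑ g ∈ cfg N R, f (lp N g) ^ 2 -
      (∑ g ∈ cfg N R, f (lp N g)) ^ 2 ≤ (cfg N R).card * (1 / 2 * (8 *
        (∑ g ∈ cfg N R, E g) +
        (cfg N R).card * err N + C * ∑ g ∈ cfg N R, (adj g : ℝ))) := by
    refine hlat.trans ?_
    apply mul_le_mul_of_nonneg_left _ (Nat.cast_nonneg _)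
    exact mul_le_mul_of_nonneg_left hsum (by norm_num)
  have hcard1 : (∑ _g ∈ cfg N R, (1 : ℝ)) = (cfg N R).card := by simp
  show (∑ _g ∈ cfg N R, (1 : ℝ)) / (N : ℝ) ^ n * ((∑ g ∈ cfg N R, f (lp N g) ^ 2) / (N : ℝ) ^ n) -
      ((∑ g ∈ cfg N R, f (lp N g)) / (N : ℝ) ^ n) ^ 2 ≤
    (∑ _g ∈ cfg N R, (1 : ℝ)) / (N : ℝ) ^ n * (1 / 2 * (8 *
      ((∑ g ∈ cfg N R, E g) / (N : ℝ) ^ n) +
      err N * ((∑ _g ∈ cfg N R, (1 : ℝ)) / (N : ℝ) ^ n) +
        C * ((∑ g ∈ cfg N R, (adj g : ℝ)) / (N : ℝ) ^ n)))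
  rw [hcard1]
  have hl : ((cfg N R).card : ℝ) / (N : ℝ) ^ n * ((∑ g ∈ cfg N R, f (lp N g) ^ 2) / (N : ℝ) ^ n) -
      ((∑ g ∈ cfg N R, f (lp N g)) / (N : ℝ) ^ n) ^ 2 =
      (((cfg N R).card : ℝ) * ∑ g ∈ cfg N R, f (lp N g) ^ 2 -
      (∑ g ∈ cfg N R, f (lp N g)) ^ 2) / ((N : ℝ) ^ n) ^ 2 := by
    field_simp
  have hr : ((cfg N R).card : ℝ) / (N : ℝ) ^ n * (1 / 2 * (8 *
      ((∑ g ∈ cfg N R, E g) / (N : ℝ) ^ n) +
      err N * (((cfg N R).card : ℝ) / (N : ℝ) ^ n) +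
        C * ((∑ g ∈ cfg N R, (adj g : ℝ)) / (N : ℝ) ^ n))) =
      ((cfg N R).card * (1 / 2 * (8 * (∑ g ∈ cfg N R, E g) +
        (cfg N R).card * err N + C * ∑ g ∈ cfg N R, (adj g : ℝ)))) / ((N : ℝ) ^ n) ^ 2 := by
    field_simp
  rw [hl, hr]
  exact div_le_div_of_nonneg_right hfin (by positivity)

end Pool.Agent.T2h31.LC
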