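import Pool.Agent.T2h31.LC.Stm

/-! LC-POW: assembly of the weighted Poincare inequality (project LC of helper31; adapted from
`Pool.Agent.T2h31.SB.T_POI`). -/

set_option autoImplicit false

namespace Pool.Agent.T2h31.LC

open MeasureTheory Set Filter Topology
open Pool.Agent.T2h31.SB (Lb sv sg mv sm cfg SK lp adj mem_cfg)

theorem t_POW (h1 : S_LAW) (h0 : S_WBN) (h4 : S_UCW) (h5 : S_UAW)
    (h2 : Pool.Agent.T2h31.SB.S_RS) (h3 : Pool.Agent.T2h31.SB.S_ADJ) : S_POW := by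
  classical
  intro n R hR f hf
  obtain ⟨err, C, herr, hC, hbd⟩ := h5 n f hf
  have hcf : Continuous f := hf.continuous
  have hcpd : ∀ a, Continuous (Pool.Agent.T2h31.SB.pd f a) := by
    intro a
    unfold Pool.Agent.T2h31.SB.pd
    exact (hf.continuous_fderiv (by norm_num)).clm_apply continuous_const
  have hcG : Continuous (fun x : Fin n → ℝ =>
      ∑ a, (1 - |x a|) ^ 2 * Pool.Agent.T2h31.SB.pd f a x ^ 2) := by
    refine continuous_finsetSum _ fun a _ => ?_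
    exact ((continuous_const.sub (continuous_apply a).abs).pow 2).mul ((hcpd a).pow 2)
  have t1 := h2 n R hR (fun _ => (1 : ℝ)) continuous_const
  have tf := h2 n R hR f hcf
  have tf2 := h2 n R hR (fun x => f x ^ 2) (hcf.pow 2)
  have tG := h2 n R hR (fun x => ∑ a, (1 - |x a|) ^ 2 * Pool.Agent.T2h31.SB.pd f a x ^ 2) hcG
  have tA := h3 n R
  have hvol : (∫ _x in SK R, (1 : ℝ)) = (volume (SK R)).toReal := by
    rw [setIntegral_const]
    simp [Measure.real]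
  rw [hvol] at t1
  -- the limits of both sides
  have tL := (t1.mul tf2).sub (tf.pow 2)
  have tR := t1.mul ((((tG.const_mul 8).add (herr.mul t1)).add (tA.const_mul C)).const_mul
    (1 / 2 : ℝ))
  have hlim : (volume (SK R)).toReal * (1 / 2 * (8 * (∫ x in SK R,
      ∑ a, (1 - |x a|) ^ 2 * Pool.Agent.T2h31.SB.pd f a x ^ 2) +
      0 * (volume (SK R)).toReal + C * 0)) =
      (volume (SK R)).toReal * (4 * ∫ x in SK R,
        ∑ a, (1 - |x a|) ^ 2 * Pool.Agent.T2h31.SB.pd f a x ^ 2) := by ring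
  rw [hlim] at tR
  refine le_of_tendsto_of_tendsto tL tR ?_
  filter_upwards [eventually_gt_atTop 0] with N hN
  have hN0 : (0 : ℝ) < N := by exact_mod_cast hN
  have hNn : (0 : ℝ) < (N : ℝ) ^ n := by positivity
  have hWB := (h0 N hN).1
  have hlat := h1 n N R (WWB N) (cB N) hWB (fun g => f (lp N g))
  have hQ : ∀ g ∈ cfg N R, QQc N (cB N) R (fun g => f (lp N g)) g ≤
      8 * (∑ a, (1 - |lp N g a|) ^ 2 * Pool.Agent.T2h31.SB.pd f a (lp N g) ^ 2) + err N +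
        C * (adj g : ℝ) := by
    intro g hg
    have hg' := mem_cfg.mp hg
    obtain ⟨hb1, hb2⟩ := hbd N g hN fun a => ⟨(hg'.1 a).1, (hg'.1 a).2.1, (hg'.1 a).2.2⟩
    refine (h4 n N (cB N) R (fun g => f (lp N g)) hWB.nonneg g hg).trans ?_
    apply add_le_add hb1
    calc _ ≤ (Finset.univ.filter (fun p : Fin n × Fin n => |g p.2| = |g p.1| + 2)).card • C := by
          apply Finset.sum_le_card_nsmul
          intro p hp
          rw [Finset.mem_filter] at hp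
          exact hb2 p.1 p.2 hp.2
      _ = C * (adj g : ℝ) := by
          rw [nsmul_eq_mul, mul_comm]
          rfl
  have hsum : ∑ g ∈ cfg N R, QQc N (cB N) R (fun g => f (lp N g)) g ≤
      8 * (∑ g ∈ cfg N R, ∑ a, (1 - |lp N g a|) ^ 2 *
        Pool.Agent.T2h31.SB.pd f a (lp N g) ^ 2) + (cfg N R).card * err N +
        C * ∑ g ∈ cfg N R, (adj g : ℝ) := by
    refine (Finset.sum_le_sum hQ).trans (le_of_eq ?_)
    rw [Finset.sum_add_distrib, Finset.sum_add_distrib, Finset.sum_const, nsmul_eq_mul,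
      Finset.mul_sum, Finset.mul_sum]
  have hfin : ((cfg N R).card : ℝ) * ∑ g ∈ cfg N R, f (lp N g) ^ 2 -
      (∑ g ∈ cfg N R, f (lp N g)) ^ 2 ≤ (cfg N R).card *
        (1 / 2 * (8 * (∑ g ∈ cfg N R, ∑ a, (1 - |lp N g a|) ^ 2 *
          Pool.Agent.T2h31.SB.pd f a (lp N g) ^ 2) +
        (cfg N R).card * err N + C * ∑ g ∈ cfg N R, (adj g : ℝ))) := by
    refine hlat.trans ?_
    apply mul_le_mul_of_nonneg_left _ (Nat.cast_nonneg _)
    exact mul_le_mul_of_nonneg_left hsum (by norm_num)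
  have hcard1 : (∑ _g ∈ cfg N R, (1 : ℝ)) = (cfg N R).card := by simp
  show (∑ _g ∈ cfg N R, (1 : ℝ)) / (N : ℝ) ^ n * ((∑ g ∈ cfg N R, f (lp N g) ^ 2) / (N : ℝ) ^ n) -
      ((∑ g ∈ cfg N R, f (lp N g)) / (N : ℝ) ^ n) ^ 2 ≤
    (∑ _g ∈ cfg N R, (1 : ℝ)) / (N : ℝ) ^ n *
      (1 / 2 * (8 * ((∑ g ∈ cfg N R, ∑ a, (1 - |lp N g a|) ^ 2 *
        Pool.Agent.T2h31.SB.pd f a (lp N g) ^ 2) / (N : ℝ) ^ n) +
      err N * ((∑ _g ∈ cfg N R, (1 : ℝ)) / (N : ℝ) ^ n) +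
        C * ((∑ g ∈ cfg N R, (adj g : ℝ)) / (N : ℝ) ^ n)))
  rw [hcard1]
  have hl : ((cfg N R).card : ℝ) / (N : ℝ) ^ n * ((∑ g ∈ cfg N R, f (lp N g) ^ 2) / (N : ℝ) ^ n) -
      ((∑ g ∈ cfg N R, f (lp N g)) / (N : ℝ) ^ n) ^ 2 =
      (((cfg N R).card : ℝ) * ∑ g ∈ cfg N R, f (lp N g) ^ 2 -
      (∑ g ∈ cfg N R, f (lp N g)) ^ 2) / ((N : ℝ) ^ n) ^ 2 := by
    field_simp
  have hr : ((cfg N R).card : ℝ) / (N : ℝ) ^ n *
      (1 / 2 * (8 * ((∑ g ∈ cfg N R, ∑ a, (1 - |lp N g a|) ^ 2 *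
        Pool.Agent.T2h31.SB.pd f a (lp N g) ^ 2) / (N : ℝ) ^ n) +
      err N * (((cfg N R).card : ℝ) / (N : ℝ) ^ n) +
        C * ((∑ g ∈ cfg N R, (adj g : ℝ)) / (N : ℝ) ^ n))) =
      ((cfg N R).card * (1 / 2 * (8 * (∑ g ∈ cfg N R, ∑ a, (1 - |lp N g a|) ^ 2 *
        Pool.Agent.T2h31.SB.pd f a (lp N g) ^ 2) +
        (cfg N R).card * err N + C * ∑ g ∈ cfg N R, (adj g : ℝ)))) / ((N : ℝ) ^ n) ^ 2 := by
    field_simp
  rw [hl, hr]
  exact div_le_div_of_nonneg_right hfin (by positivity)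

end Pool.Agent.T2h31.LC
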