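import Pool.Agent.T2h31.LC.SmCore

/-!
# Project LC, task SMA (helper67): smooth densities, type A
-/

set_option autoImplicit false

namespace Pool.Agent.T2h31.LC

open MeasureTheory Set Filter Topology

namespace SMA

variable {n : ℕ}

theorem compact_OPp (R : Fin n → Fin n → Prop) : IsCompact (Pool.Agent.R972.OP.OPp R) := by
  have h1 : Pool.Agent.R972.OP.OPp R =
      Icc (0 : Fin n → ℝ) 1 ∩ ⋂ i, ⋂ j, ⋂ (_ : R i j), {x : Fin n → ℝ | x i ≤ x j} := by
    ext x
    simp only [Pool.Agent.R972.OP.OPp, mem_ofPred_eq, mem_inter_iff, mem_Icc, mem_iInter, Pi.le_def,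
      Pi.zero_apply, Pi.one_apply]
    exact ⟨fun h => ⟨⟨fun i => (h.1 i).1, fun i => (h.1 i).2⟩, h.2⟩,
      fun h => ⟨fun i => ⟨h.1.1 i, h.1.2 i⟩, h.2⟩⟩
  rw [h1]
  refine isCompact_Icc.inter_right ?_
  refine isClosed_iInter fun i => isClosed_iInter fun j => isClosed_iInter fun _ => ?_
  exact isClosed_le (continuous_apply i) (continuous_apply j)

theorem image_OPp (R : Fin n → Fin n → Prop) {q : ℝ → ℝ} (hc : Continuous q) (hm : StrictMono q)
    {a b : ℝ} (h0 : q 0 = a) (h1 : q 1 = b) :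
    (fun u : Fin n → ℝ => fun i => q (u i)) '' Pool.Agent.R972.OP.OPp R = KA a b R := by
  ext x
  constructor
  · rintro ⟨u, hu, rfl⟩
    refine ⟨fun i => ⟨?_, ?_⟩, fun i j hij => hm.monotone (hu.2 i j hij)⟩
    · rw [← h0]
      exact hm.monotone (hu.1 i).1
    · rw [← h1]
      exact hm.monotone (hu.1 i).2
  · intro hx
    have h2 : ∀ i, ∃ s ∈ Icc (0 : ℝ) 1, q s = x i := by
      intro i
      have h3 := intermediate_value_Icc (zero_le_one' ℝ) hc.continuousOn
      exact h3 (by rw [h0, h1]; exact hx.1 i)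
    choose u hu hqu using h2
    refine ⟨u, ⟨fun i => hu i, fun i j hij => ?_⟩, funext hqu⟩
    rw [← hm.le_iff_le, hqu i, hqu j]
    exact hx.2 i j hij

end SMA

open SmCore SMA in
theorem t_SMA (h1 : S_POD) (h2 : S_ONE) (h3 : S_QEX) (h4 : S_CVQ) : S_SMA := by
  intro n R hR f a b hsm g hg y hy
  obtain ⟨m, hm0, hmf⟩ := hsm.low
  have hfc : Continuous f := hsm.smooth.continuous
  have hfp : ∀ x, 0 < f x := fun x => lt_of_lt_of_le hm0 (hmf x)
  have hi : ∀ c d : ℝ, IntervalIntegrable f volume c d := fun c d => hfc.intervalIntegrable c d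
  have hZ : 0 < ∫ t in a..b, f t :=
    intervalIntegral.intervalIntegral_pos_of_pos (hi a b) hfp hsm.lt
  obtain ⟨q, hq2, hqm, hq0, hqd, hqi⟩ := h3 f (∫ t in a..b, f t) a hsm.smooth ⟨m, hm0, hmf⟩ hZ
  have hq1 : q 1 = b := by
    have h := hqi 1
    rw [mul_one] at h
    exact (int_inj hfc hfp h).symm
  have hqC : ContDiff ℝ 1 q := hq2.of_le (by norm_num)
  have hdp : ∀ s, 0 < deriv q s := fun s => by
    rw [hqd s]
    exact div_pos hZ (hfp _)
  refine core h4 (Pool.Agent.R972.OP.OPp R) (compact_OPp R) q f dd (∫ t in a..b, f t)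
    (((∫ t in a..b, f t) / f y) ^ 2) hqC hqm hdp (fun s => ?_) ?_ (fun u hu i => ?_)
    (fun F hF => h1 n R hR F hF) g hg (KA a b R) (image_OPp R hqC.continuous hqm hq0 hq1)
  · rw [hqd s, mul_div_cancel₀ _ (hfp _).ne']
  · unfold dd
    exact continuous_id.min (continuous_const.sub continuous_id)
  · have hu0 : 0 ≤ u i := (hu.1 i).1
    have hu1 : u i ≤ 1 := (hu.1 i).2
    have hx : q (u i) ∈ Icc a b :=
      ⟨by rw [← hq0]; exact hqm.monotone hu0, by rw [← hq1]; exact hqm.monotone hu1⟩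
    have h5 := (h2 f a b hsm).1 (q (u i)) hx y hy
    have hL : ∫ t in a..(q (u i)), f t = (∫ t in a..b, f t) * u i := (hqi (u i)).symm
    have hRr : ∫ t in (q (u i))..b, f t = (∫ t in a..b, f t) * (1 - u i) := by
      have h6 := intervalIntegral.integral_add_adjacent_intervals (hi a (q (u i))) (hi (q (u i)) b)
      rw [hL] at h6
      linarith
    rw [hL, hRr, ← mul_min_of_nonneg _ _ hZ.le, mul_assoc] at h5
    have h7 : dd (u i) * f y ≤ f (q (u i)) := le_of_mul_le_mul_left h5 hZ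
    have h8 : 0 ≤ dd (u i) := le_min hu0 (by linarith)
    have h9 : dd (u i) * deriv q (u i) ≤ (∫ t in a..b, f t) / f y := by
      rw [hqd, ← mul_div_assoc, div_le_div_iff₀ (hfp _) (hfp y)]
      calc dd (u i) * (∫ t in a..b, f t) * f y = (∫ t in a..b, f t) * (dd (u i) * f y) := by ring
        _ ≤ (∫ t in a..b, f t) * f (q (u i)) := mul_le_mul_of_nonneg_left h7 hZ.le
    exact pow_le_pow_left₀ (mul_nonneg h8 (hdp _).le) h9 2

end Pool.Agent.T2h31.LC
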