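import Pool.Agent.T2h31.LC.Stm
import Pool.Agent.T2h31.LC.H58

/-!
# LC-UPD: asymptotics of the energy of a placement, type A
-/

set_option autoImplicit false

namespace Pool.Agent.T2h31.LC.UPD

open MeasureTheory Set Filter Topology
open Pool.Agent.T2h31.LC
open Pool.Agent.R972.OP (mv lp pd)

theorem dd_le (u h : ℝ) (hh : 0 ≤ h) : dd (u + h) ≤ dd u + h := by
  unfold dd
  rcases le_total u (1 - u) with h1 | h1
  · rw [min_eq_left h1]
    exact (min_le_left _ _)
  · rw [min_eq_right h1]
    refine (min_le_right _ _).trans ?_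
    linarith

theorem dd_nonneg {u : ℝ} (hu : u ∈ Icc (0 : ℝ) 1) : 0 ≤ dd u := by
  unfold dd
  exact le_min hu.1 (by linarith [hu.2])

theorem dd_le_one {u : ℝ} (hu : u ∈ Icc (0 : ℝ) 1) : dd u ≤ 1 := by
  unfold dd
  exact (min_le_left _ _).trans hu.2

theorem dd_cont : Continuous dd := by
  unfold dd
  fun_prop

variable {n : ℕ} {f : (Fin n → ℝ) → ℝ}

theorem lp_mem {N : ℕ} {g : Fin n → ℕ} (hN : 0 < N) (hg : ∀ a, g a ≤ N) :
    lp N g ∈ H58.box n 0 1 := by
  have hN' : (0 : ℝ) < N := by exact_mod_cast hN
  constructor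
  · intro a
    change (0 : ℝ) ≤ (g a : ℝ) / N
    positivity
  · intro a
    change (g a : ℝ) / N ≤ 1
    rw [div_le_one hN']
    exact_mod_cast hg a

theorem lp_upd {N : ℕ} (g : Fin n → ℕ) (a : Fin n) (j : ℕ) :
    lp N (Function.update g a j) =
      lp N g + (((j : ℝ) - g a) / N) • Pi.single a (1 : ℝ) := by
  funext b
  rw [Pi.add_apply, Pi.smul_apply, smul_eq_mul]
  unfold Pool.Agent.R972.OP.lp
  by_cases hb : b = a
  · subst hb
    rw [Function.update_self, Pi.single_eq_same]
    ring
  · rw [Function.update_of_ne hb, Pi.single_eq_of_ne hb]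
    ring

end Pool.Agent.T2h31.LC.UPD

namespace Pool.Agent.T2h31.LC

open MeasureTheory Set Filter Topology
open Pool.Agent.R972.OP (mv lp pd)
open UPD

theorem t_UPD (hW : S_WCN) : S_UPD := by
  classical
  intro n f hf
  obtain ⟨err, herr, hP⟩ := H58.gen (n := n) hf 0 1 dd dd_cont fun t ht => dd_nonneg ht
  obtain ⟨L, hL0, hL, -⟩ := H58.bound (n := n) hf 0 1
  have hconv := H58.box_convex (n := n) 0 1
  refine ⟨fun N => 8 * n * err N, 16 * L ^ 2, ?_, by positivity,
    fun N g hN hg _ => ⟨?_, ?_⟩⟩
  · have := herr.const_mul (8 * (n : ℝ))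
    rwa [mul_zero] at this
  · obtain ⟨he0, hPN⟩ := hP N
    have hPN := hPN hN
    have hN' : (0 : ℝ) < N := by exact_mod_cast hN
    obtain ⟨hwc, hb⟩ := hW N hN
    have hx := lp_mem (n := n) hN fun a => (hg a).le
    set A : Fin n → ℝ := fun a => dd (lp N g a) ^ 2 * pd f a (lp N g) ^ 2 with hA
    have hA0 : ∀ a, 0 ≤ 4 * (A a + err N) := by
      intro a
      have : 0 ≤ A a := by
        simp only [hA]
        positivity
      positivity
    have hterm : ∀ (a : Fin n) (i j : ℕ), i + 1 < N → (i = g a ∧ j = i + 1 ∨ j = i ∧ g a = i + 1) →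
        cA N i * (f (lp N (Function.update g a j)) - f (lp N g)) ^ 2 ≤ 4 * (A a + err N) := by
      intro a i j hi hij
      have hjN : j ≤ N := by omega
      have hmem : lp N (Function.update g a j) ∈ H58.box n 0 1 := by
        apply lp_mem hN
        intro b
        by_cases hb : b = a
        · subst hb
          rw [Function.update_self]
          exact hjN
        · rw [Function.update_of_ne hb]
          exact (hg b).le
      rw [lp_upd] at hmem
      rw [lp_upd]
      obtain ⟨ξ, hξ, hd, he⟩ := H58.mvt hf hconv a _ hx hmem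
      have habs : |((j : ℝ) - g a) / N| = 1 / N := by
        rw [abs_div, abs_of_pos hN']
        congr 1
        rcases hij with ⟨h2, h3⟩ | ⟨h2, h3⟩
        · rw [h3, h2]
          push_cast
          rw [add_sub_cancel_left, abs_one]
        · rw [h3, h2]
          push_cast
          rw [sub_add_cancel_left, abs_neg, abs_one]
      rw [habs] at hd
      rw [he, mul_pow, ← sq_abs, habs]
      have h5 := hwc.nonneg i hi
      have h6 := hb i hi
      have hdd : dd (((i : ℝ) + 1) / N) ≤ dd (lp N g a) + 1 / N := by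
        rcases hij with ⟨h2, h3⟩ | ⟨h2, h3⟩
        · have e : ((i : ℝ) + 1) / N = lp N g a + 1 / N := by
            unfold Pool.Agent.R972.OP.lp
            rw [h2, add_div]
          rw [e]
          exact dd_le _ _ (by positivity)
        · have e : ((i : ℝ) + 1) / N = lp N g a := by
            unfold Pool.Agent.R972.OP.lp
            rw [h3]
            push_cast
            ring
          rw [e]
          have : 0 ≤ 1 / (N : ℝ) := by positivity
          linarith
      have hdd0 : 0 ≤ dd (((i : ℝ) + 1) / N) := by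
        apply dd_nonneg
        constructor
        · positivity
        · rw [div_le_one hN']
          have : i + 1 ≤ N := by omega
          exact_mod_cast this
      have h7 : (dd (((i : ℝ) + 1) / N) + 1 / N) ^ 2 ≤ (dd (lp N g a) + 2 / N) ^ 2 := by
        have : 0 ≤ 1 / (N : ℝ) := by positivity
        apply pow_le_pow_left₀ (by linarith)
        have e : (2 : ℝ) / N = 1 / N + 1 / N := by ring
        rw [e]
        linarith
      have h8 := hPN (lp N g) hx a ξ hξ hd
      calc cA N i * ((1 / (N : ℝ)) ^ 2 * (fderiv ℝ f ξ (Pi.single a 1)) ^ 2)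
          ≤ 4 * (N : ℝ) ^ 2 * (dd (lp N g a) + 2 / N) ^ 2 *
            ((1 / (N : ℝ)) ^ 2 * (fderiv ℝ f ξ (Pi.single a 1)) ^ 2) := by
            apply mul_le_mul_of_nonneg_right _ (by positivity)
            refine h6.trans ?_
            exact mul_le_mul_of_nonneg_left h7 (by positivity)
        _ = 4 * ((dd (lp N g a) + 2 / N) ^ 2 * (fderiv ℝ f ξ (Pi.single a 1)) ^ 2) := by
            field_simp
        _ ≤ 4 * (A a + err N) := mul_le_mul_of_nonneg_left h8 (by norm_num)
    have hS : ∀ s : Fin n → ℝ, (∀ a, s a ≤ 4 * (A a + err N)) →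
        ∑ a, s a ≤ 4 * (∑ a, A a + n * err N) := by
      intro s hs
      refine (Finset.sum_le_sum fun a _ => hs a).trans (le_of_eq ?_)
      rw [← Finset.mul_sum, Finset.sum_add_distrib, Finset.sum_const, Finset.card_univ,
        Fintype.card_fin, nsmul_eq_mul]
    have h1 := hS (fun a => if g a + 1 < N then
      cA N (g a) * (f (lp N (Function.update g a (g a + 1))) - f (lp N g)) ^ 2 else 0) (by
        intro a
        split_ifs with h
        · exact hterm a (g a) (g a + 1) h (Or.inl ⟨rfl, rfl⟩)
        · exact hA0 a)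
    have h2 := hS (fun a => if 0 < g a then
      cA N (g a - 1) * (f (lp N (Function.update g a (g a - 1))) - f (lp N g)) ^ 2 else 0) (by
        intro a
        split_ifs with h
        · have := hg a
          exact hterm a (g a - 1) (g a - 1) (by omega) (Or.inr ⟨rfl, by omega⟩)
        · exact hA0 a)
    have h3 : 8 * ∑ a, A a + 8 * n * err N =
      4 * (∑ a, A a + n * err N) + 4 * (∑ a, A a + n * err N) := by ring
    show _ ≤ 8 * ∑ a, A a + 8 * n * err N
    rw [h3]
    exact add_le_add h1 h2
  · intro a b hab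
    have hN' : (0 : ℝ) < N := by exact_mod_cast hN
    have hN1 : (1 : ℝ) ≤ N := by exact_mod_cast hN
    have hgb := hg b
    have hgN : g a + 1 < N := by omega
    obtain ⟨hwc, hb⟩ := hW N hN
    have h5 := hwc.nonneg (g a) hgN
    have h6 := hb (g a) hgN
    have hmv : ∀ e, mv (g a) (g a + 1) g e < N := by
      intro e
      have h3 := hg e
      unfold Pool.Agent.R972.OP.mv
      rw [Equiv.swap_apply_def]
      split_ifs <;> omega
    have hx := lp_mem (n := n) hN fun a => (hg a).le
    have hx' := lp_mem (n := n) hN fun e => (hmv e).le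
    have h1 := hconv.norm_image_sub_le_of_norm_fderiv_le
      (𝕜 := ℝ) (f := f) (C := L) (fun x _ => (hf.differentiable one_ne_zero x))
      (fun x hx => hL x hx) hx hx'
    have h2 : ‖lp N (mv (g a) (g a + 1) g) - lp N g‖ ≤ 1 / (N : ℝ) := by
      rw [pi_norm_le_iff_of_nonneg (by positivity)]
      intro e
      rw [Pi.sub_apply, Real.norm_eq_abs]
      unfold Pool.Agent.R972.OP.lp Pool.Agent.R972.OP.mv
      rw [Equiv.swap_apply_def, ← sub_div, abs_div, abs_of_pos hN']
      apply div_le_div_of_nonneg_right _ hN'.le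
      split_ifs with h3 h4
      · rw [h3]
        push_cast
        simp
      · rw [h4]
        push_cast
        simp
      · simp
    have h3 : ‖f (lp N (mv (g a) (g a + 1) g)) - f (lp N g)‖ ≤ L * (1 / (N : ℝ)) :=
      h1.trans (mul_le_mul_of_nonneg_left h2 hL0)
    rw [Real.norm_eq_abs] at h3
    have h4 : (f (lp N (mv (g a) (g a + 1) g)) - f (lp N g)) ^ 2 ≤ (L * (1 / (N : ℝ))) ^ 2 := by
      rw [← sq_abs]
      exact pow_le_pow_left₀ (abs_nonneg _) h3 2
    have hmem : ((g a : ℝ) + 1) / N ∈ Icc (0 : ℝ) 1 := by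
      constructor
      · positivity
      · rw [div_le_one hN']
        have : g a + 1 ≤ N := by omega
        exact_mod_cast this
    have h8 : (dd (((g a : ℝ) + 1) / N) + 1 / N) ^ 2 ≤ 2 ^ 2 := by
      have e1 := dd_nonneg hmem
      have e2 := dd_le_one hmem
      have e3 : 0 ≤ 1 / (N : ℝ) := by positivity
      have e4 : 1 / (N : ℝ) ≤ 1 := by
        rw [div_le_one hN']
        exact hN1
      exact pow_le_pow_left₀ (by linarith) (by linarith) 2
    calc cA N (g a) * (f (lp N (mv (g a) (g a + 1) g)) - f (lp N g)) ^ 2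
        ≤ cA N (g a) * (L * (1 / (N : ℝ))) ^ 2 := mul_le_mul_of_nonneg_left h4 h5
      _ ≤ 4 * (N : ℝ) ^ 2 * 2 ^ 2 * (L * (1 / (N : ℝ))) ^ 2 := by
          apply mul_le_mul_of_nonneg_right _ (sq_nonneg _)
          exact h6.trans (mul_le_mul_of_nonneg_left h8 (by positivity))
      _ = 16 * L ^ 2 := by
          field_simp
          ring

end Pool.Agent.T2h31.LC
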