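import Pool.Agent.T2h31.LC.Stm

/-!
(WCN) the position functions and the rates of type A.
-/

set_option autoImplicit false

namespace Pool.Agent.T2h31.LC

namespace WCN

/-- `ss` at the distance to the ends -/
noncomputable def S (x : ℝ) : ℝ := ss (dd x)

lemma dd_symm (x : ℝ) : dd (1 - x) = dd x := by
  unfold dd
  rw [sub_sub_cancel, min_comm]

lemma S_symm (x : ℝ) : S (1 - x) = S x := by
  unfold S
  rw [dd_symm]

lemma dd_nonneg {x : ℝ} (h0 : 0 ≤ x) (h1 : x ≤ 1) : 0 ≤ dd x := le_min h0 (by linarith)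

lemma dd_le_half (x : ℝ) : dd x ≤ 1 / 2 := by
  unfold dd
  rcases le_total x (1 / 2) with h | h
  · exact (min_le_left _ _).trans h
  · exact (min_le_right _ _).trans (by linarith)

lemma diff_low (hS : S_SSQ) {u δ : ℝ} (hδ : 0 < δ) (hu : δ ≤ u) (hu1 : u ≤ 1 / 2) (h2 : u + δ ≤ 1) :
    δ ^ 2 ≤ (2 * S u - S (u - δ) - S (u + δ)) * ((dd u + δ) * Real.sqrt (dd u + δ)) := by
  have e1 : dd u = u := min_eq_left (by linarith)
  have e2 : dd (u - δ) = u - δ := min_eq_left (by linarith)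
  have h3 : S (u + δ) ≤ ss (u + δ) := by
    unfold S
    rcases le_total (u + δ) (1 / 2) with h | h
    · have e3 : dd (u + δ) = u + δ := min_eq_left (by linarith)
      rw [e3]
    · have e3 : dd (u + δ) = 1 - (u + δ) := min_eq_right (by linarith)
      rw [e3]
      exact hS.2.1 _ h h2
  have h4 := hS.2.2 u δ hδ hu
  have h5 : S u = ss u := by
    unfold S
    rw [e1]
  have h6 : S (u - δ) = ss (u - δ) := by
    unfold S
    rw [e2]
  rw [e1, h5, h6]
  refine h4.trans (mul_le_mul_of_nonneg_right (by linarith) ?_)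
  have : 0 ≤ u + δ := by linarith
  positivity

lemma diff (hS : S_SSQ) {u δ : ℝ} (hδ : 0 < δ) (hu : δ ≤ u) (h2 : u + δ ≤ 1) :
    δ ^ 2 ≤ (2 * S u - S (u - δ) - S (u + δ)) * ((dd u + δ) * Real.sqrt (dd u + δ)) := by
  rcases le_total u (1 / 2) with h | h
  · exact diff_low hS hδ hu h h2
  · have h3 := diff_low hS hδ (u := 1 - u) (by linarith) (by linarith) (by linarith)
    have e2 : S (1 - u - δ) = S (u + δ) := by
      rw [← S_symm (u + δ)]
      congr 1
      ring
    have e3 : S (1 - u + δ) = S (u - δ) := by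
      rw [← S_symm (u - δ)]
      congr 1
      ring
    rw [S_symm, e2, e3, dd_symm] at h3
    calc δ ^ 2 ≤ _ := h3
      _ = _ := by ring

/-- the difference of two neighbouring values -/
lemma step {N : ℕ} (hN : 0 < N) (k : ℕ) : WA N (k + 1) - WA N k =
    2 * S (((k : ℝ) + 1) / N) - S (((k : ℝ) + 1) / N - 1 / N) - S (((k : ℝ) + 1) / N + 1 / N) := by
  have h : (N : ℝ) ≠ 0 := by positivity
  unfold WA
  have e1 : ((k : ℝ) + 1) / N - 1 / N = (k : ℝ) / N := by
    field_simp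
    ring
  have e2 : ((k : ℝ) + 1) / N + 1 / N = (((k + 1 : ℕ) : ℝ) + 1) / N := by
    push_cast
    field_simp
  have e3 : (((k + 1 : ℕ) : ℝ)) / N = ((k : ℝ) + 1) / N := by
    push_cast
    rfl
  rw [e1, e2, e3]
  unfold S
  ring

lemma bounds {N : ℕ} (hN : 0 < N) {k : ℕ} (hk : k + 1 < N) :
    (1 : ℝ) / N ≤ ((k : ℝ) + 1) / N ∧ ((k : ℝ) + 1) / N + 1 / N ≤ 1 := by
  have h : (0 : ℝ) < N := by exact_mod_cast hN
  constructor
  · gcongr
    have : (0 : ℝ) ≤ k := Nat.cast_nonneg k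
    linarith
  · rw [← add_div, div_le_one h]
    exact_mod_cast hk

lemma key {N : ℕ} (hS : S_SSQ) (hN : 0 < N) {k : ℕ} (hk : k + 1 < N) :
    (1 / (N : ℝ)) ^ 2 ≤ (WA N (k + 1) - WA N k) *
      ((dd (((k : ℝ) + 1) / N) + 1 / N) * Real.sqrt (dd (((k : ℝ) + 1) / N) + 1 / N)) := by
  have h : (0 : ℝ) < N := by exact_mod_cast hN
  obtain ⟨h1, h2⟩ := bounds hN hk
  rw [step hN]
  exact diff hS (by positivity) h1 h2

lemma dd_u {N : ℕ} (hN : 0 < N) {k : ℕ} (hk : k + 1 < N) : 0 ≤ dd (((k : ℝ) + 1) / N) := by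
  have h : (0 : ℝ) < N := by exact_mod_cast hN
  obtain ⟨h1, h2⟩ := bounds hN hk
  have h3 : (0 : ℝ) < 1 / N := by positivity
  exact dd_nonneg (by positivity) (by linarith)

lemma pos {N : ℕ} (hS : S_SSQ) (hN : 0 < N) {k : ℕ} (hk : k + 1 < N) : 0 < WA N (k + 1) - WA N k := by
  have h : (0 : ℝ) < N := by exact_mod_cast hN
  have h1 := key hS hN hk
  have h2 := dd_u hN hk
  have h3 : (0 : ℝ) < dd (((k : ℝ) + 1) / N) + 1 / N := by
    have : (0 : ℝ) < 1 / N := by positivity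
    linarith
  have h4 : 0 < (dd (((k : ℝ) + 1) / N) + 1 / N) * Real.sqrt (dd (((k : ℝ) + 1) / N) + 1 / N) :=
    mul_pos h3 (Real.sqrt_pos.2 h3)
  have h5 : (0 : ℝ) < (1 / (N : ℝ)) ^ 2 := by positivity
  by_contra hcon
  push Not at hcon
  have := mul_nonpos_of_nonpos_of_nonneg hcon h4.le
  linarith

lemma S_bd {N : ℕ} (hS : S_SSQ) (hN : 0 < N) {k : ℕ} (hk : k + 1 < N) :
    0 ≤ S (((k : ℝ) + 1) / N) ∧ S (((k : ℝ) + 1) / N) ≤ 4 * Real.sqrt (dd (((k : ℝ) + 1) / N)) :=
  hS.1 _ (dd_u hN hk) (dd_le_half _)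

lemma cA_mul {N : ℕ} (hS : S_SSQ) (hN : 0 < N) {k : ℕ} (hk : k + 1 < N) :
    cA N k * (WA N (k + 1) - WA N k) = S (((k : ℝ) + 1) / N) := by
  unfold cA
  rw [div_mul_cancel₀ _ (pos hS hN hk).ne']
  rfl

lemma S_zero : S 0 = 0 := by
  simp [S, dd, ss]

lemma S_one : S 1 = 0 := by
  simp [S, dd, ss]

end WCN

open WCN

theorem t_WCN (hS : S_SSQ) : S_WCN := by
  intro N hN1
  have hN : 0 < N := hN1
  have h : (0 : ℝ) < N := by exact_mod_cast hN
  refine ⟨⟨fun k hk => ?_, fun k hk => ?_, fun j hj => ?_⟩, fun k hk => ?_⟩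
  · have := pos hS hN hk
    linarith
  · unfold cA
    exact div_nonneg (S_bd hS hN hk).1 (pos hS hN hk).le
  · have e1 : (if j + 1 < N then cA N j * (WA N (j + 1) - WA N j) else 0) = S (((j : ℝ) + 1) / N) := by
      split_ifs with h1
      · exact cA_mul hS hN h1
      · have h2 : (j : ℝ) + 1 = N := by
          have : j + 1 = N := by omega
          exact_mod_cast this
        rw [h2, div_self h.ne', S_one]
    have e2 : (if 0 < j then cA N (j - 1) * (WA N j - WA N (j - 1)) else 0) = S ((j : ℝ) / N) := by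
      split_ifs with h1
      · have h2 := cA_mul hS hN (k := j - 1) (by omega)
        have h3 : j - 1 + 1 = j := by omega
        rw [h3] at h2
        rw [h2]
        have h4 : ((j - 1 : ℕ) : ℝ) + 1 = j := by
          exact_mod_cast h3
        rw [h4]
      · have h2 : j = 0 := by omega
        rw [h2, Nat.cast_zero, zero_div, S_zero]
    rw [e1, e2]
    unfold WA S
    ring
  · have h1 := key hS hN hk
    have h2 := pos hS hN hk
    obtain ⟨h3, h4⟩ := S_bd hS hN hk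
    have h0 := dd_u hN hk
    have hd : (0 : ℝ) < 1 / N := by positivity
    have e : cA N k = S (((k : ℝ) + 1) / N) / (WA N (k + 1) - WA N k) := rfl
    rw [e, div_le_iff₀ h2]
    set D := dd (((k : ℝ) + 1) / N) + 1 / N with hD
    have hD0 : 0 < D := by
      rw [hD]
      linarith
    have h5 : S (((k : ℝ) + 1) / N) ≤ 4 * Real.sqrt D := by
      refine h4.trans ?_
      have := Real.sqrt_le_sqrt (show dd (((k : ℝ) + 1) / N) ≤ D by rw [hD]; linarith)
      linarith
    have h6 : 4 * (N : ℝ) ^ 2 * D ^ 2 = 4 * D ^ 2 / (1 / (N : ℝ)) ^ 2 := by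
      field_simp
    rw [h6]
    set W := WA N (k + 1) - WA N k with hW
    rw [div_mul_eq_mul_div, le_div_iff₀ (by positivity)]
    have h7 : Real.sqrt D * Real.sqrt D = D := Real.mul_self_sqrt hD0.le
    have hs : 0 < Real.sqrt D := Real.sqrt_pos.2 hD0
    calc S (((k : ℝ) + 1) / N) * (1 / (N : ℝ)) ^ 2 ≤ (4 * Real.sqrt D) * (W * (D * Real.sqrt D)) :=
          mul_le_mul h5 h1 (by positivity) (by positivity)
      _ = 4 * W * D * (Real.sqrt D * Real.sqrt D) := by ring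
      _ = 4 * D ^ 2 * W := by rw [h7]; ring

end Pool.Agent.T2h31.LC
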